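/-
Block REG (problem MP_71c844_lc): regular expressions over `{0, 1}` as words.  Author: helper14.
-/
import Mathlib

set_option autoImplicit false

namespace Pool.Agent.Work.MP_71c844_lc.Reg

/-- The word for a regular expression: Polish notation with three bits per symbol. -/
def code : RegularExpression Bool → List Bool
  | .zero => [false, false, false]
  | .epsilon => [false, false, true]
  | .char a => [false, true, a]
  | .plus P Q => true :: false :: false :: (code P ++ code Q)
  | .comp P Q => true :: false :: true :: (code P ++ code Q)
  | .star P => true :: true :: false :: code P

/-- Star height. -/
def starHeight : RegularExpression Bool → ℕ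
  | .zero => 0
  | .epsilon => 0
  | .char _ => 0
  | .plus P Q => max (starHeight P) (starHeight Q)
  | .comp P Q => max (starHeight P) (starHeight Q)
  | .star P => starHeight P + 1

/-- Some word is not matched by the expression. -/
def NU (R : RegularExpression Bool) : Prop := ∃ w : List Bool, w ∉ R.matches'

end Pool.Agent.Work.MP_71c844_lc.Reg
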