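/-
Block REG (problem MP_71c844_lc): non-universality of regular expressions over `{0, 1}` needs time
`N ^ (1 + 1 / d) / log N` on every cellular array of dimension `d`.  Definitions.
Author: helper14.
-/
import Pool.Agent.Work.MP_71c844_lc.Reg.Code
import Pool.Agent.Work.MP_71c844_lc.Arr.StmtsG
import Pool.Agent.Work.MP_71c844_lc.Arr.CPDefs
import Pool.Agent.Work.MP_71c844_lc.Arr.TMRun

set_option autoImplicit false

namespace Pool.Agent.Work.MP_71c844_lc.Reg

open Finset Pool.Agent.Work.MP_71c844_lc.Arr

/-! ## Templates: words which depend on `x` in a simple way -/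

/-- A template: a list of segments. -/
abbrev Tmpl : Type := List (List Bool × List Bool × List Bool)

/-- The word of a segment `(u, v, w)`: first `u`, then for every letter of `x` the word `v`
(letter `0`) or `w` (letter `1`). -/
def seg (s : List Bool × List Bool × List Bool) (x : List Bool) : List Bool :=
  s.1 ++ x.flatMap (fun b => if b then s.2.2 else s.2.1)

/-- The word of a template. -/
def ev (τ : Tmpl) (x : List Bool) : List Bool := τ.flatMap (fun s => seg s x)

/-- The two words of every segment are equally long. -/
def TOk (τ : Tmpl) : Prop := ∀ s ∈ τ, s.2.1.length = s.2.2.length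

/-- The words `f x` are given by a template. -/
def IsT (f : List Bool → List Bool) : Prop := ∃ τ : Tmpl, TOk τ ∧ ∀ x, f x = ev τ x

/-! ### Templates coded by numbers

The template is coded by a number `T`, written in base `q`; the segment number `k` has the digits
`5 k, …, 5 k + 4`: the length of `u`, the number of `u`, the length of `v` and `w`, the number of
`v`, the number of `w`.  A word is given by its length and by the number with the binary digits of
the word, lowest digit first. -/

/-- Where the segment number `k` begins, for a word with `n` letters. -/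
def off (n q T k : ℕ) : ℕ := ∑ j ∈ range k, (dg q (5 * j) T + n * dg q (5 * j + 2) T)

/-- The letter number `i'` of the segment number `k`. -/
def slt (x : List Bool) (q T k i' : ℕ) : ℕ :=
  if i' < dg q (5 * k) T then dg 2 i' (dg q (5 * k + 1) T)
  else dg 2 ((i' - dg q (5 * k) T) % dg q (5 * k + 2) T)
    (if inpv x ((i' - dg q (5 * k) T) / dg q (5 * k + 2) T) = 1 then dg q (5 * k + 4) T
      else dg q (5 * k + 3) T)

/-- The letter number `i` of the word of the coded template on the word `x` with `n` letters
(`2` outside the word). -/
def vlt (x : List Bool) (n q T i : ℕ) : ℕ :=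
  if i < off n q T q then
    (∑ k ∈ range q, if off n q T k ≤ i ∧ i < off n q T (k + 1) then slt x q T k (i - off n q T k)
      else 0) % 2
  else 2

/-- The word of the coded template on the word `x` with `n` letters. -/
def vw (x : List Bool) (n q T : ℕ) : List Bool :=
  (List.range (off n q T q)).map (fun i => decide (vlt x n q T i = 1))

/-! ## The search function -/

/-- The word given by `x`: the fields `6` and `7` of `x` are the code of a template. -/
noncomputable def vx (x : List Bool) (M : ℕ) : List Bool :=
  vw x (glen 1 1 x M) (fld x (Nat.log 2 M) 6) (fld x (Nat.log 2 M) 7)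

/-- The search function: as `FB 1 1`, but the array (coded by the fields `0, …, 5` of `x`) works
on the word `vx x M`. -/
noncomputable def FR (x : List Bool) (M : ℕ) : ℕ :=
  if glen 1 1 x M ≤ Nat.log 2 M then
    if gameN (2 * M) (glen 1 1 x M) (fun Y => mj M (glen 1 1 x M) (fun Z =>
      if verN (vx x M) (2 * glen 1 1 x M) (Y * pc M 2 (glen 1 1 x M) + Z) M
        (fld x (Nat.log 2 M) 0) (fld x (Nat.log 2 M) 1) (fld x (Nat.log 2 M) 2)
        (fld x (Nat.log 2 M) 3) (fld x (Nat.log 2 M) 4) (fld x (Nat.log 2 M) 5) = 1
      then 1 else 0)) = 1 then 2 else 1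
  else 0

/-- The diagonal language. -/
def LR : Set (List Bool) := {x | ∃ M, FR x M = 1 ∧ ∀ M' < M, FR x M' = 0}

/-! ## Histories

A history is a sequence of letters; every letter is determined by the letters `W`, `W - 1` and `1`
places before it. -/

/-- The sequence `θ` begins with the word `u` and follows the rule `Φ` with `W = |u|`. -/
def Hist {Θ : Type} (Φ : Θ → Θ → Θ → Θ) (u : List Θ) (θ : ℕ → Θ) : Prop :=
  (∀ (j : ℕ) (h : j < u.length), θ j = u[j]) ∧
    ∀ j, θ (j + u.length) = Φ (θ j) (θ (j + 1)) (θ (j + u.length - 1))

/-- The first word: a letter, letters for the letters of `x`, and padding; its length is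
`K * (|x| + 1)`. -/
def uw {Θ : Type} (c₀ c₁ c₂ c₃ : Θ) (K : ℕ) (x : List Bool) : List Θ :=
  c₀ :: (x.map (fun b => if b then c₂ else c₁) ++
    List.replicate ((K - 1) * (x.length + 1)) c₃)

/-! ## The regular expression of a history

The letters are blocks of `ℓ` bits. -/

/-- Blocks of `ℓ` bits. -/
abbrev Blk (ℓ : ℕ) : Type := Fin ℓ → Bool

/-- The bits of a word of blocks. -/
def unb {ℓ : ℕ} (z : List (Blk ℓ)) : List Bool := z.flatMap (fun a => List.ofFn a)

/-- The expression for one word. -/
def wre (w : List Bool) : RegularExpression Bool :=
  w.foldr (fun b R => .comp (.char b) R) .epsilon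

/-- The expression for the blocks of a list. -/
def anyOf {ℓ : ℕ} (S : List (Blk ℓ)) : RegularExpression Bool :=
  S.foldr (fun a R => .plus (wre (List.ofFn a)) R) .zero

/-- All the blocks. -/
noncomputable def allB (ℓ : ℕ) : List (Blk ℓ) := (Finset.univ : Finset (Blk ℓ)).toList

/-- The expression for all the blocks. -/
noncomputable def sg (ℓ : ℕ) : RegularExpression Bool := anyOf (allB ℓ)

/-- `P`, `n` times, and then `Q`. -/
def rep (P Q : RegularExpression Bool) : ℕ → RegularExpression Bool
  | 0 => Q
  | n + 1 => .comp P (rep P Q n)

/-- One bit. -/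
def bit : RegularExpression Bool := .plus (.char false) (.char true)

/-- The words whose length is not divisible by `ℓ`: blocks, and then `k + 1 < ℓ` bits. -/
noncomputable def mis (ℓ : ℕ) : RegularExpression Bool :=
  .comp (.star (sg ℓ)) ((List.range (ℓ - 1)).foldr (fun k R => .plus (rep bit bit k) R) .zero)

/-- The words of blocks which do not begin with the word `u`. -/
noncomputable def hor {ℓ : ℕ} : List (Blk ℓ) → RegularExpression Bool
  | [] => .zero
  | a :: u => .plus .epsilon (.plus
      (.comp (anyOf ((allB ℓ).filter (fun b => decide (b ≠ a)))) (.star (sg ℓ)))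
      (.comp (wre (List.ofFn a)) (hor u)))

/-- The words of blocks which contain, somewhere, the blocks `p.1`, `p.2.1`, then `W - 3` blocks,
then `p.2.2`, and then a block which is not the one given by the rule. -/
noncomputable def ver {ℓ : ℕ} (Φ : Blk ℓ → Blk ℓ → Blk ℓ → Blk ℓ) (W : ℕ)
    (p : Blk ℓ × Blk ℓ × Blk ℓ) : RegularExpression Bool :=
  .comp (.star (sg ℓ)) (.comp (wre (List.ofFn p.1)) (.comp (wre (List.ofFn p.2.1))
    (rep (sg ℓ) (.comp (wre (List.ofFn p.2.2))
      (.comp (anyOf ((allB ℓ).filter (fun b => decide (b ≠ Φ p.1 p.2.1 p.2.2))))
        (.star (sg ℓ)))) (W - 3))))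

/-- The expression: it does not match exactly the beginnings (with at least `|u|` blocks) of the
history of the rule `Φ` and the word `u` which contain an accepting block. -/
noncomputable def Rx {ℓ : ℕ} (Φ : Blk ℓ → Blk ℓ → Blk ℓ → Blk ℓ) (acc : Blk ℓ → Bool)
    (u : List (Blk ℓ)) : RegularExpression Bool :=
  .plus (mis ℓ) (.plus (hor u) (.plus
    (.star (anyOf ((allB ℓ).filter (fun b => !acc b))))
    (((Finset.univ : Finset (Blk ℓ × Blk ℓ × Blk ℓ)).toList).foldr
      (fun p R => .plus (ver Φ u.length p) R) .zero)))

/-! ## Goto programs by histories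

The sequence is divided into rows of `W` letters.  A row shows the configuration of the goto
program `G` (with the registers `0, …, m - 1`) on the word `x`: the cell number `i < W` of the row
shows the input symbol at the position `i`, whether the head is there, and the bit number `i` of
every register.  The letter also shows the state of a finite automaton which reads the row from the
left to the right: an address of `G`, a phase (`true` in the second of the two rows of a
decrement of a nonzero register) and a flag (carry, borrow, …).  The state `none` belongs to the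
first row, where nothing happens. -/

/-- A cell: input symbol, head, bits of the registers. -/
abbrev Cel (m : ℕ) : Type := InSym × Bool × (Fin m → Bool)

/-- The states of the finite automaton. -/
abbrev QS (G : List Ins) : Type := Option (Fin (G.length + 1) × Bool × Bool)

/-- The letters. -/
abbrev Th (m : ℕ) (G : List Ins) : Type := QS G × Cel m

/-- Bit of the register `r`. -/
def rb {m : ℕ} (b : Fin m → Bool) (r : ℕ) : Bool := if h : r < m then b ⟨r, h⟩ else false

/-- Change the bit of the register `r`. -/
def ub {m : ℕ} (b : Fin m → Bool) (r : ℕ) (v : Bool) : Fin m → Bool :=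
  fun i => if i.val = r then v else b i

/-- Is the symbol the left end marker? -/
def isL : InSym → Bool
  | .lend => true
  | _ => false

/-- Is the symbol the right end marker? -/
def isR : InSym → Bool
  | .rend => true
  | _ => false

/-- The flag at the beginning of a row. -/
def flg0 (G : List Ins) (pc : ℕ) (ph : Bool) : Bool :=
  match G[pc]? with
  | some (.inc _ _) => true
  | some (.dec _ _) => ph
  | _ => false

/-- The flag after reading the cell `c`. -/
def nfl {m : ℕ} (G : List Ins) (pc : ℕ) (ph f : Bool) (c : Cel m) : Bool :=
  match G[pc]? with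
  | some (.inc r _) => f && rb c.2.2 r
  | some (.dec r _) => if ph then f && !(rb c.2.2 r) else f || rb c.2.2 r
  | some (.mv .right _) => c.2.1 && !(isR c.1)
  | some (.br (.reg r) _ _) => f || rb c.2.2 r
  | some (.br (.sym t) _ _) => f || (c.2.1 && t c.1)
  | _ => false

/-- The address and the phase of the next row, from the flag at the end of the row. -/
def nxt (G : List Ins) (pc : ℕ) (ph f : Bool) : ℕ × Bool :=
  match G[pc]? with
  | some (.inc _ nx) => (nx, false)
  | some (.dec _ nx) => if ph then (nx, false) else if f then (pc, true) else (nx, false)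
  | some (.mv _ nx) => (nx, false)
  | some (.br _ n₁ n₂) => (if f then n₁ else n₂, false)
  | some (.jmp nx) => (nx, false)
  | some (.halt _) => (pc, false)
  | none => (pc, false)

/-- The state at the beginning of the next row. -/
def norm (G : List Ins) : QS G → QS G
  | none => some (clip G 0, false, flg0 G 0 false)
  | some (pc, ph, f) => some (clip G (nxt G pc.val ph f).1, (nxt G pc.val ph f).2,
      flg0 G (nxt G pc.val ph f).1 (nxt G pc.val ph f).2)

/-- The state after reading the cell. -/
def d1 {m : ℕ} {G : List Ins} (a : Th m G) : QS G :=
  match a.1 with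
  | none => none
  | some (pc, ph, f) => some (pc, ph, nfl G pc.val ph f a.2)

/-- The cell in the next row, from the letter and the cell `c'` on the right. -/
def d2 {m : ℕ} {G : List Ins} (a : Th m G) (c' : Cel m) : Cel m :=
  match a.1 with
  | none => a.2
  | some (pc, ph, f) =>
    match G[pc.val]? with
    | some (.inc r _) => (a.2.1, a.2.2.1, ub a.2.2.2 r (xor (rb a.2.2.2 r) f))
    | some (.dec r _) => if ph then (a.2.1, a.2.2.1, ub a.2.2.2 r (xor (rb a.2.2.2 r) f)) else a.2
    | some (.mv .right _) => (a.2.1, f || (a.2.2.1 && isR a.2.1), a.2.2.2)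
    | some (.mv .left _) =>
      (a.2.1, (c'.2.1 && !(isL c'.1)) || (a.2.2.1 && isL a.2.1), a.2.2.2)
    | _ => a.2

/-- The rule: the new letter from the letter above it, the one on the right of that, and the
letter on the left. -/
def rul {m : ℕ} {G : List Ins} (a b c : Th m G) : Th m G :=
  (if isL a.2.1 then norm G (d1 c) else d1 c, d2 a b.2)

/-- Accepting letters. -/
def acc {m : ℕ} {G : List Ins} (a : Th m G) : Bool :=
  match a.1 with
  | none => false
  | some (pc, _, _) =>
    match G[pc.val]? with
    | some (.halt b) => b
    | _ => false

/-- The letters of the first row. -/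
def c0 (m : ℕ) (G : List Ins) : Th m G := (none, .lend, true, fun _ => false)

/-- The letters of the first row. -/
def cb (m : ℕ) (G : List Ins) (b : Bool) : Th m G := (none, .bit b, false, fun _ => false)

/-- The letters of the first row. -/
def cr (m : ℕ) (G : List Ins) : Th m G := (none, .rend, false, fun _ => false)

/-! ### Description of the rows -/

/-- The cell number `i` of the row which shows the registers and the head position `s`. -/
def cel (m : ℕ) (x : List Bool) (s : St) (i : ℕ) : Cel m :=
  (inSym x i, decide (s.2 = i), fun r => (s.1 r.val).testBit i)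

/-- The flag before the cell number `i` in a row which shows the configuration `a`. -/
def flg (G : List Ins) (x : List Bool) (a : ℕ × St) (ph : Bool) (i : ℕ) : Bool :=
  match G[a.1]? with
  | some (.inc r _) => decide (∀ i' < i, (a.2.1 r).testBit i' = true)
  | some (.dec r _) => if ph then decide (∀ i' < i, (a.2.1 r).testBit i' = false)
      else decide (∃ i' < i, (a.2.1 r).testBit i' = true)
  | some (.mv .right _) => decide (a.2.2 + 1 = i) && !(isR (inSym x a.2.2))
  | some (.br (.reg r) _ _) => decide (∃ i' < i, (a.2.1 r).testBit i' = true)
  | some (.br (.sym t) _ _) => decide (a.2.2 < i) && t (inSym x a.2.2)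
  | _ => false

/-- What the next row shows: configuration and phase. -/
noncomputable def big (G : List Ins) (x : List Bool) (a : ℕ × St) (ph : Bool) : (ℕ × St) × Bool :=
  match G[a.1]? with
  | some (.dec r _) => if ph = false ∧ a.2.1 r ≠ 0 then (a, true) else (gostep G x a, false)
  | _ => (gostep G x a, false)

/-- The row number `k` of the sequence `θ` shows the configuration `a` in the phase `ph`. -/
def RowIs (m : ℕ) (G : List Ins) (x : List Bool) (W : ℕ) (θ : ℕ → Th m G) (k : ℕ)
    (a : ℕ × St) (ph : Bool) : Prop :=
  ∀ i < W, θ (k * W + i) = (some (clip G a.1, ph, flg G x a ph i), cel m x a.2 i)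

/-- Legal pairs of configuration and phase for rows with `W` cells: the numbers have at most `W`
bits, the head is in the row, and in the second phase of a decrement the register is not zero. -/
def Leg (G : List Ins) (x : List Bool) (W : ℕ) (a : ℕ × St) (ph : Bool) : Prop :=
  (∀ r, a.2.1 r < 2 ^ W) ∧ a.2.2 ≤ x.length + 1 ∧ x.length + 2 ≤ W ∧
    (ph = true → ∃ r nx, G[a.1]? = some (.dec r nx) ∧ a.2.1 r ≠ 0)

end Pool.Agent.Work.MP_71c844_lc.Reg
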