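/-
Block REG (problem MP_71c844_lc): statements of the items, with proofs in the docstrings.
Author: helper14.
-/
import Pool.Agent.Work.MP_71c844_lc.Reg.Defs

set_option autoImplicit false

namespace Pool.Agent.Work.MP_71c844_lc.Reg

open Finset Pool.Agent.Work.MP_71c844_lc.Arr

/-! ## Templates -/

/-- TA: the code of the expression `Rx` is given by a template.  First the closure rules of `IsT`:
constants `(u, [], [])`; `f x ++ g x` (append the lists); `x.flatMap (fun b => if b then w else v)`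
with `|v| = |w|` (one segment `([], v, w)`); `(List.replicate (a * |x| + b) v).flatten` (segment
`([], v ^ a, v ^ a)` and constant `v ^ b`).  Then: `code (rep P Q n)` is
`(List.replicate n (true :: false :: true :: code P)).flatten ++ code Q`, and
`|uw| - 3 = K * |x| + (K - 3)`; `code (hor u) = u.flatMap hw ++ code .zero` where
`hw a = [plus] ++ code .epsilon ++ [plus] ++ code (.comp (anyOf …) (.star (sg ℓ))) ++ [comp] ++
code (wre (List.ofFn a))` has the same length for every block `a` (`allB ℓ` without `a` has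
`2 ^ ℓ - 1` blocks, each of them gives a word of the same length); the rest of `Rx` is constant, and
for the fold over the triples use induction on the list. -/
def S_TA : Prop := ∀ (ℓ : ℕ) (Φ : Blk ℓ → Blk ℓ → Blk ℓ → Blk ℓ) (ac : Blk ℓ → Bool)
  (a₀ a₁ a₂ a₃ : Blk ℓ) (K : ℕ), 3 ≤ K → IsT (fun x => code (Rx Φ ac (uw a₀ a₁ a₂ a₃ K x)))

/-- TB: every template has a code.  For a word `u` let `nm u = ∑ i, u_i 2 ^ i`; take `q` larger than
the number of segments and than all the lengths and numbers `nm`, and `T = ofd q (5 q) f` with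
`f (5 k) = |u|, f (5 k + 1) = nm u, f (5 k + 2) = |v|, f (5 k + 3) = nm v, f (5 k + 4) = nm w` for
the segment `(u, v, w)` number `k`, and `f = 0` beyond the last segment.  Then `off n q T k` is the
length of the word of the first `k` segments, and for `i` in the segment number `k` the sum in `vlt`
has only the summand number `k`, which is the letter (`slt`). -/
def S_TB : Prop := D1 → ∀ τ : Tmpl, TOk τ → ∃ q T : ℕ, ∀ x : List Bool,
  vw x x.length q T = ev τ x

/-- TC: the letters of the coded word (`vlt < 2` inside), and the lengths. -/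
def S_TC : Prop := (∀ (x : List Bool) (n q T i : ℕ), inpv (vw x n q T) i = vlt x n q T i) ∧
  ∀ τ : Tmpl, TOk τ → ∃ a b : ℕ, ∀ x : List Bool, (ev τ x).length = a * x.length + b

/-! ## Loop programs on computed words -/

/-- LA (substitution).  Let `P` be the program of `f` for the registers `a, o, s`, all of whose
registers are `< m` (`TMS.exists_Plt`; take `m ≥ s` and `m > a i, o`).  New program for the word
`x`: copy the arguments `a i` to the registers `m + (number of i)` (`Prog.addTo`), run `P'`, clear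
the copies.  Here `P'` is `P` with every instruction `inp r t` replaced by: the program of the
letter function for the registers `none ↦ r`, `some i ↦ m + (number of i)`, with output register
`o' = m + card ι` and free registers from `o' + 1`; then `addTo o' t`; then `clear o'`.  Invariant:
`P'` on the word `x` does on the registers `< m` what `P` does on the word `W x γ`, the copies do
not change, and the registers `≥ m + card ι` are zero before and after (`P` neither reads nor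
changes registers `≥ m`: `TMS.run_update`, `TMS.run_ge`, `TMS.Bd_update`).  Bounds: the
position `σ r` is at most `(B + 2) ^ C` by `Bd` of `P`. -/
def S_LA : Prop := ∀ {ι Γ : Type} [Finite ι] (co : ι → Γ → ℕ) (f : List Bool → Γ → ℕ)
  (W : List Bool → Γ → List Bool), LSC co f →
  LSC (ext co) (fun x γ => inpv (W x γ.1) γ.2) → LSC co (fun x γ => f (W x γ) γ)

/-- LB (composition).  By induction on `k`, for functions with other variables: for all
`co : ι → Γ → ℕ` and `F : List Bool → Γ → (Fin k → ℕ) → ℕ` with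
`LSC (fun (i : ι ⊕ Fin k) (γ : Γ × (Fin k → ℕ)) => i.elim (fun i => co i γ.1) γ.2) …` and `LSC co (g i)`;
the step is `letr` and `LSC.reidx`.  (Or directly from the definition of `LSC`.) -/
def S_LB : Prop := LSR1 → ∀ (k : ℕ) (F : List Bool → (Fin k → ℕ) → ℕ),
  LSC (fun (i : Fin k) (v : Fin k → ℕ) => v i) F →
  ∀ {ι Γ : Type} (co : ι → Γ → ℕ) (g : Fin k → List Bool → Γ → ℕ), (∀ i, LSC co (g i)) →
    LSC co (fun x γ => F x (fun i => g i x γ))

/-- LC: the letters of the coded word; unfold `vlt`, `off`, `slt` and use the rules. -/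
def S_LC : Prop := LSRules → ∀ {ι Γ : Type} (co : ι → Γ → ℕ) (n q T i : List Bool → Γ → ℕ),
  LSC co n → LSC co q → LSC co T → LSC co i →
  LSC co (fun x γ => vlt x (n x γ) (q x γ) (T x γ) (i x γ))

/-- LD: the verdict on the coded word.  With `k = 12` variables `v`: `verN x (v 0) … (v 8)` is in
the class (the hypothesis, and `LSC.var`), so by LA with `W x v = vw x (v 9) (v 10) (v 11)` (its
letters by TC and LC) `verN (vw x (v 9) (v 10) (v 11)) (v 0) … (v 8)` is in the class; then LB. -/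
def S_LD : Prop := LSRules → S_LA → S_LB → S_LC → S_TC →
  (∀ {ι Γ : Type} (co : ι → Γ → ℕ)
    (m Y M d q tb et vt A : List Bool → Γ → ℕ), LSC co m → LSC co Y →
      LSC co M → LSC co d → LSC co q → LSC co tb → LSC co et → LSC co vt → LSC co A →
      LSC co (fun x γ => verN x (m x γ) (Y x γ) (M x γ) (d x γ) (q x γ) (tb x γ) (et x γ)
        (vt x γ) (A x γ))) →
  ∀ {ι Γ : Type} (co : ι → Γ → ℕ)
    (n q' T m Y M d q tb et vt A : List Bool → Γ → ℕ), LSC co n → LSC co q' → LSC co T →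
      LSC co m → LSC co Y →
      LSC co M → LSC co d → LSC co q → LSC co tb → LSC co et → LSC co vt → LSC co A →
      LSC co (fun x γ => verN (vw x (n x γ) (q' x γ) (T x γ)) (m x γ) (Y x γ) (M x γ) (d x γ)
        (q x γ) (tb x γ) (et x γ) (vt x γ) (A x γ))

/-- LE: the search function is in the class; compare `B1` (`Arr/B1.lean`). -/
def S_LE : Prop := LSRules →
  (∀ {ι Γ : Type} (co : ι → Γ → ℕ)
    (n q' T m Y M d q tb et vt A : List Bool → Γ → ℕ), LSC co n → LSC co q' → LSC co T →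
      LSC co m → LSC co Y →
      LSC co M → LSC co d → LSC co q → LSC co tb → LSC co et → LSC co vt → LSC co A →
      LSC co (fun x γ => verN (vw x (n x γ) (q' x γ) (T x γ)) (m x γ) (Y x γ) (M x γ) (d x γ)
        (q x γ) (tb x γ) (et x γ) (vt x γ) (A x γ))) → S_N6 →
  LSC (fun (_ : Unit) (M : ℕ) => M) (fun x M => FR x M)

/-! ## The language of the regular expression -/

/-- The expression matches exactly the words `unb z` with `L z`. -/
def Rp {ℓ : ℕ} (R : RegularExpression Bool) (L : List (Blk ℓ) → Prop) : Prop :=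
  ∀ w : List Bool, w ∈ R.matches' ↔ ∃ z : List (Blk ℓ), L z ∧ w = unb z

/-- RA: the languages of the building blocks.  `star`: a word is in the star of `L` when it is a
concatenation of words of `L` (`Language.mem_kstar`); `mis`: the words of `star (sg ℓ)` are the
words whose length is divisible by `ℓ`; `rep bit bit k` matches the words of length `k + 1`;
a word of length `r + ℓ j` with `0 < r < ℓ` is a word of length `ℓ j` followed by one of length
`r`, and `|unb z| = ℓ |z|`. -/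
structure RA : Prop where
  mem_allB : ∀ (ℓ : ℕ) (a : Blk ℓ), a ∈ allB ℓ
  inj : ∀ ℓ : ℕ, 1 ≤ ℓ → ∀ z z' : List (Blk ℓ), unb z = unb z' → z = z'
  one : ∀ (ℓ : ℕ) (a : Blk ℓ), Rp (wre (List.ofFn a)) (fun z : List (Blk ℓ) => z = [a])
  any : ∀ (ℓ : ℕ) (S : List (Blk ℓ)), Rp (anyOf S) (fun z => ∃ a ∈ S, z = [a])
  star : ∀ (ℓ : ℕ) (S : List (Blk ℓ)), Rp (.star (anyOf S)) (fun z => ∀ a ∈ z, a ∈ S)
  zero : ∀ ℓ : ℕ, Rp .zero (fun _ : List (Blk ℓ) => False)
  eps : ∀ ℓ : ℕ, Rp .epsilon (fun z : List (Blk ℓ) => z = [])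
  plus : ∀ (ℓ : ℕ) (P Q : RegularExpression Bool) (L L' : List (Blk ℓ) → Prop), Rp P L → Rp Q L' →
    Rp (.plus P Q) (fun z => L z ∨ L' z)
  comp : ∀ (ℓ : ℕ) (P Q : RegularExpression Bool) (L L' : List (Blk ℓ) → Prop), Rp P L → Rp Q L' →
    Rp (.comp P Q) (fun z => ∃ z₁ z₂, z = z₁ ++ z₂ ∧ L z₁ ∧ L' z₂)
  rep : ∀ (ℓ : ℕ) (Q : RegularExpression Bool) (L : List (Blk ℓ) → Prop) (n : ℕ), Rp Q L →
    Rp (rep (sg ℓ) Q n) (fun z => ∃ z₁ z₂, z = z₁ ++ z₂ ∧ z₁.length = n ∧ L z₂)
  fold : ∀ (ℓ : ℕ) {β : Type} (S : List β) (f : β → RegularExpression Bool)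
    (L : β → List (Blk ℓ) → Prop), (∀ p ∈ S, Rp (f p) (L p)) →
    Rp (S.foldr (fun p R => .plus (f p) R) .zero) (fun z => ∃ p ∈ S, L p z)
  mis : ∀ ℓ : ℕ, 1 ≤ ℓ → ∀ w : List Bool,
    w ∈ (mis ℓ).matches' ↔ ¬ ∃ z : List (Blk ℓ), w = unb z

/-- The statement of RA. -/
def S_RA : Prop := RA

/-- RB: the words which are not matched.  `hor u` matches the words `unb z` where `z` does not
begin with `u` (induction on `u`); `ver Φ W p` matches the words `unb z` where for some `j` the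
letters number `j, j + 1, j + W - 1` are `p.1, p.2.1, p.2.2` and the letter number `j + W` is another
one than `Φ p.1 p.2.1 p.2.2`; with `RA.inj` the word `unb z` is matched by `Rx` if and only if one of
the conditions is violated. -/
def S_RB : Prop := RA → ∀ (ℓ : ℕ), 1 ≤ ℓ → ∀ (Φ : Blk ℓ → Blk ℓ → Blk ℓ → Blk ℓ)
  (ac : Blk ℓ → Bool) (u : List (Blk ℓ)), 3 ≤ u.length → ∀ w : List Bool,
  w ∉ (Rx Φ ac u).matches' ↔ ∃ z : List (Blk ℓ), w = unb z ∧ u <+: z ∧ (∃ a ∈ z, ac a = true) ∧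
    ∀ (j : ℕ) (a b c e : Blk ℓ), z[j]? = some a → z[j + 1]? = some b →
      z[j + u.length - 1]? = some c → z[j + u.length]? = some e → e = Φ a b c

/-- RC: the expression is not universal if and only if an accepting letter occurs in the history.
A word `z` as in RB is a beginning of the history: `z[j]? = some (θ j)` for `j < |z|` by strong
induction; conversely take the first `max (j + 1) |u|` letters of the history. -/
def S_RC : Prop := S_RB → RA → ∀ (ℓ : ℕ), 1 ≤ ℓ → ∀ (Φ : Blk ℓ → Blk ℓ → Blk ℓ → Blk ℓ)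
  (ac : Blk ℓ → Bool) (u : List (Blk ℓ)), 3 ≤ u.length → ∀ θ : ℕ → Blk ℓ, Hist Φ u θ →
  (NU (Rx Φ ac u) ↔ ∃ j, ac (θ j) = true)

/-- RD: histories exist (define the list of the first `n` letters by recursion on `n`, or use
well-founded recursion). -/
def S_RD : Prop := ∀ {Θ : Type} (Φ : Θ → Θ → Θ → Θ) (u : List Θ), 2 ≤ u.length →
  ∃ θ : ℕ → Θ, Hist Φ u θ

/-! ## Goto programs -/

/-- QA: bits.  `succ`, `pred` by induction on `i` (for all `v`), with `v / 2`. -/
structure QA : Prop where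
  succ : ∀ v i : ℕ, (v + 1).testBit i =
    xor (v.testBit i) (decide (∀ i' < i, v.testBit i' = true))
  pred : ∀ v i : ℕ, v ≠ 0 → (v - 1).testBit i =
    xor (v.testBit i) (decide (∀ i' < i, v.testBit i' = false))
  pos : ∀ v W : ℕ, v < 2 ^ W → (v ≠ 0 ↔ ∃ i < W, v.testBit i = true)

/-- The statement of QA. -/
def S_QA : Prop := QA

/-- All registers of the program are `< m`. -/
def Reg1 (m : ℕ) (G : List Ins) : Prop :=
  ∀ (n : ℕ) (I : Ins), G[n]? = some I → TMS.Ins.lt m I

/-- QB: the flags along a row; cases on `G[a.1]?`. -/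
def S_QB : Prop := ∀ (m : ℕ) (G : List Ins) (x : List Bool) (a : ℕ × St) (ph : Bool), Reg1 m G →
  flg G x a ph 0 = flg0 G a.1 ph ∧
  ∀ i, nfl G a.1 ph (flg G x a ph i) (cel m x a.2 i) = flg G x a ph (i + 1)

/-- QC: the end of a row; cases on `G[a.1]?`. -/
def S_QC : Prop := QA → ∀ (m : ℕ) (G : List Ins) (x : List Bool) (W : ℕ) (a : ℕ × St) (ph : Bool),
  Reg1 m G → Leg G x W a ph →
  nxt G a.1 ph (flg G x a ph W) = ((big G x a ph).1.1, (big G x a ph).2)

/-- QD: the cells of the next row; `c'` is the cell on the right, or the first cell of the next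
row.  Cases on `G[a.1]?`; `inSym x i` is `lend` exactly for `i = 0` and `rend` exactly for
`i ≥ |x| + 1`. -/
def S_QD : Prop := QA → ∀ (m : ℕ) (G : List Ins) (x : List Bool) (W : ℕ) (a : ℕ × St) (ph : Bool)
  (i : ℕ) (c' : Cel m), Reg1 m G → Leg G x W a ph → i < W →
  ((i + 1 < W ∧ c' = cel m x a.2 (i + 1)) ∨ (i + 1 = W ∧ isL c'.1 = true)) →
  d2 ((some (clip G a.1, ph, flg G x a ph i), cel m x a.2 i) : Th m G) c' =
    cel m x (big G x a ph).1.2 i

/-- QE: from row to row.  The letter number `i` of the new row is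
`rul (θ (k W + i)) (θ (k W + i + 1)) (θ (k W + i + W - 1))`.  For `i = 0` the third letter is the last
letter of the row `k`; `d1` of it has the flag `flg … W` (QB), and `norm` of it is the state
`(clip (big …).1.1, (big …).2, flg0 …)` by QC (`G[(clip G n).val]? = G[n]?`).  For `i > 0` the third
letter is the letter number `i - 1` of the new row (induction), use QB.  The cells by QD; for
`i + 1 = W` the letter `θ (k W + i + 1)` is the first one of the new row. -/
def S_QE : Prop := QA → S_QB → S_QC → S_QD → ∀ (m : ℕ) (G : List Ins) (x : List Bool) (W : ℕ)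
  (θ : ℕ → Th m G) (k : ℕ) (a : ℕ × St) (ph : Bool), Reg1 m G → Leg G x W a ph →
  (∀ j, θ (j + W) = rul (θ j) (θ (j + 1)) (θ (j + W - 1))) → RowIs m G x W θ k a ph →
  RowIs m G x W θ (k + 1) (big G x a ph).1 (big G x a ph).2

/-- QF: the run.  Row `0` is idle: its states are `none`, its cells show the initial configuration;
row `1` shows `(0, (fun _ => 0, 0))` in the phase `false`.  By QE every row `k ≥ 1` shows some
configuration of the run (`big` is `gostep`, or repeats the configuration), the configurations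
come in order, and after the time `t` the configuration does not change.  So the address of a
letter of a row `k ≥ 1` is the address of a configuration number `s ≤ t`, it is not an accepting
halting address for `s < t` unless the run is already constant; and the configuration number `t`
is shown by some row. -/
def S_QF : Prop := QA → S_QB → S_QC → S_QD → S_QE → ∀ (m : ℕ) (G : List Ins) (K : ℕ)
  (x : List Bool) (θ : ℕ → Th m G) (t : ℕ) (b : Bool), Reg1 m G → 3 ≤ K →
  Hist rul (uw (c0 m G) (cb m G false) (cb m G true) (cr m G) K x) θ →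
  (∀ s ≤ t, ∀ r, ((gostep G x)^[s] (0, (fun _ => 0, 0))).2.1 r < 2 ^ (K * (x.length + 1))) →
  G[((gostep G x)^[t] (0, (fun _ => 0, 0))).1]? = some (.halt b) →
  ((∃ j, acc (θ j) = true) ↔ b = true)

/-- QG: the letters as blocks.  `Th m G` is finite; take `ℓ ≥ 1` with `2 ^ ℓ ≥ |Th m G|`, an
injection `e : Th m G → Blk ℓ` with a left inverse `d`, the rule
`Φ a b c = e (rul (d a) (d b) (d c))`, `ac a = acc (d a)`, the letters `e (c0 m G)`, …, and
`K = max 3 (C + 1)`; if `θ` is a history of `Φ` then `fun j => d (θ j)` is a history of `rul`. -/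
def S_QG : Prop := QA → S_QB → S_QC → S_QD → S_QE → S_QF → ∀ (m : ℕ) (G : List Ins) (C : ℕ),
  Reg1 m G → ∃ (ℓ : ℕ) (Φ : Blk ℓ → Blk ℓ → Blk ℓ → Blk ℓ) (ac : Blk ℓ → Bool)
    (a₀ a₁ a₂ a₃ : Blk ℓ) (K : ℕ), 1 ≤ ℓ ∧ 3 ≤ K ∧
    ∀ (x : List Bool) (θ : ℕ → Blk ℓ) (t : ℕ) (b : Bool), Hist Φ (uw a₀ a₁ a₂ a₃ K x) θ →
    (∀ s ≤ t, ∀ r, ((gostep G x)^[s] (0, (fun _ => 0, 0))).2.1 r ≤ 2 ^ (C * (x.length + 1))) →
    G[((gostep G x)^[t] (0, (fun _ => 0, 0))).1]? = some (.halt b) →
    ((∃ j, ac (θ j) = true) ↔ b = true)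

/-- GO: the goto program of a search function (from the proof of `TMS.search`). -/
def S_GO : Prop := ∀ (F : List Bool → ℕ → ℕ) (B0 : ℕ → ℕ),
  LSC (fun (_ : Unit) (M : ℕ) => M) F → (∀ x : List Bool, ∃ M ≤ B0 x.length, F x M ≠ 0) →
  ∃ (G : List Ins) (m C : ℕ), Reg1 m G ∧ ∀ x : List Bool, ∃ (t : ℕ) (b : Bool),
    (∀ s ≤ t, ∀ r, ((gostep G x)^[s] (0, (fun _ => 0, 0))).2.1 r ≤ (B0 x.length + 2) ^ C) ∧
    G[((gostep G x)^[t] (0, (fun _ => 0, 0))).1]? = some (.halt b) ∧
    (b = true ↔ ∃ M, F x M = 1 ∧ ∀ M' < M, F x M' = 0)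

/-! ## The final part -/

/-- FA1: the search number of `FR`.  `rp 1 1 n = n` by `S_R1`, so by B4
`glen 1 1 x M ≤ log₂ M ↔ |x| ≤ log₂ M`; for `|x| ≥ 1` this is `2 ^ |x| ≤ M`. -/
def S_FA1 : Prop := S_R1 → S_B4 → (∀ x : List Bool, FR x (2 ^ x.length) ≠ 0) ∧
  ∀ x : List Bool, 1 ≤ x.length → ∀ M < 2 ^ x.length, FR x M = 0

/-- FB1: the reduction.  GO for `FR` (LE) with `B0 n = 2 ^ n` gives a goto program with registers
at most `(2 ^ n + 2) ^ C ≤ 2 ^ (2 C (n + 1))`; QG, RD and RC give the expression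
`R = Rx Φ ac (uw a₀ a₁ a₂ a₃ K x)`, TA and TB the code `q, T`, and TC the length. -/
def S_FB1 : Prop := LSC (fun (_ : Unit) (M : ℕ) => M) (fun x M => FR x M) →
  (∀ x : List Bool, FR x (2 ^ x.length) ≠ 0) → S_GO →
  (∀ (m : ℕ) (G : List Ins) (C : ℕ),
  Reg1 m G → ∃ (ℓ : ℕ) (Φ : Blk ℓ → Blk ℓ → Blk ℓ → Blk ℓ) (ac : Blk ℓ → Bool)
    (a₀ a₁ a₂ a₃ : Blk ℓ) (K : ℕ), 1 ≤ ℓ ∧ 3 ≤ K ∧
    ∀ (x : List Bool) (θ : ℕ → Blk ℓ) (t : ℕ) (b : Bool), Hist Φ (uw a₀ a₁ a₂ a₃ K x) θ →
    (∀ s ≤ t, ∀ r, ((gostep G x)^[s] (0, (fun _ => 0, 0))).2.1 r ≤ 2 ^ (C * (x.length + 1))) →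
    G[((gostep G x)^[t] (0, (fun _ => 0, 0))).1]? = some (.halt b) →
    ((∃ j, ac (θ j) = true) ↔ b = true)) → S_RD →
  (∀ (ℓ : ℕ), 1 ≤ ℓ → ∀ (Φ : Blk ℓ → Blk ℓ → Blk ℓ → Blk ℓ)
    (ac : Blk ℓ → Bool) (u : List (Blk ℓ)), 3 ≤ u.length → ∀ θ : ℕ → Blk ℓ, Hist Φ u θ →
    (NU (Rx Φ ac u) ↔ ∃ j, ac (θ j) = true)) → S_TA →
  (∀ τ : Tmpl, TOk τ → ∃ q T : ℕ, ∀ x : List Bool, vw x x.length q T = ev τ x) → S_TC →
  ∃ q T a b : ℕ, ∀ x : List Bool, ∃ R : RegularExpression Bool,
    code R = vw x x.length q T ∧ (code R).length = a * x.length + b ∧ (NU R ↔ x ∈ LR)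

/-- The conclusion of the diagonal argument. -/
def Diag (q0 T0 : ℕ) : Prop := ∀ d : ℕ, 1 ≤ d → ∀ s : ℕ, ∃ c : ℝ, 0 < c ∧ ∃ n0 : ℕ,
  ∀ A : CA d, Nat.card A.Q ≤ s → ∀ n ≥ n0, ∃ x : List Bool, x.length = n ∧
    ¬ A.AltDecides (vw x n q0 T0) n
      (c * (n : ℝ) ^ (1 + 1 / (d : ℝ)) / Real.log n) (x ∈ LR)

/-- FD1: from the words `x` to the lengths `N` of the expressions.  `K = a + b + 1`, `n = N / K`,
so `a n + b ≤ N` when `n ≥ 1`; `n ≥ N / (2 K)` and `log n ≤ log N`, so
`c n ^ (1 + 1/d) / log n ≥ c (2 K) ^ (-2) N ^ (1 + 1/d) / log N`. -/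
def S_FD1 : Prop := ∀ q T a b : ℕ, (∀ x : List Bool, ∃ R : RegularExpression Bool,
    code R = vw x x.length q T ∧ (code R).length = a * x.length + b ∧ (NU R ↔ x ∈ LR)) →
  Diag q T → ∃ K : ℕ, 1 ≤ K ∧ ∀ d : ℕ, 1 ≤ d → ∀ s : ℕ, ∃ c : ℝ, 0 < c ∧ ∃ n0 : ℕ,
    ∀ A : CA d, Nat.card A.Q ≤ s → ∀ N ≥ n0, ∃ R : RegularExpression Bool,
      (code R).length ≤ N ∧ ¬ A.AltDecides (code R) (N / K)
        (c * (N : ℝ) ^ (1 + 1 / (d : ℝ)) / Real.log N) (NU R)

end Pool.Agent.Work.MP_71c844_lc.Reg
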