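/-
Block REG (problem MP_71c844_lc): the diagonal argument (after helper58's partB).
Author: helper14.
-/
import Pool.Agent.Work.MP_71c844_lc.Reg.Stmts
import Pool.Agent.Work.MP_71c844_lc.Arr.FBa

set_option autoImplicit false

namespace Pool.Agent.Work.MP_71c844_lc.Reg

open Finset Pool.Agent.Work.MP_71c844_lc.Arr

/-- The diagonal argument. -/
theorem prf_DG2 (H : FA.Facts) (hP5 : S_P5) (hR1 : S_R1) (hGM : S_GM) (hMJ : S_MJ)
    (hWA : S_WA) (hB2 : S_B2) (hB4 : S_B4)
    (hF : (∀ x : List Bool, FR x (2 ^ x.length) ≠ 0) ∧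
      ∀ x : List Bool, 1 ≤ x.length → ∀ M < 2 ^ x.length, FR x M = 0) (q0 T0 : ℕ) :
    Diag q0 T0 := by
  intro d hd s
  have hrp : ∀ n, rp 1 1 n = n := by
    intro n
    apply le_antisymm
    · exact (hR1 1 1 n n le_rfl).2 le_rfl
    · have := (hR1 1 1 n (rp 1 1 n) le_rfl).1 le_rfl
      simpa using this
  rcases Nat.eq_zero_or_pos s with hs0 | hs0
  · -- no array has no states
    refine ⟨1, one_pos, 0, fun A hA => ?_⟩
    have := A.finQ
    have : Nonempty A.Q := ⟨A.enc none none⟩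
    have := Nat.card_pos (α := A.Q)
    omega
  set q : ℕ := 3 * s + 1 with hq
  have hq2 : 2 ≤ q := by omega
  obtain ⟨a, ha1, ha⟩ := H.p1 d q hd hq2
  have hg : ∀ M, bOf d a M ≠ 0 → Good M d q (bOf d a M) := ha a le_rfl
  obtain ⟨c, hc0, n1, hn1⟩ := hP5 d a 1 1 hd ha1 le_rfl le_rfl
  set W : ℕ := d + q + q ^ (q ^ (3 ^ d)) + q ^ 9 + 3 ^ q + a + q0 + T0 + 8 with hW
  refine ⟨c, hc0, max n1 (W + 1), fun A hA n hn => ?_⟩
  have hfin := A.finQ
  have hcard : Nat.card A.sticky.Q ≤ 3 * s := by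
    show Nat.card (A.Q × Option Bool) ≤ 3 * s
    rw [Nat.card_prod]
    have : Nat.card (Option Bool) = 3 := by
      rw [Nat.card_eq_fintype_card]
      rfl
    rw [this, mul_comm]
    exact Nat.mul_le_mul_left 3 hA
  obtain ⟨tb, et, vt, cd, hc, htb, het, hvt⟩ := H.v3 H.d1 d (3 * s) A.sticky hcard
  rw [← hq] at hc htb het hvt
  obtain ⟨aa, haa⟩ : ∃ aa : ℕ → ℕ, aa = fun k => if k = 0 then d else if k = 1 then q
    else if k = 2 then tb else if k = 3 then et else if k = 4 then vt else if k = 5 then a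
    else if k = 6 then q0 else T0 := ⟨_, rfl⟩
  obtain ⟨w, hwl, hw⟩ := hB2 aa
  have hwW : w.length ≤ W := by
    rw [hwl, haa]
    simp only [Finset.sum_range_succ, Finset.sum_range_zero]
    norm_num
    omega
  have hnn1 : n1 ≤ n := le_trans (le_max_left _ _) hn
  have hnW : W + 1 ≤ n := le_trans (le_max_right _ _) hn
  have hn11 : 1 ≤ n := by omega
  obtain ⟨x, hxd⟩ : ∃ x, x = w ++ List.replicate (n - w.length) false := ⟨_, rfl⟩
  have hx : x.length = n := by
    rw [hxd, List.length_append, List.length_replicate]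
    omega
  refine ⟨x, hx, ?_⟩
  have hfld : ∀ n' ≥ n, ∀ k < 8, fld x n' k = aa k := fun n' hn' k hk => by
    rw [hxd]
    exact hw _ n' (le_trans hwW (by omega)) k hk
  rw [haa] at hfld
  obtain ⟨hb, htime⟩ := hn1 n hnn1
  rw [hrp] at hb htime
  rintro ⟨hall, hiff⟩
  set M : ℕ := 2 ^ n with hM
  have hM0 : M ≠ 0 := by positivity
  have hlog : Nat.log 2 M = n := Nat.log_pow (by norm_num) _
  have hf := hfld n le_rfl
  have e0' := hf 0 (by norm_num)
  have e1' := hf 1 (by norm_num)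
  have e2' := hf 2 (by norm_num)
  have e3' := hf 3 (by norm_num)
  have e4' := hf 4 (by norm_num)
  have e5' := hf 5 (by norm_num)
  have e6' := hf 6 (by norm_num)
  have e7' := hf 7 (by norm_num)
  norm_num at e0' e1' e2' e3' e4' e5' e6' e7'
  have h14 := hF.1 x
  have h15 := hF.2 x (by omega)
  rw [hx, ← hM] at h14 h15
  have hmem : x ∈ LR ↔ FR x M = 1 := by
    constructor
    · rintro ⟨M', h16, h17⟩
      rcases lt_trichotomy M' M with hl | hl | hl
      · rw [h15 M' hl] at h16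
        exact absurd h16 (by norm_num)
      · rw [← hl]; exact h16
      · exact absurd (h17 M hl) h14
    · intro h16
      exact ⟨M, h16, h15⟩
  have hgl : glen 1 1 x M ≤ Nat.log 2 M :=
    (hB4 1 1 x M le_rfl).1.2 (by rw [hx, hlog, hrp])
  have hgl' : glen 1 1 x M = n := by rw [(hB4 1 1 x M le_rfl).2 hgl, hx, hrp]
  have hvx : vx x M = vw x n q0 T0 := by
    unfold vx
    rw [hgl', hlog, e6', e7']
  obtain ⟨v, hv⟩ : ∃ v, v = vw x n q0 T0 := ⟨_, rfl⟩
  rw [← hv] at hall hiff hvx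
  have hexp : (((1 : ℕ) : ℝ) / ((1 : ℕ) : ℝ) * (1 + 1 / (d : ℝ))) = 1 + 1 / (d : ℝ) := by
    norm_num
  rw [hexp] at htime
  have hver : ∀ Y < 2 ^ n, ∀ Z < 2 ^ n,
      verN v (2 * n) (Y * 2 ^ n + Z) M d q tb et vt a ≠ 0 := by
    intro Y _ Z _
    obtain ⟨t, u, ht, hu⟩ := hall (wd (2 * n) (Y * 2 ^ n + Z)) (FA.wd_length _ _)
    have hts : t ≤ FA.tim d a M := by
      have := le_trans ht htime
      exact_mod_cast this
    rw [FA.ver_of H hd A q tb et vt a cd hc hg v (2 * n) (Y * 2 ^ n + Z) M hb hu hts]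
    exact FA.vcode_some_ne u
  have h6 := FA.game_ver H hGM hMJ hWA hd A q tb et vt a cd hc hg v n M hM0 hlog.ge hver
  have h20 : FR x M = if gameN (2 * M) n (fun Y => mj M n (fun Z =>
      if verN v (2 * n) (Y * pc M 2 n + Z) M d q tb et vt a = 1
        then 1 else 0)) = 1 then 2 else 1 := by
    unfold FR
    rw [if_pos hgl, hgl', hvx, hlog, e0', e1', e2', e3', e4', e5']
  rw [← h6, hmem, h20] at hiff
  by_cases h21 : gameN (2 * M) n (fun Y => mj M n (fun Z =>
      if verN v (2 * n) (Y * pc M 2 n + Z) M d q tb et vt a = 1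
        then 1 else 0)) = 1
  · rw [if_pos h21] at hiff
    have := hiff.2 h21
    norm_num at this
  · rw [if_neg h21] at hiff
    exact h21 (hiff.1 rfl)

end Pool.Agent.Work.MP_71c844_lc.Reg
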