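/-
Block REG (problem MP_71c844_lc): item FA1, the search number of `FR`.  Author: helper67.
-/
import Pool.Agent.Work.MP_71c844_lc.Reg.Stmts

set_option autoImplicit false

namespace Pool.Agent.Work.MP_71c844_lc.Reg

open Finset Pool.Agent.Work.MP_71c844_lc.Arr

namespace FA1

theorem rp_one (h1 : S_R1) (n : ℕ) : rp 1 1 n = n := by
  apply le_antisymm
  · exact (h1 1 1 n n le_rfl).2 le_rfl
  · have h := (h1 1 1 n (rp 1 1 n) le_rfl).1 le_rfl
    simpa using h

end FA1

theorem prf_FA1 : S_FA1 := by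
  intro h1 h4
  constructor
  · intro x
    unfold FR
    have h2 : glen 1 1 x (2 ^ x.length) ≤ Nat.log 2 (2 ^ x.length) :=
      (h4 1 1 x _ le_rfl).1.2 (by rw [FA1.rp_one h1, Nat.log_pow (by norm_num)])
    rw [if_pos h2]
    split_ifs <;> norm_num
  · intro x hx M hM
    unfold FR
    have h2 : ¬ glen 1 1 x M ≤ Nat.log 2 M := by
      intro h
      have h5 := (h4 1 1 x M le_rfl).1.1 h
      rw [FA1.rp_one h1] at h5
      have h3 : Nat.log 2 M < x.length := Nat.log_lt_of_lt_pow' (by omega) hM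
      omega
    rw [if_neg h2]

end Pool.Agent.Work.MP_71c844_lc.Reg
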