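/-
Block REG (problem MP_71c844_lc), item FB1: the reduction.
Author: helper20.
-/
import Pool.Agent.Work.MP_71c844_lc.Reg.Stmts

set_option autoImplicit false

namespace Pool.Agent.Work.MP_71c844_lc.Reg

open Finset Pool.Agent.Work.MP_71c844_lc.Arr

namespace FB1

/-- The length of the first word. -/
lemma uw_length {Θ : Type} (c₀ c₁ c₂ c₃ : Θ) (K : ℕ) (hK : 1 ≤ K) (x : List Bool) :
    (uw c₀ c₁ c₂ c₃ K x).length = K * (x.length + 1) := by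
  obtain ⟨k, rfl⟩ : ∃ k, K = k + 1 := ⟨K - 1, by omega⟩
  simp only [uw, List.length_cons, List.length_append, List.length_map, List.length_replicate,
    Nat.add_sub_cancel]
  ring

/-- The registers of the goto program. -/
lemma two_pow_add_two_pow_le (n C : ℕ) : (2 ^ n + 2) ^ C ≤ 2 ^ (2 * C * (n + 1)) := by
  have h1 : 2 ^ n + 2 ≤ 2 ^ (2 * (n + 1)) := by
    have h2 : 2 ^ (2 * (n + 1)) = 2 ^ n * (2 ^ n * 4) := by
      rw [show 2 * (n + 1) = n + (n + 2) by ring, pow_add, pow_add]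
      norm_num
    have h3 : 1 ≤ 2 ^ n := Nat.one_le_two_pow
    rw [h2]
    nlinarith
  calc (2 ^ n + 2) ^ C ≤ (2 ^ (2 * (n + 1))) ^ C := Nat.pow_le_pow_left h1 C
    _ = 2 ^ (2 * C * (n + 1)) := by rw [← pow_mul]; ring_nf

end FB1

/-- The reduction. -/
theorem prf_FB1 : S_FB1 := by
  intro hLS hW hGO hQG hRD hRC hTA hTB hTC
  obtain ⟨G, m, C, hReg, hG⟩ := hGO FR (fun n => 2 ^ n) hLS
    (fun x => ⟨2 ^ x.length, le_refl _, hW x⟩)
  obtain ⟨ℓ, Φ, ac, a₀, a₁, a₂, a₃, K, hℓ, hK, hQ⟩ := hQG m G (2 * C) hReg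
  obtain ⟨τ, hτ, hev⟩ := hTA ℓ Φ ac a₀ a₁ a₂ a₃ K hK
  obtain ⟨q, T, hqT⟩ := hTB τ hτ
  obtain ⟨a, b, hab⟩ := hTC.2 τ hτ
  refine ⟨q, T, a, b, fun x => ⟨Rx Φ ac (uw a₀ a₁ a₂ a₃ K x), ?_, ?_, ?_⟩⟩
  · rw [hqT x]
    exact hev x
  · rw [← hab x]
    exact congrArg List.length (hev x)
  · have hlen : 3 ≤ (uw a₀ a₁ a₂ a₃ K x).length := by
      rw [FB1.uw_length a₀ a₁ a₂ a₃ K (by omega) x]
      nlinarith [Nat.zero_le x.length]
    obtain ⟨θ, hθ⟩ := hRD Φ (uw a₀ a₁ a₂ a₃ K x) (by omega)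
    obtain ⟨t, c, hreg, hhalt, hc⟩ := hG x
    rw [hRC ℓ hℓ Φ ac _ hlen θ hθ,
      hQ x θ t c hθ (fun s hs r => (hreg s hs r).trans
        (FB1.two_pow_add_two_pow_le x.length C)) hhalt, hc]
    exact Iff.rfl

end Pool.Agent.Work.MP_71c844_lc.Reg
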