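/-
Block REG (problem MP_71c844_lc), item GO: the goto program of a search function.
Author: helper14.
-/
import Pool.Agent.Work.MP_71c844_lc.Reg.Stmts
import Pool.Agent.Work.MP_71c844_lc.Arr.Search

set_option autoImplicit false

namespace Pool.Agent.Work.MP_71c844_lc.Reg

open Finset Pool.Agent.Work.MP_71c844_lc.Arr

open TMS in
theorem prf_GO : S_GO := by
  intro F B0 hF hB0
  obtain ⟨C, hFC, hprog⟩ := hF
  obtain ⟨P, hP⟩ := hprog (fun _ => 0) 1 2 (fun _ => by omega) (by omega) (fun _ => by omega)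
  obtain ⟨m0, hm0⟩ := exists_Plt P
  set h := m0 + 2 with hh
  obtain ⟨m, hm2, hm⟩ := mainG_lt h P
  have hst : ∀ x M, run P x (st0 M) = Function.update (st0 M) 1 (F x M) ∧
      ∀ B, M ≤ B → Bd ((B + 2) ^ C) P x (st0 M) := by
    intro x M
    obtain ⟨h1, h2⟩ := hP x M (st0 M) (fun _ => by simp [st0]) (by simp [st0]) (fun j hj => by
      unfold st0
      rw [Function.update_of_ne (by omega)])
    exact ⟨h1, fun B hB => h2 B (fun _ => hB)⟩
  refine ⟨mainG h P, m, C + 1, hm, fun x => ?_⟩
  classical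
  have hex : ∃ M, F x M ≠ 0 := by
    obtain ⟨M, _, hM⟩ := hB0 x
    exact ⟨M, hM⟩
  set N := Nat.find hex with hN
  have hN1 : F x N ≠ 0 := Nat.find_spec hex
  have hN2 : ∀ M < N, F x M = 0 := by
    intro M hM
    have := Nat.find_min hex hM
    simpa using this
  have hNB0 : N ≤ B0 x.length := by
    obtain ⟨M, hM, hM'⟩ := hB0 x
    exact (Nat.find_min' hex hM').trans hM
  set B := (B0 x.length + 2) ^ (C + 1) with hB
  have hB1 : (B0 x.length + 2) ^ C ≤ B := Nat.pow_le_pow_right (by omega) (by omega)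
  have hB2 : B0 x.length + 2 ≤ B := by
    calc B0 x.length + 2 = (B0 x.length + 2) ^ 1 := (pow_one _).symm
      _ ≤ B := Nat.pow_le_pow_right (by omega) (by omega)
  obtain ⟨t, ht1, ht2⟩ := halt_run (B := B) (x := x) hm0 (show m0 ≤ h by omega)
    (show 2 ≤ h by omega) (F x) (fun M => (hst x M).1) N
    (fun M hM => ((hst x M).2 (B0 x.length) (by omega)).mono hB1) (by omega) hN1
    ((hFC x N (B0 x.length) (fun _ => hNB0)).trans hB1) hN2
  refine ⟨t, _, ht1, ht2, ?_⟩
  rw [decide_eq_true_iff]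
  constructor
  · intro h1
    exact ⟨N, h1, hN2⟩
  · rintro ⟨M, hM1, hM2⟩
    have : N = M := by
      apply le_antisymm
      · exact Nat.find_min' hex (by rw [hM1]; exact one_ne_zero)
      · by_contra hlt
        push Not at hlt
        exact hN1 (hM2 N hlt)
    rw [this]
    exact hM1

end Pool.Agent.Work.MP_71c844_lc.Reg
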