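/-
Block REG (problem MP_71c844_lc): item LA, substitution of a computed word in a loop program.
Author: helper56.
-/
import Pool.Agent.Work.MP_71c844_lc.Reg.Stmts
import Pool.Agent.Work.MP_71c844_lc.Arr.ProgCP
import Pool.Agent.Work.MP_71c844_lc.Arr.LLet

set_option autoImplicit false

namespace Pool.Agent.Work.MP_71c844_lc.Reg

open Finset Pool.Agent.Work.MP_71c844_lc.Arr

namespace LA

/-- The program with every letter instruction replaced by the letter program `L r`, which writes
the letter number `r` of another word to the register `o'`. -/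
def sub (L : ℕ → Prog) (o' : ℕ) : Prog → Prog
  | .skip => .skip
  | .inc r => .inc r
  | .dec r => .dec r
  | .inp r t => .seq (L r) (.seq (Prog.addTo o' t) (Prog.clear o'))
  | .seq P Q => .seq (sub L o' P) (sub L o' Q)
  | .loop r P => .loop r (sub L o' P)

section sub

variable {x w : List Bool} {L : ℕ → Prog} {m o' : ℕ} {G : Reg → Prop}

theorem run_sub (hm : m ≤ o') (hG0 : ∀ σ, G σ → σ o' = 0)
    (hG1 : ∀ σ τ : Reg, G σ → (∀ j, m ≤ j → τ j = σ j) → G τ)
    (hL : ∀ r < m, ∀ σ, G σ → run (L r) x σ = Function.update σ o' (inpv w (σ r))) :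
    ∀ {Q : Prog}, TMS.Plt m Q → ∀ σ, G σ → run (sub L o' Q) x σ = run Q w σ
  | .skip, _, _, _ => rfl
  | .inc _, _, _, _ => rfl
  | .dec _, _, _, _ => rfl
  | .inp r t, hQ, σ, hσ => by
    have hr : r < m := hQ.1
    have ht : t < m := hQ.2
    have hto : t ≠ o' := by omega
    simp only [sub, run]
    rw [hL r hr σ hσ, run_addTo, run_clear, Function.update_of_ne hto, Function.update_self]
    funext j
    by_cases hj : j = o'
    · subst hj
      rw [Function.update_self, Function.update_of_ne hto.symm, hG0 σ hσ]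
    · rw [Function.update_of_ne hj]
      by_cases hj2 : j = t
      · subst hj2
        rw [Function.update_self, Function.update_self]
      · rw [Function.update_of_ne hj2, Function.update_of_ne hj, Function.update_of_ne hj2]
  | .seq P Q, hQ, σ, hσ => by
    simp only [sub, run]
    rw [run_sub hm hG0 hG1 hL hQ.1 σ hσ]
    exact run_sub hm hG0 hG1 hL hQ.2 _ (hG1 σ _ hσ (fun j hj => TMS.run_ge w hQ.1 σ hj))
  | .loop r P, hQ, σ, hσ => by
    simp only [sub, run]
    have key : ∀ n (σ : Reg), G σ → (run (sub L o' P) x)^[n] σ = (run P w)^[n] σ := by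
      intro n
      induction n with
      | zero => intro σ _; rfl
      | succ n ih =>
        intro σ hσ
        rw [Function.iterate_succ_apply, Function.iterate_succ_apply,
          run_sub hm hG0 hG1 hL hQ.2 σ hσ]
        exact ih _ (hG1 σ _ hσ (fun j hj => TMS.run_ge w hQ.2 σ hj))
    exact key _ σ hσ

theorem iter_sub (hm : m ≤ o') (hG0 : ∀ σ, G σ → σ o' = 0)
    (hG1 : ∀ σ τ : Reg, G σ → (∀ j, m ≤ j → τ j = σ j) → G τ)
    (hL : ∀ r < m, ∀ σ, G σ → run (L r) x σ = Function.update σ o' (inpv w (σ r)))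
    {P : Prog} (hP : TMS.Plt m P) (n : ℕ) (σ : Reg) (hσ : G σ) :
    (run (sub L o' P) x)^[n] σ = (run P w)^[n] σ := by
  induction n generalizing σ with
  | zero => rfl
  | succ n ih =>
    rw [Function.iterate_succ_apply, Function.iterate_succ_apply,
      run_sub hm hG0 hG1 hL hP σ hσ]
    exact ih _ (hG1 σ _ hσ (fun j hj => TMS.run_ge w hP σ hj))

theorem Bd_sub {Bf Bb : ℕ} (hm : m ≤ o') (hG0 : ∀ σ, G σ → σ o' = 0)
    (hG1 : ∀ σ τ : Reg, G σ → (∀ j, m ≤ j → τ j = σ j) → G τ)
    (hL : ∀ r < m, ∀ σ, G σ → run (L r) x σ = Function.update σ o' (inpv w (σ r)))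
    (hB : Bf ≤ Bb) (h2 : 2 ≤ Bb)
    (hb : ∀ r < m, ∀ σ : Reg, G σ → σ r ≤ Bf → Bd Bb (L r) x σ) :
    ∀ {Q : Prog}, TMS.Plt m Q → ∀ σ, G σ → Bd Bf Q w σ → Bd Bb (sub L o' Q) x σ
  | .skip, _, _, _, _ => trivial
  | .inc _, _, _, _, h => le_trans h hB
  | .dec _, _, _, _, h => le_trans h hB
  | .inp r t, hQ, σ, hσ, h => by
    have hr : r < m := hQ.1
    have ht : t < m := hQ.2
    have hto : t ≠ o' := by omega
    have hle := inpv_le w (σ r)
    have h1 : σ r ≤ Bf := h.1
    have h3 : σ t + 2 ≤ Bf := h.2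
    refine ⟨hb r hr σ hσ h1, ?_⟩
    rw [hL r hr σ hσ]
    refine ⟨Bd_addTo _ _ _ _ ?_, ?_⟩
    · rw [Function.update_of_ne hto, Function.update_self]
      omega
    · rw [run_addTo]
      refine Bd_clear _ _ _ ?_
      rw [Function.update_of_ne hto.symm, Function.update_self]
      omega
  | .seq P Q, hQ, σ, hσ, h => by
    refine ⟨Bd_sub hm hG0 hG1 hL hB h2 hb hQ.1 σ hσ h.1, ?_⟩
    rw [run_sub hm hG0 hG1 hL hQ.1 σ hσ]
    exact Bd_sub hm hG0 hG1 hL hB h2 hb hQ.2 _
      (hG1 σ _ hσ (fun j hj => TMS.run_ge w hQ.1 σ hj)) h.2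
  | .loop r P, hQ, σ, hσ, h => by
    refine ⟨le_trans h.1 hB, fun j hj => ?_⟩
    rw [iter_sub hm hG0 hG1 hL hQ.2 j σ hσ]
    exact Bd_sub hm hG0 hG1 hL hB h2 hb hQ.2 _
      (hG1 σ _ hσ (fun i hi => TMS.iter_ge w hQ.2 j σ hi)) (h.2 j hj)

end sub

section copies

variable {ι : Type} (a c : ι → ℕ) (v : ι → ℕ)

/-- Copy the registers `a i` to the registers `c i`. -/
def cp : List ι → Prog
  | [] => .skip
  | i :: l => .seq (cp l) (Prog.addTo (a i) (c i))

/-- Clear the registers `c i`. -/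
def cl : List ι → Prog
  | [] => .skip
  | i :: l => .seq (Prog.clear (c i)) (cl l)

/-- The registers with the numbers `v i` in the registers `c i`. -/
def upd : List ι → Reg → Reg
  | [], σ => σ
  | i :: l, σ => Function.update (upd l σ) (c i) (v i)

variable {a c v}

theorem upd_ne {j : ℕ} (σ : Reg) : ∀ (l : List ι), (∀ i ∈ l, c i ≠ j) → upd c v l σ j = σ j
  | [], _ => rfl
  | i :: l, h => by
    have h1 : c i ≠ j := h i (List.mem_cons_self ..)
    simp only [upd]
    rw [Function.update_of_ne h1.symm]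
    exact upd_ne σ l (fun i' hi' => h i' (List.mem_cons_of_mem _ hi'))

theorem upd_mem (hc : Function.Injective c) (σ : Reg) {i : ι} : ∀ (l : List ι), i ∈ l →
    upd c v l σ (c i) = v i
  | [], h => absurd h List.not_mem_nil
  | i' :: l, h => by
    simp only [upd]
    by_cases h1 : i = i'
    · subst h1
      rw [Function.update_self]
    · rw [Function.update_of_ne (fun h2 => h1 (hc h2))]
      exact upd_mem hc σ l ((List.mem_cons.1 h).resolve_left h1)

theorem run_cp (hc : Function.Injective c) (x : List Bool) (σ : Reg)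
    (hac : ∀ i j, a i ≠ c j) (ha : ∀ i, σ (a i) = v i) (h0 : ∀ i, σ (c i) = 0) :
    ∀ (l : List ι), l.Nodup → run (cp a c l) x σ = upd c v l σ ∧
      ∀ B, (∀ i, v i ≤ B) → Bd B (cp a c l) x σ
  | [], _ => ⟨rfl, fun _ _ => trivial⟩
  | i :: l, h => by
    have h1 := List.nodup_cons.1 h
    obtain ⟨ih1, ih2⟩ := run_cp hc x σ hac ha h0 l h1.2
    have e1 : upd c v l σ (c i) = 0 := by
      rw [upd_ne σ l, h0]
      intro i' hi' h2
      exact h1.1 (hc h2 ▸ hi')
    have e2 : upd c v l σ (a i) = v i := by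
      rw [upd_ne σ l, ha]
      intro i' _ h2
      exact hac i i' h2.symm
    refine ⟨?_, fun B hB => ⟨ih2 B hB, ?_⟩⟩
    · simp only [cp, run, upd]
      rw [ih1, run_addTo, e1, e2, zero_add]
    · rw [ih1]
      refine Bd_addTo _ _ _ _ ?_
      rw [e1, e2, zero_add]
      exact hB i

theorem run_cl (hc : Function.Injective c) (x : List Bool) (σ : Reg)
    (h0 : ∀ i, σ (c i) = 0) :
    ∀ (l : List ι), l.Nodup → run (cl c l) x (upd c v l σ) = σ ∧
      ∀ B, (∀ i, v i ≤ B) → Bd B (cl c l) x (upd c v l σ)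
  | [], _ => ⟨rfl, fun _ _ => trivial⟩
  | i :: l, h => by
    have h1 := List.nodup_cons.1 h
    obtain ⟨ih1, ih2⟩ := run_cl hc x σ h0 l h1.2
    have e1 : upd c v l σ (c i) = 0 := by
      rw [upd_ne σ l, h0]
      intro i' hi' h2
      exact h1.1 (hc h2 ▸ hi')
    have e2 : run (Prog.clear (c i)) x (upd c v (i :: l) σ) = upd c v l σ := by
      rw [run_clear]
      simp only [upd]
      rw [Function.update_idem, ← e1, Function.update_eq_self]
    refine ⟨?_, fun B hB => ⟨Bd_clear _ _ _ ?_, ?_⟩⟩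
    · simp only [cl, run]
      rw [e2, ih1]
    · simp only [upd]
      rw [Function.update_self]
      exact hB i
    · rw [e2]
      exact ih2 B hB

theorem run_upd {m : ℕ} (hm : ∀ i, m ≤ c i) (w : List Bool) {P : Prog} (hP : TMS.Plt m P)
    (σ : Reg) : ∀ (l : List ι), run P w (upd c v l σ) = upd c v l (run P w σ)
  | [] => rfl
  | i :: l => by
    simp only [upd]
    rw [TMS.run_update (hm i) w hP, run_upd hm w hP σ l]

theorem Bd_upd {m B : ℕ} (hm : ∀ i, m ≤ c i) (w : List Bool) {P : Prog} (hP : TMS.Plt m P)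
    (σ : Reg) (h : Bd B P w σ) : ∀ (l : List ι), Bd B P w (upd c v l σ)
  | [] => h
  | i :: l => TMS.Bd_update (hm i) w hP _ (Bd_upd hm w hP σ h l)

end copies

end LA

open LA in
/-- The class of functions computed by loop programs is closed under substitution of a computed
word for the input word. -/
theorem prf_LA : S_LA := by
  intro ι Γ hfin co f W hf hg
  obtain ⟨Cf, hf1, hf2⟩ := hf
  obtain ⟨Cg, hg1, hg2⟩ := hg
  obtain ⟨k, ⟨e⟩⟩ := Finite.exists_equiv_fin ι
  refine ⟨(Cf + 2) * (Cg + 1), ?_, ?_⟩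
  · intro x γ B hB
    refine (hf1 (W x γ) γ B hB).trans (pow_two_le_pow ?_)
    calc Cf ≤ (Cf + 2) * 1 := by omega
      _ ≤ (Cf + 2) * (Cg + 1) := Nat.mul_le_mul_left _ (by omega)
  intro a o s ha ho hao
  obtain ⟨P, hP⟩ := hf2 a o s ha ho hao
  obtain ⟨m0, hm0⟩ := TMS.exists_Plt P
  obtain ⟨m, hm, hsm⟩ : ∃ m, TMS.Plt m P ∧ s ≤ m :=
    ⟨m0 + s, hm0.mono (by omega), by omega⟩
  set c : ι → ℕ := fun i => m + (e i).val with hcdef
  have hc : Function.Injective c := by
    intro i j hij
    have h1 : (e i).val = (e j).val := by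
      have : m + (e i).val = m + (e j).val := hij
      omega
    exact e.injective (Fin.ext h1)
  have hcm : ∀ i, m ≤ c i := fun i => Nat.le_add_right _ _
  have hco : ∀ i, c i < m + k := fun i => by
    have := (e i).isLt
    show m + (e i).val < m + k
    omega
  have hLex : ∀ r, ∃ R : Prog, r < m → Comp Cg (ext co) (fun x γ => inpv (W x γ.1) γ.2)
      (fun i => match i with | none => r | some i => c i) (m + k) (m + k + 1) R := by
    intro r
    by_cases hr : r < m
    · obtain ⟨R, hR⟩ := hg2 (fun i => match i with | none => r | some i => c i) (m + k)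
        (m + k + 1)
        (fun i => by
          cases i with
          | none => show r < m + k + 1; omega
          | some i => have := hco i; show c i < m + k + 1; omega)
        (by omega)
        (fun i => by
          cases i with
          | none => show r ≠ m + k; omega
          | some i => have := hco i; show c i ≠ m + k; omega)
      exact ⟨R, fun _ => hR⟩
    · exact ⟨.skip, fun h => absurd h hr⟩
  choose L hL using hLex
  set l : List ι := (List.finRange k).map e.symm with hl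
  have hnd : l.Nodup := (List.nodup_finRange k).map e.symm.injective
  have hmem : ∀ i, i ∈ l := fun i =>
    List.mem_map.2 ⟨e i, List.mem_finRange _, e.symm_apply_apply i⟩
  refine ⟨.seq (cp a c l) (.seq (sub L (m + k) P) (cl c l)), ?_⟩
  intro x γ σ h1 h2 h3
  obtain ⟨p1, p2⟩ := hP (W x γ) γ σ h1 h2 h3
  have hac : ∀ i j, a i ≠ c j := fun i j => by
    have := ha i
    have := hcm j
    omega
  have hσc : ∀ i, σ (c i) = 0 := fun i => h3 _ (by have := hcm i; omega)
  obtain ⟨q1, q2⟩ := run_cp (v := fun i => co i γ) hc x σ hac h1 hσc l hnd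
  have hσo : ∀ i, Function.update σ o (f (W x γ) γ) (c i) = 0 := fun i => by
    rw [Function.update_of_ne (by have := hcm i; omega), hσc]
  obtain ⟨t1, t2⟩ := run_cl (v := fun i => co i γ) hc x (Function.update σ o (f (W x γ) γ))
    hσo l hnd
  -- good states
  set G : Reg → Prop := fun τ => (∀ i, τ (c i) = co i γ) ∧ ∀ j, m + k ≤ j → τ j = 0 with hG
  have hG0 : ∀ τ, G τ → τ (m + k) = 0 := fun τ h => h.2 _ le_rfl
  have hG1 : ∀ τ τ' : Reg, G τ → (∀ j, m ≤ j → τ' j = τ j) → G τ' := fun τ τ' h h' =>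
    ⟨fun i => (h' _ (hcm i)).trans (h.1 i), fun j hj => (h' j (by omega)).trans (h.2 j hj)⟩
  have hGu : G (upd c (fun i => co i γ) l σ) := by
    refine ⟨fun i => upd_mem hc σ l (hmem i), fun j hj => ?_⟩
    rw [upd_ne σ l (fun i _ => by have := hco i; omega)]
    exact h3 j (by omega)
  have hLc : ∀ r < m, ∀ τ : Reg, G τ →
      run (L r) x τ = Function.update τ (m + k) (inpv (W x γ) (τ r)) ∧
      ∀ B, (∀ i, ext co i (γ, τ r) ≤ B) → Bd ((B + 2) ^ Cg) (L r) x τ := by
    intro r hr τ hτ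
    exact hL r hr x (γ, τ r) τ
      (fun i => by
        cases i with
        | none => rfl
        | some i => exact hτ.1 i)
      (hG0 τ hτ) (fun j hj => hτ.2 j (by omega))
  have hLr : ∀ r < m, ∀ τ : Reg, G τ →
      run (L r) x τ = Function.update τ (m + k) (inpv (W x γ) (τ r)) :=
    fun r hr τ hτ => (hLc r hr τ hτ).1
  have hrs : run (sub L (m + k) P) x (upd c (fun i => co i γ) l σ) =
      upd c (fun i => co i γ) l (Function.update σ o (f (W x γ) γ)) := by
    rw [run_sub (by omega) hG0 hG1 hLr hm _ hGu, run_upd hcm (W x γ) hm σ l, p1]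
  refine ⟨?_, ?_⟩
  · simp only [run]
    rw [q1, hrs, t1]
  · intro B hB
    have hBB : B ≤ (B + 2) ^ ((Cf + 2) * (Cg + 1)) := by
      calc B ≤ (B + 2) ^ 1 := by rw [pow_one]; omega
        _ ≤ _ := pow_two_le_pow (Nat.mul_pos (by omega) (by omega))
    have h22 : 2 ≤ (B + 2) ^ ((Cf + 2) * (Cg + 1)) := by
      calc 2 ≤ (B + 2) ^ 1 := by rw [pow_one]; omega
        _ ≤ _ := pow_two_le_pow (Nat.mul_pos (by omega) (by omega))
    have hfb : (B + 2) ^ Cf ≤ (B + 2) ^ ((Cf + 2) * (Cg + 1)) := by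
      refine pow_two_le_pow ?_
      calc Cf ≤ (Cf + 2) * 1 := by omega
        _ ≤ (Cf + 2) * (Cg + 1) := Nat.mul_le_mul_left _ (by omega)
    refine ⟨(q2 B hB).mono hBB, ?_⟩
    rw [q1]
    refine ⟨?_, ?_⟩
    · refine Bd_sub (Bf := (B + 2) ^ Cf) (by omega) hG0 hG1 hLr hfb h22 ?_ hm _ hGu
        (Bd_upd hcm (W x γ) hm σ (p2 B hB) l)
      intro r hr τ hτ hτr
      have h5 : ∀ i, ext co i (γ, τ r) ≤ max B ((B + 2) ^ Cf) := by
        intro i
        cases i with
        | none => exact le_max_of_le_right hτr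
        | some i => exact le_max_of_le_left (hB i)
      refine ((hLc r hr τ hτ).2 _ h5).mono ?_
      calc (max B ((B + 2) ^ Cf) + 2) ^ Cg ≤ ((B + 2) ^ (Cf + 2)) ^ Cg :=
            Nat.pow_le_pow_left (LLet.add_two_le (LLet.max_le le_rfl)) _
        _ = (B + 2) ^ ((Cf + 2) * Cg) := (pow_mul _ _ _).symm
        _ ≤ _ := pow_two_le_pow (Nat.mul_le_mul_left _ (by omega))
    · rw [hrs]
      exact (t2 B hB).mono hBB

end Pool.Agent.Work.MP_71c844_lc.Reg
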