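/-
Block REG (problem MP_71c844_lc), item LB: composition for the class `LSC`.
Author: helper13.
-/
import Pool.Agent.Work.MP_71c844_lc.Reg.Stmts

set_option autoImplicit false

namespace Pool.Agent.Work.MP_71c844_lc.Reg

open Finset Pool.Agent.Work.MP_71c844_lc.Arr

namespace LB

/-- Composition with further variables. -/
theorem gen (hR : LSR1) : ∀ (k : ℕ) {ι Γ : Type} (co : ι → Γ → ℕ)
    (F : List Bool → Γ → (Fin k → ℕ) → ℕ),
    LSC (fun (i : ι ⊕ Fin k) (γ : Γ × (Fin k → ℕ)) => Sum.elim (fun i => co i γ.1) γ.2 i)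
      (fun x γ => F x γ.1 γ.2) →
    ∀ g : Fin k → List Bool → Γ → ℕ, (∀ i, LSC co (g i)) →
      LSC co (fun x γ => F x γ (fun i => g i x γ)) := by
  intro k
  induction k with
  | zero =>
    intro ι Γ co F hF g _
    have h := hF.reidx (co' := co) (fun γ : Γ => (γ, (Fin.elim0 : Fin 0 → ℕ)))
      (Sum.elim id Fin.elim0) (by
        intro i γ
        rcases i with i | i
        · rfl
        · exact i.elim0)
    refine h.congr ?_
    intro x γ
    show F x γ Fin.elim0 = F x γ (fun i => g i x γ)
    congr 1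
    funext i
    exact i.elim0
  | succ k ih =>
    intro ι Γ co F hF g hg
    have h1 := hF.reidx
      (co' := fun (i : Option ι ⊕ Fin k) (γ : (Γ × ℕ) × (Fin k → ℕ)) =>
        Sum.elim (fun i => ext co i γ.1) γ.2 i)
      (fun γ : (Γ × ℕ) × (Fin k → ℕ) => (γ.1.1, (Fin.cons γ.1.2 γ.2 : Fin (k + 1) → ℕ)))
      (Sum.elim (fun i => Sum.inl (some i))
        (Fin.cons (Sum.inl none) (fun j => Sum.inr j) : Fin (k + 1) → Option ι ⊕ Fin k)) (by
        intro i γ
        rcases i with i | i
        · rfl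
        · induction i using Fin.cases with
          | zero => rfl
          | succ j => rfl)
    have h2 := ih (ext co)
      (fun x (γ : Γ × ℕ) v => F x γ.1 (Fin.cons γ.2 v : Fin (k + 1) → ℕ)) h1
      (fun i x γ => g i.succ x γ.1) (fun i => (hg i.succ).weak)
    have h3 := hR.letr (g := g 0)
      (f := fun x γ y => F x γ (Fin.cons y (fun i => g i.succ x γ) : Fin (k + 1) → ℕ))
      (hg 0) h2
    refine h3.congr ?_
    intro x γ
    show F x γ (Fin.cons (g 0 x γ) (fun i => g i.succ x γ) : Fin (k + 1) → ℕ)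
      = F x γ (fun i => g i x γ)
    congr 1
    funext i
    induction i using Fin.cases with
    | zero => rfl
    | succ j => rfl

end LB

/-- LB. -/
theorem prf_LB : S_LB := by
  intro hR k F hF ι Γ co g hg
  refine LB.gen hR k co (fun x _ v => F x v) ?_ g hg
  exact hF.reidx (fun γ : Γ × (Fin k → ℕ) => γ.2) Sum.inr (fun _ _ => rfl)

end Pool.Agent.Work.MP_71c844_lc.Reg
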