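/-
Block REG (problem MP_71c844_lc): the letters of the coded word.  Author: helper14.
-/
import Pool.Agent.Work.MP_71c844_lc.Reg.Stmts

set_option autoImplicit false

namespace Pool.Agent.Work.MP_71c844_lc.Reg

open Finset Pool.Agent.Work.MP_71c844_lc.Arr

namespace LC2

theorem off_mem (h : LSRules) {ι Γ : Type} {co : ι → Γ → ℕ} {n q T k : List Bool → Γ → ℕ}
    (hn : LSC co n) (hq : LSC co q) (hT : LSC co T) (hk : LSC co k) :
    LSC co (fun x γ => off (n x γ) (q x γ) (T x γ) (k x γ)) := by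
  unfold off
  refine h.sum (F := fun x γ j => dg (q x γ) (5 * j) (T x γ) +
    n x γ * dg (q x γ) (5 * j + 2) (T x γ)) hk ?_
  refine h.add (h.dg hq.weak (h.mul (LSC.const 5) LSC.last) hT.weak)
    (h.mul hn.weak (h.dg hq.weak (h.add (h.mul (LSC.const 5) LSC.last) (LSC.const 2)) hT.weak))

theorem slt_mem (h : LSRules) {ι Γ : Type} {co : ι → Γ → ℕ} {q T k i : List Bool → Γ → ℕ}
    (hq : LSC co q) (hT : LSC co T) (hk : LSC co k) (hi : LSC co i) :
    LSC co (fun x γ => slt x (q x γ) (T x γ) (k x γ) (i x γ)) := by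
  have hd : ∀ c : ℕ, LSC co (fun x γ => dg (q x γ) (5 * k x γ + c) (T x γ)) := fun c =>
    h.dg hq (h.add (h.mul (LSC.const 5) hk) (LSC.const c)) hT
  have hd0 : LSC co (fun x γ => dg (q x γ) (5 * k x γ) (T x γ)) :=
    h.dg hq (h.mul (LSC.const 5) hk) hT
  have hs : LSC co (fun x γ => i x γ - dg (q x γ) (5 * k x γ) (T x γ)) := h.sub hi hd0
  unfold slt
  refine h.ite (P := fun x γ => i x γ < dg (q x γ) (5 * k x γ) (T x γ)) (h.lt hi hd0)
    (h.dg (LSC.const 2) hi (hd 1)) ?_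
  refine h.dg (LSC.const 2) (h.mod hs (hd 2)) ?_
  refine h.ite (P := fun x γ => inpv x ((i x γ - dg (q x γ) (5 * k x γ) (T x γ)) /
    dg (q x γ) (5 * k x γ + 2) (T x γ)) = 1) (h.eq (h.inp (h.div hs (hd 2))) (LSC.const 1))
    (hd 4) (hd 3)

end LC2

open LC2 in
theorem prf_LC2 : S_LC := by
  intro h ι Γ co n q T i hn hq hT hi
  unfold vlt
  refine h.ite (P := fun x γ => i x γ < off (n x γ) (q x γ) (T x γ) (q x γ))
    (h.lt hi (off_mem h hn hq hT hq)) ?_ (LSC.const 2)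
  refine h.mod ?_ (LSC.const 2)
  refine h.sum (F := fun x γ k => if off (n x γ) (q x γ) (T x γ) k ≤ i x γ ∧
    i x γ < off (n x γ) (q x γ) (T x γ) (k + 1) then
      slt x (q x γ) (T x γ) k (i x γ - off (n x γ) (q x γ) (T x γ) k) else 0) hq ?_
  have ho : LSC (ext co) (fun x γ => off (n x γ.1) (q x γ.1) (T x γ.1) γ.2) :=
    off_mem h hn.weak hq.weak hT.weak LSC.last
  refine h.ite (P := fun x (γ : Γ × ℕ) => off (n x γ.1) (q x γ.1) (T x γ.1) γ.2 ≤ i x γ.1 ∧
    i x γ.1 < off (n x γ.1) (q x γ.1) (T x γ.1) (γ.2 + 1)) (h.and (h.le ho hi.weak) (h.lt hi.weak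
      (off_mem h hn.weak hq.weak hT.weak (h.add LSC.last (LSC.const 1))))) ?_ (LSC.const 0)
  exact slt_mem h hq.weak hT.weak LSC.last (h.sub hi.weak ho)

end Pool.Agent.Work.MP_71c844_lc.Reg
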