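/-
Block REG (problem MP_71c844_lc), items LD and LE: the search function is in the class.
Author: helper94 (after helper50 and helper64, `Arr/B1.lean`).
-/
import Pool.Agent.Work.MP_71c844_lc.Reg.Stmts
import Pool.Agent.Work.MP_71c844_lc.Arr.B1

set_option autoImplicit false

namespace Pool.Agent.Work.MP_71c844_lc.Reg

open Finset Pool.Agent.Work.MP_71c844_lc.Arr

namespace LDE

/-- The variables. -/
abbrev cv (k : ℕ) : Fin k → (Fin k → ℕ) → ℕ := fun i v => v i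

theorem verN_mem (h : LSRules) (hLA : S_LA) (hLC : S_LC) (hTC : S_TC)
    (hv : ∀ {ι Γ : Type} (co : ι → Γ → ℕ)
    (m Y M d q tb et vt A : List Bool → Γ → ℕ), LSC co m → LSC co Y →
      LSC co M → LSC co d → LSC co q → LSC co tb → LSC co et → LSC co vt → LSC co A →
      LSC co (fun x γ => verN x (m x γ) (Y x γ) (M x γ) (d x γ) (q x γ) (tb x γ) (et x γ)
        (vt x γ) (A x γ))) :
    LSC (cv 12) (fun x v => verN (vw x (v 9) (v 10) (v 11)) (v 0) (v 1) (v 2) (v 3) (v 4)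
      (v 5) (v 6) (v 7) (v 8)) := by
  have hx : ∀ i : Fin 12, LSC (cv 12) (fun _ v => v i) := fun i => LSC.var (co := cv 12) i
  have h1 := hv (cv 12) (fun _ v => v 0) (fun _ v => v 1) (fun _ v => v 2) (fun _ v => v 3)
    (fun _ v => v 4) (fun _ v => v 5) (fun _ v => v 6) (fun _ v => v 7) (fun _ v => v 8)
    (hx 0) (hx 1) (hx 2) (hx 3) (hx 4) (hx 5) (hx 6) (hx 7) (hx 8)
  refine hLA (cv 12) (fun x v => verN x (v 0) (v 1) (v 2) (v 3) (v 4) (v 5) (v 6) (v 7) (v 8))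
    (fun x v => vw x (v 9) (v 10) (v 11)) h1 ?_
  have h2 : LSC (ext (cv 12)) (fun x γ => vlt x (γ.1 9) (γ.1 10) (γ.1 11) γ.2) :=
    hLC h (ext (cv 12)) (fun _ γ => γ.1 9) (fun _ γ => γ.1 10) (fun _ γ => γ.1 11)
      (fun _ γ => γ.2) (hx 9).weak (hx 10).weak (hx 11).weak LSC.last
  exact h2.congr (fun x γ => (hTC.1 x (γ.1 9) (γ.1 10) (γ.1 11) γ.2).symm)

/-- The verdict bit of a leaf. -/
noncomputable def lfv (x : List Bool) (M Y Z : ℕ) : ℕ :=
  if verN (vx x M) (2 * glen 1 1 x M) (Y * pc M 2 (glen 1 1 x M) + Z) M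
    (fld x (Nat.log 2 M) 0) (fld x (Nat.log 2 M) 1) (fld x (Nat.log 2 M) 2)
    (fld x (Nat.log 2 M) 3) (fld x (Nat.log 2 M) 4) (fld x (Nat.log 2 M) 5) = 1 then 1 else 0

/-- The majority of the verdict bits. -/
noncomputable def mjv (x : List Bool) (M Y : ℕ) : ℕ :=
  mj M (glen 1 1 x M) (fun Z => lfv x M Y Z)

end LDE

open LDE in
theorem prf_LD : S_LD := by
  intro h hLA hLB hLC hTC hv ι Γ co n q' T m Y M d q tb et vt A hn hq' hT hm hY hM hd hq htb het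
    hvt hA
  have h1 := verN_mem h hLA hLC hTC hv
  have h2 := hLB h.toLSR1 12 (fun x v => verN (vw x (v 9) (v 10) (v 11)) (v 0) (v 1) (v 2) (v 3)
    (v 4) (v 5) (v 6) (v 7) (v 8)) h1 co ![m, Y, M, d, q, tb, et, vt, A, n, q', T] (by
      intro i
      fin_cases i <;> assumption)
  exact h2.congr (fun x γ => rfl)

open LDE B1 in
theorem prf_LE : S_LE := by
  intro h hv h6
  have hM : LSC co0 (fun _ M => M) := LSC.var (co := co0) ()
  have hl : LSC co0 (fun _ M => Nat.log 2 M) := h.log2 hM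
  have hf : ∀ k : ℕ, LSC co0 (fun x M => fld x (Nat.log 2 M) k) :=
    fun k => fld_mem h hl (LSC.const k)
  have hg : LSC co0 (fun x M => glen 1 1 x M) := glen_mem h 1 1
  have hleaf : LSC (ext (ext co0)) (fun x γ =>
      verN (vx x γ.1.1) (2 * glen 1 1 x γ.1.1) (γ.1.2 * pc γ.1.1 2 (glen 1 1 x γ.1.1) + γ.2)
        γ.1.1 (fld x (Nat.log 2 γ.1.1) 0) (fld x (Nat.log 2 γ.1.1) 1)
        (fld x (Nat.log 2 γ.1.1) 2) (fld x (Nat.log 2 γ.1.1) 3) (fld x (Nat.log 2 γ.1.1) 4)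
        (fld x (Nat.log 2 γ.1.1) 5)) := by
    have h1 := hv (ext (ext co0)) (fun x γ => glen 1 1 x γ.1.1)
      (fun x γ => fld x (Nat.log 2 γ.1.1) 6) (fun x γ => fld x (Nat.log 2 γ.1.1) 7)
      (fun x γ => 2 * glen 1 1 x γ.1.1)
      (fun x γ => γ.1.2 * pc γ.1.1 2 (glen 1 1 x γ.1.1) + γ.2) (fun _ γ => γ.1.1)
      (fun x γ => fld x (Nat.log 2 γ.1.1) 0) (fun x γ => fld x (Nat.log 2 γ.1.1) 1)
      (fun x γ => fld x (Nat.log 2 γ.1.1) 2) (fun x γ => fld x (Nat.log 2 γ.1.1) 3)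
      (fun x γ => fld x (Nat.log 2 γ.1.1) 4) (fun x γ => fld x (Nat.log 2 γ.1.1) 5)
      hg.weak.weak (hf 6).weak.weak (hf 7).weak.weak
      (h.mul (LSC.const 2) hg.weak.weak)
      (h.add (h.mul LSC.last.weak (h.pc hM.weak.weak (LSC.const 2) hg.weak.weak)) LSC.last)
      hM.weak.weak (hf 0).weak.weak (hf 1).weak.weak (hf 2).weak.weak (hf 3).weak.weak
      (hf 4).weak.weak (hf 5).weak.weak
    exact h1.congr (fun x γ => rfl)
  have hlfv : LSC (ext (ext co0)) (fun x γ => lfv x γ.1.1 γ.1.2 γ.2) := by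
    have h1 := h.ite (P := fun x (γ : (ℕ × ℕ) × ℕ) =>
      verN (vx x γ.1.1) (2 * glen 1 1 x γ.1.1) (γ.1.2 * pc γ.1.1 2 (glen 1 1 x γ.1.1) + γ.2)
        γ.1.1 (fld x (Nat.log 2 γ.1.1) 0) (fld x (Nat.log 2 γ.1.1) 1)
        (fld x (Nat.log 2 γ.1.1) 2) (fld x (Nat.log 2 γ.1.1) 3) (fld x (Nat.log 2 γ.1.1) 4)
        (fld x (Nat.log 2 γ.1.1) 5) = 1)
      (h.eq hleaf (LSC.const 1)) (LSC.const 1) (LSC.const 0)
    exact h1.congr (fun x γ => rfl)
  have hmjv : LSC (ext co0) (fun x γ => mjv x γ.1 γ.2) := by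
    have hg' : LSC (ext co0) (fun x γ => glen 1 1 x γ.1) := hg.weak
    exact maj2 h _ hg' lfv hlfv
  have hgm : LSC co0 (fun x M => gameN (2 * M) (glen 1 1 x M) (fun Y => mjv x M Y)) :=
    h6 h co0 (fun _ M => 2 * M) (fun x M => glen 1 1 x M) (fun x M Y => mjv x M Y)
      (h.mul (LSC.const 2) hM) hg hmjv
  have h1 := h.ite (P := fun x M => gameN (2 * M) (glen 1 1 x M) (fun Y => mjv x M Y) = 1)
    (h.eq hgm (LSC.const 1)) (LSC.const 2) (LSC.const 1)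
  have h2 := h.ite (P := fun x M => glen 1 1 x M ≤ Nat.log 2 M) (h.le hg hl) h1 (LSC.const 0)
  exact h2.congr (fun x M => rfl)

end Pool.Agent.Work.MP_71c844_lc.Reg
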