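/-
Block REG (problem MP_71c844_lc), item QA: the bits of `v + 1` and of `v - 1`.
Author: helper9.
-/
import Pool.Agent.Work.MP_71c844_lc.Reg.Stmts

set_option autoImplicit false

namespace Pool.Agent.Work.MP_71c844_lc.Reg

open Finset Pool.Agent.Work.MP_71c844_lc.Arr

namespace QA

theorem ball_succ (p : ℕ → Prop) (i : ℕ) :
    (∀ i' < i + 1, p i') ↔ (p 0 ∧ ∀ i' < i, p (i' + 1)) := by
  constructor
  · intro h
    exact ⟨h 0 (Nat.succ_pos i), fun j hj => h (j + 1) (Nat.succ_lt_succ hj)⟩
  · rintro ⟨h0, h⟩ j hj
    cases j with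
    | zero => exact h0
    | succ j => exact h j (Nat.lt_of_succ_lt_succ hj)

theorem zero_case' (v k : ℕ) (hk : k = 0) :
    decide (∀ i' < k, v.testBit i' = true) = true := by
  apply decide_eq_true
  intro i' hi'
  omega

theorem succ_bit (i : ℕ) : ∀ v : ℕ, (v + 1).testBit i =
    xor (v.testBit i) (decide (∀ i' < i, v.testBit i' = true)) := by
  induction i with
  | zero =>
    intro v
    rw [zero_case' v 0 rfl, Nat.testBit_zero, Nat.testBit_zero]
    rcases Nat.mod_two_eq_zero_or_one v with h0 | h1
    · have : (v + 1) % 2 = 1 := by omega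
      simp [h0, this]
    · have : (v + 1) % 2 = 0 := by omega
      simp [h1, this]
  | succ i ih =>
    intro v
    rw [Nat.testBit_add_one, Nat.testBit_add_one]
    have key : (∀ i' < i + 1, v.testBit i' = true) ↔
        (v % 2 = 1 ∧ ∀ i' < i, (v / 2).testBit i' = true) := by
      rw [ball_succ]
      constructor
      · rintro ⟨h0, h⟩
        refine ⟨?_, fun j hj => ?_⟩
        · rw [Nat.testBit_zero] at h0
          exact of_decide_eq_true h0
        · rw [← Nat.testBit_add_one]
          exact h j hj
      · rintro ⟨h0, h⟩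
        refine ⟨?_, fun j hj => ?_⟩
        · rw [Nat.testBit_zero]
          exact decide_eq_true h0
        · rw [Nat.testBit_add_one]
          exact h j hj
    rw [decide_eq_decide.mpr key]
    rcases Nat.mod_two_eq_zero_or_one v with h0 | h1
    · have e : (v + 1) / 2 = v / 2 := by omega
      rw [e]
      have hf : decide (v % 2 = 1 ∧ ∀ i' < i, (v / 2).testBit i' = true) = false := by
        apply decide_eq_false
        rintro ⟨h, -⟩
        omega
      rw [hf, Bool.xor_false]
    · have e : (v + 1) / 2 = v / 2 + 1 := by omega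
      rw [e, ih (v / 2)]
      have key2 : (∀ i' < i, (v / 2).testBit i' = true) ↔
          (v % 2 = 1 ∧ ∀ i' < i, (v / 2).testBit i' = true) :=
        ⟨fun h => ⟨h1, h⟩, fun h => h.2⟩
      rw [decide_eq_decide.mpr key2]

theorem all_iff (u i : ℕ) : (∀ i' < i, u.testBit i' = true) ↔
    (∀ i' < i, (u + 1).testBit i' = false) := by
  constructor
  · intro h j hj
    rw [succ_bit j u, h j hj]
    have : decide (∀ i' < j, u.testBit i' = true) = true :=
      decide_eq_true (fun i' hi' => h i' (lt_trans hi' hj))
    rw [this]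
    rfl
  · intro h j
    induction j using Nat.strong_induction_on with
    | _ j ih =>
      intro hj
      have h1 := h j hj
      rw [succ_bit j u] at h1
      have : decide (∀ i' < j, u.testBit i' = true) = true :=
        decide_eq_true (fun i' hi' => ih i' hi' (lt_trans hi' hj))
      rw [this] at h1
      revert h1
      cases u.testBit j <;> simp

theorem pred_bit (v i : ℕ) (hv : v ≠ 0) : (v - 1).testBit i =
    xor (v.testBit i) (decide (∀ i' < i, v.testBit i' = false)) := by
  obtain ⟨u, rfl⟩ : ∃ u, v = u + 1 := ⟨v - 1, by omega⟩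
  rw [Nat.add_sub_cancel, ← decide_eq_decide.mpr (all_iff u i), succ_bit i u]
  cases u.testBit i <;> cases decide (∀ i' < i, u.testBit i' = true) <;> rfl

theorem pos_bit (v W : ℕ) (hv : v < 2 ^ W) : v ≠ 0 ↔ ∃ i < W, v.testBit i = true := by
  constructor
  · intro h
    obtain ⟨i, hi⟩ := Nat.exists_testBit_of_ne_zero h
    refine ⟨i, ?_, hi⟩
    by_contra hlt
    have h2 : v < 2 ^ i := lt_of_lt_of_le hv (Nat.pow_le_pow_right (by norm_num) (by omega))
    rw [Nat.testBit_lt_two_pow h2] at hi
    exact absurd hi (by decide)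
  · rintro ⟨i, -, hi⟩ rfl
    rw [Nat.zero_testBit] at hi
    exact absurd hi (by decide)

end QA

theorem prf_QA : S_QA :=
  { succ := fun v i => QA.succ_bit i v
    pred := fun v i hv => QA.pred_bit v i hv
    pos := fun v W hv => QA.pos_bit v W hv }

end Pool.Agent.Work.MP_71c844_lc.Reg
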