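/-
Block REG (problem MP_71c844_lc): items QB and QC, the flags along a row and the end of a row.
Author: helper37.
-/
import Pool.Agent.Work.MP_71c844_lc.Reg.Stmts

set_option autoImplicit false

namespace Pool.Agent.Work.MP_71c844_lc.Reg

open Finset Pool.Agent.Work.MP_71c844_lc.Arr

namespace QBC

/-- the bit of a register in a cell -/
theorem rb_cel {m : ℕ} {x : List Bool} {s : St} {i r : ℕ} (hr : r < m) :
    rb (cel m x s i).2.2 r = (s.1 r).testBit i := by
  simp [rb, cel, hr]

/-- a bounded universal statement, one step -/
theorem all_succ (p : ℕ → Bool) (i : ℕ) (b : Bool) :
    (decide (∀ i' < i, p i' = b) && decide (p i = b)) = decide (∀ i' < i + 1, p i' = b) := by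
  rw [← Bool.decide_and]
  congr 1
  apply propext
  rw [Nat.forall_lt_succ_right]

/-- a bounded existential statement, one step -/
theorem ex_succ (p : ℕ → Bool) (i : ℕ) :
    (decide (∃ i' < i, p i' = true) || p i) = decide (∃ i' < i + 1, p i' = true) := by
  have h : p i = decide (p i = true) := by simp
  rw [h, ← Bool.decide_or]
  congr 1
  apply propext
  rw [Nat.exists_lt_succ_right]

end QBC

open QBC

theorem prf_QB : S_QB := by
  intro m G x a ph hG
  constructor
  · unfold flg flg0
    rcases hI : G[a.1]? with _ | I
    · rfl
    · cases I with
      | inc r nx => simp
      | dec r nx => cases ph <;> simp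
      | mv d nx => cases d <;> simp
      | br c n₁ n₂ => cases c <;> simp
      | jmp nx => rfl
      | halt b => rfl
  · intro i
    unfold nfl flg
    rcases hI : G[a.1]? with _ | I
    · rfl
    · have hlt := hG _ _ hI
      cases I with
      | inc r nx =>
        have hr : r < m := hlt
        simp only [rb_cel hr]
        rw [← all_succ]
        simp
      | dec r nx =>
        have hr : r < m := hlt
        cases ph with
        | false =>
          simp only [rb_cel hr]
          rw [← ex_succ]
          simp
        | true =>
          simp only [rb_cel hr, if_true]
          rw [← all_succ]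
          simp
      | mv d nx =>
        cases d with
        | left => rfl
        | stay => rfl
        | right =>
          simp only [cel]
          by_cases h : a.2.2 = i
          · subst h; simp
          · simp [h]
      | br c n₁ n₂ =>
        cases c with
        | reg r =>
          have hr : r < m := hlt
          simp only [rb_cel hr]
          rw [← ex_succ]
        | sym t =>
          simp only [cel]
          by_cases h : a.2.2 = i
          · subst h; simp
          · have h2 : (a.2.2 < i + 1) = (a.2.2 < i) := by
              apply propext
              omega
            simp [h, h2]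
      | jmp nx => rfl
      | halt b => rfl

theorem prf_QC : S_QC := by
  intro hQA m G x W a ph hG hL
  obtain ⟨hreg, hpos, hW, hph⟩ := hL
  unfold nxt flg big gostep
  rcases hI : G[a.1]? with _ | I
  · rfl
  · cases I with
    | inc r nx => rfl
    | dec r nx =>
      cases ph with
      | true => rfl
      | false =>
        have h1 := hQA.pos (a.2.1 r) W (hreg r)
        by_cases h : a.2.1 r ≠ 0
        · have h2 := h1.1 h
          simp only [h2]
          simp [h]
        · have h2 : ¬ ∃ i < W, (a.2.1 r).testBit i = true := fun h3 => h (h1.2 h3)
          simp only [h2]
          simp at h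
          simp [h]
    | mv d nx => rfl
    | br c n₁ n₂ =>
      cases c with
      | reg r =>
        have h1 := hQA.pos (a.2.1 r) W (hreg r)
        by_cases h : a.2.1 r ≠ 0
        · have h2 := h1.1 h
          simp only [h2, Tst.ok]
          simp [h]
        · have h2 : ¬ ∃ i < W, (a.2.1 r).testBit i = true := fun h3 => h (h1.2 h3)
          simp only [h2, Tst.ok]
          simp at h
          simp [h]
      | sym t =>
        have h2 : a.2.2 < W := by omega
        simp only [Tst.ok]
        by_cases h : t (inSym x a.2.2) = true
        · simp [h, h2]
        · simp [h]
    | jmp nx => rfl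
    | halt b =>
      rfl

end Pool.Agent.Work.MP_71c844_lc.Reg
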