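/-
Block REG (problem MP_71c844_lc): the cells of the next row.
Author: helper70.
-/
import Pool.Agent.Work.MP_71c844_lc.Reg.Stmts

set_option autoImplicit false

namespace Pool.Agent.Work.MP_71c844_lc.Reg

open Finset Pool.Agent.Work.MP_71c844_lc.Arr

namespace QD

theorem get_clip (G : List Ins) (n : ℕ) : G[(clip G n).val]? = G[n]? := by
  show G[min n G.length]? = G[n]?
  rcases le_total n G.length with h | h
  · rw [min_eq_left h]
  · rw [min_eq_right h]
    rw [List.getElem?_eq_none (le_refl _), List.getElem?_eq_none h]

theorem isL_inSym (x : List Bool) (i : ℕ) : isL (inSym x i) = decide (i = 0) := by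
  unfold inSym
  by_cases h : i = 0
  · simp [h, isL]
  · rw [if_neg h]
    rcases hx : x[i - 1]? with _ | b <;> simp [isL, h]

theorem isR_inSym (x : List Bool) (i : ℕ) : isR (inSym x i) = decide (x.length + 1 ≤ i) := by
  unfold inSym
  by_cases h : i = 0
  · simp [h, isR]
  · rw [if_neg h]
    rcases hx : x[i - 1]? with _ | b
    · have := List.getElem?_eq_none_iff.1 hx
      simp only [isR]
      symm
      simpa using (by omega : x.length + 1 ≤ i)
    · obtain ⟨h1, _⟩ := List.getElem?_eq_some_iff.1 hx
      simp only [isR]
      symm
      simpa using (by omega : i < x.length + 1)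

theorem ub_upd {m : ℕ} (σ : ℕ → ℕ) (r v i : ℕ) :
    ub (fun j : Fin m => (σ j.val).testBit i) r (v.testBit i) =
      fun j : Fin m => (Function.update σ r v j.val).testBit i := by
  funext j
  unfold ub
  by_cases h : j.val = r
  · simp [h]
  · simp [h]

theorem rb_cel {m : ℕ} (σ : ℕ → ℕ) (r i : ℕ) (h : r < m) :
    rb (fun j : Fin m => (σ j.val).testBit i) r = (σ r).testBit i := by
  unfold rb
  rw [dif_pos h]

end QD

open QD in
theorem prf_QD : S_QD := by
  intro hA m G x W a ph i c' hG hL hi hc
  obtain ⟨_, hpos, hW, hph⟩ := hL
  unfold d2
  simp only [get_clip]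
  rcases hI : G[a.1]? with _ | I
  · simp only [big, gostep, hI]
  · have hr := hG _ _ hI
    cases I with
    | inc r nx =>
      have hr' : r < m := hr
      simp only [big, gostep, hI, cel, flg]
      rw [rb_cel _ _ _ hr', ← hA.succ, ub_upd]
    | dec r nx =>
      have hr' : r < m := hr
      cases ph with
      | true =>
        obtain ⟨r', nx', h1, h2⟩ := hph rfl
        rw [hI] at h1
        injection h1 with h1
        injection h1 with h1 h3
        subst h1
        simp only [big, gostep, hI, cel, flg, if_true, Bool.true_eq_false, false_and, if_false]
        rw [rb_cel _ _ _ hr', ← hA.pred _ _ h2, ub_upd]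
      | false =>
        by_cases h0 : a.2.1 r = 0
        · simp only [big, gostep, hI, cel, Bool.false_eq_true, if_false, h0, ne_eq,
            not_true_eq_false, and_false]
          congr 2
          funext j
          by_cases h : j.val = r
          · simp [h, h0]
          · simp [h]
        · simp only [big, hI, Bool.false_eq_true, if_false, h0, ne_eq, not_false_eq_true, and_true,
            if_true]
    | mv d nx =>
      cases d with
      | left =>
        simp only [big, gostep, hI, cel, inMove]
        refine Prod.ext rfl (Prod.ext ?_ rfl)
        simp only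
        rw [isL_inSym]
        rcases hc with ⟨h1, rfl⟩ | ⟨h1, h2⟩
        · simp only [cel, isL_inSym]
          rw [Bool.eq_iff_iff]
          simp
          omega
        · rw [h2]
          rw [Bool.eq_iff_iff]
          simp
          omega
      | stay =>
        simp only [big, gostep, hI, cel, inMove]
      | right =>
        simp only [big, gostep, hI, cel, inMove, flg]
        refine Prod.ext rfl (Prod.ext ?_ rfl)
        simp only
        rw [isR_inSym, isR_inSym, Bool.eq_iff_iff]
        simp
        omega
    | br c n₁ n₂ => simp only [big, gostep, hI]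
    | jmp nx => simp only [big, gostep, hI]
    | halt b => simp only [big, gostep, hI]

end Pool.Agent.Work.MP_71c844_lc.Reg
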