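/-
Block REG (problem MP_71c844_lc): from row to row.
Author: helper92.
-/
import Pool.Agent.Work.MP_71c844_lc.Reg.Stmts

set_option autoImplicit false

namespace Pool.Agent.Work.MP_71c844_lc.Reg

open Finset Pool.Agent.Work.MP_71c844_lc.Arr

namespace QE

theorem get_clip (G : List Ins) (n : ℕ) : G[(clip G n).val]? = G[n]? := by
  show G[min n G.length]? = G[n]?
  rcases le_total n G.length with h | h
  · rw [min_eq_left h]
  · rw [min_eq_right h]
    rw [List.getElem?_eq_none (le_refl _), List.getElem?_eq_none h]

theorem isL_inSym (x : List Bool) (i : ℕ) : isL (inSym x i) = decide (i = 0) := by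
  unfold inSym
  by_cases h : i = 0
  · simp [h, isL]
  · rw [if_neg h]
    rcases hx : x[i - 1]? with _ | b <;> simp [isL, h]

/-- The input symbol of a cell does not change. -/
theorem d2_fst {m : ℕ} {G : List Ins} (a : Th m G) (c' : Cel m) : (d2 a c').1 = a.2.1 := by
  obtain ⟨q, c⟩ := a
  cases q with
  | none => rfl
  | some t =>
    obtain ⟨pc, ph, f⟩ := t
    unfold d2
    simp only
    rcases G[pc.val]? with _ | I
    · rfl
    · cases I with
      | inc r nx => rfl
      | dec r nx => cases ph <;> rfl
      | mv d nx => cases d <;> rfl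
      | br c n₁ n₂ => rfl
      | jmp nx => rfl
      | halt b => rfl

theorem nfl_clip {m : ℕ} (G : List Ins) (n : ℕ) (ph f : Bool) (c : Cel m) :
    nfl G (clip G n).val ph f c = nfl G n ph f c := by
  unfold nfl
  rw [get_clip]

theorem d1_clip {m : ℕ} (G : List Ins) (n : ℕ) (ph f : Bool) (c : Cel m) :
    d1 ((some (clip G n, ph, f), c) : Th m G) = some (clip G n, ph, nfl G n ph f c) := by
  unfold d1
  simp only [nfl_clip]

theorem nxt_clip (G : List Ins) (n : ℕ) (ph f : Bool) (h : n ≤ G.length) :
    nxt G (clip G n).val ph f = nxt G n ph f := by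
  have : (clip G n).val = n := by
    show min n G.length = n
    exact min_eq_left h
  rw [this]

theorem clip_clip (G : List Ins) (n : ℕ) : clip G (clip G n).val = clip G n := by
  apply Fin.ext
  show min (min n G.length) G.length = min n G.length
  exact min_eq_left (min_le_right _ _)

theorem flg0_clip (G : List Ins) (n : ℕ) (ph : Bool) : flg0 G (clip G n).val ph = flg0 G n ph := by
  unfold flg0
  rw [get_clip]

/-- The state at the beginning of the next row. -/
theorem norm_clip (G : List Ins) (n : ℕ) (ph f : Bool) :
    norm G (some (clip G n, ph, f)) = some (clip G (nxt G n ph f).1, (nxt G n ph f).2,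
      flg0 G (nxt G n ph f).1 (nxt G n ph f).2) := by
  rcases le_or_gt n G.length with h | h
  · unfold norm
    simp only [nxt_clip G n ph f h]
  · have h1 : G[n]? = none := List.getElem?_eq_none (by omega)
    have h2 : nxt G n ph f = (n, false) := by
      unfold nxt
      rw [h1]
    have h3 : nxt G (clip G n).val ph f = ((clip G n).val, false) := by
      unfold nxt
      rw [get_clip, h1]
    unfold norm
    simp only [h2, h3, clip_clip, flg0_clip]

end QE

open QE in
theorem prf_QE : S_QE := by
  intro hA hB hC hD m G x W θ k a ph hG hL hθ hR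
  have hW : x.length + 2 ≤ W := hL.2.2.1
  -- the letter above the new letter has the right cell
  have hcell : ∀ i, i < W → d2 (θ (k * W + i)) (θ (k * W + i + 1)).2 =
      cel m x (big G x a ph).1.2 i := by
    intro i hi
    rw [hR i hi]
    refine hD hA m G x W a ph i _ hG hL hi ?_
    rcases Nat.lt_or_ge (i + 1) W with h | h
    · left
      refine ⟨h, ?_⟩
      have := hR (i + 1) h
      rw [← add_assoc] at this
      rw [this]
    · right
      have hiW : i + 1 = W := by omega
      refine ⟨hiW, ?_⟩
      have h1 : k * W + i + 1 = k * W + W := by omega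
      rw [h1, hθ (k * W)]
      show isL (d2 (θ (k * W)) _).1 = true
      rw [d2_fst]
      have h2 := hR 0 (by omega)
      rw [add_zero] at h2
      rw [h2]
      show isL (inSym x 0) = true
      rw [isL_inSym]
      rfl
  intro i
  induction i with
  | zero =>
    intro hi
    have h1 : (k + 1) * W + 0 = k * W + W := by ring
    rw [h1, hθ (k * W)]
    have h2 := hR 0 (by omega)
    have h3 := hR (W - 1) (by omega)
    have h4 : k * W + W - 1 = k * W + (W - 1) := by omega
    have h5 := hcell 0 hi
    rw [add_zero] at h5 h2
    unfold rul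
    rw [h5, h4, h3, h2]
    have h6 : isL ((some (clip G a.1, ph, flg G x a ph 0), cel m x a.2 0) : Th m G).2.1 = true := by
      show isL (inSym x 0) = true
      rw [isL_inSym]
      rfl
    rw [if_pos h6, d1_clip, (hB m G x a ph hG).2 (W - 1)]
    have h7 : W - 1 + 1 = W := by omega
    rw [h7, norm_clip, hC hA m G x W a ph hG hL]
    rw [(hB m G x (big G x a ph).1 (big G x a ph).2 hG).1]
  | succ i ih =>
    intro hi
    have h1 : (k + 1) * W + (i + 1) = k * W + (i + 1) + W := by ring
    rw [h1, hθ (k * W + (i + 1))]
    have h2 := hR (i + 1) hi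
    have h4 : k * W + (i + 1) + W - 1 = (k + 1) * W + i := by
      rw [add_mul]
      omega
    have h5 := hcell (i + 1) hi
    unfold rul
    rw [h5, h4, ih (by omega), h2]
    have h6 : ¬ isL ((some (clip G a.1, ph, flg G x a ph (i + 1)), cel m x a.2 (i + 1)) :
        Th m G).2.1 = true := by
      show ¬ isL (inSym x (i + 1)) = true
      rw [isL_inSym]
      simp
    rw [if_neg h6, d1_clip, (hB m G x (big G x a ph).1 (big G x a ph).2 hG).2 i]

end Pool.Agent.Work.MP_71c844_lc.Reg
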