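/-
Block REG (problem MP_71c844_lc), item QF: the run.
Author: helper41.
-/
import Pool.Agent.Work.MP_71c844_lc.Reg.Stmts

set_option autoImplicit false

namespace Pool.Agent.Work.MP_71c844_lc.Reg

open Finset Pool.Agent.Work.MP_71c844_lc.Arr

namespace QF

/-- The configuration after `s` steps. -/
noncomputable def conf (G : List Ins) (x : List Bool) (s : ℕ) : ℕ × St :=
  (gostep G x)^[s] (0, (fun _ => 0, 0))

theorem conf_succ (G : List Ins) (x : List Bool) (s : ℕ) :
    conf G x (s + 1) = gostep G x (conf G x s) := by
  unfold conf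
  rw [Function.iterate_succ_apply']

theorem clip_get (G : List Ins) (n : ℕ) : G[(clip G n).val]? = G[n]? := by
  show G[min n G.length]? = G[n]?
  by_cases h : n ≤ G.length
  · rw [min_eq_left h]
  · rw [min_eq_right (by omega), List.getElem?_eq_none (le_refl _),
      List.getElem?_eq_none (by omega)]

theorem uw_len {Θ : Type} (c₀ c₁ c₂ c₃ : Θ) (K : ℕ) (hK : 1 ≤ K) (x : List Bool) :
    (uw c₀ c₁ c₂ c₃ K x).length = K * (x.length + 1) := by
  unfold uw
  rw [List.length_cons, List.length_append, List.length_map, List.length_replicate]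
  obtain ⟨k, rfl⟩ : ∃ k, K = k + 1 := ⟨K - 1, by omega⟩
  rw [Nat.add_sub_cancel]
  ring

theorem row0 (m : ℕ) (G : List Ins) (K : ℕ) (x : List Bool) (j : ℕ)
    (h : j < (uw (c0 m G) (cb m G false) (cb m G true) (cr m G) K x).length) :
    (uw (c0 m G) (cb m G false) (cb m G true) (cr m G) K x)[j] =
      (none, cel m x (fun _ => 0, 0) j) := by
  cases j with
  | zero =>
    simp only [uw, List.getElem_cons_zero, c0, cel, inSym, if_true, Nat.zero_testBit,
      decide_true]
  | succ j =>
    have hne : ¬ ((0 : ℕ) = j + 1) := by omega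
    simp only [uw, List.getElem_cons_succ, cel, Nat.zero_testBit]
    by_cases hj : j < x.length
    · rw [List.getElem_append_left (by simpa using hj), List.getElem_map]
      have h1 : inSym x (j + 1) = .bit x[j] := by
        simp only [inSym, Nat.add_sub_cancel]
        rw [if_neg (by omega), List.getElem?_eq_getElem hj]
      rw [h1, decide_eq_false hne]
      cases x[j] <;> simp [cb]
    · rw [List.getElem_append_right (by simpa using hj), List.getElem_replicate]
      have h1 : inSym x (j + 1) = .rend := by
        simp only [inSym, Nat.add_sub_cancel]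
        rw [if_neg (by omega), List.getElem?_eq_none (by omega)]
      rw [h1, decide_eq_false hne]
      rfl

theorem isL_inSym (x : List Bool) (i : ℕ) : isL (inSym x i) = decide (i = 0) := by
  unfold inSym
  by_cases h : i = 0
  · rw [if_pos h]
    simp [isL, h]
  · rw [if_neg h]
    cases x[i - 1]? <;> simp [isL, h]

theorem head_le (G : List Ins) (x : List Bool) (s : ℕ) : (conf G x s).2.2 ≤ x.length + 1 := by
  induction s with
  | zero => exact Nat.zero_le _
  | succ s ih =>
    rw [conf_succ]
    unfold gostep
    split
    · exact ih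
    · exact ih
    · rename_i d nx _
      cases d
      · exact le_trans (Nat.sub_le _ _) ih
      · exact ih
      · exact min_le_right _ _
    · exact ih
    · exact ih
    · exact ih
    · exact ih

/-- The two possibilities for the next row. -/
theorem big_cases (G : List Ins) (x : List Bool) (a : ℕ × St) (ph : Bool) :
    (big G x a ph = (a, true) ∧ ph = false ∧ ∃ r nx, G[a.1]? = some (.dec r nx) ∧ a.2.1 r ≠ 0) ∨
      big G x a ph = (gostep G x a, false) := by
  unfold big
  split
  · rename_i r nx h
    by_cases hc : ph = false ∧ a.2.1 r ≠ 0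
    · left
      refine ⟨if_pos hc, hc.1, r, nx, h, hc.2⟩
    · right
      exact if_neg hc
  · right
    rfl

theorem big_true (G : List Ins) (x : List Bool) (a : ℕ × St) :
    big G x a true = (gostep G x a, false) := by
  rcases big_cases G x a true with h | h
  · exact absurd h.2.1 (by decide)
  · exact h

theorem gostep_halt (G : List Ins) (x : List Bool) (a : ℕ × St) (b : Bool)
    (h : G[a.1]? = some (.halt b)) : gostep G x a = a := by
  unfold gostep
  rw [h]

theorem conf_halt (G : List Ins) (x : List Bool) (s : ℕ) (b : Bool)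
    (h : G[(conf G x s).1]? = some (.halt b)) : ∀ n, conf G x (s + n) = conf G x s := by
  intro n
  induction n with
  | zero => rfl
  | succ n ih =>
    rw [← add_assoc, conf_succ, ih]
    exact gostep_halt G x _ b h

end QF

open QF in
theorem prf_QF : S_QF := by
  intro hQA hQB hQC hQD hQE m G K x θ t b hR hK hH hB ht
  obtain ⟨hH0, hH1⟩ := hH
  have hW := uw_len (c0 m G) (cb m G false) (cb m G true) (cr m G) K (by omega) x
  rw [hW] at hH1
  set W := K * (x.length + 1) with hWd
  have hW2 : x.length + 2 ≤ W := by
    rw [hWd]
    nlinarith [Nat.zero_le x.length]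
  have hr0 : ∀ j < W, θ j = (none, cel m x (fun _ => 0, 0) j) := by
    intro j hj
    rw [hH0 j (by rw [hW]; exact hj)]
    exact row0 m G K x j _
  have hB' : ∀ s ≤ t, ∀ r, (conf G x s).2.1 r < 2 ^ W := hB
  have ht' : G[(conf G x t).1]? = some (.halt b) := ht
  have hLeg : ∀ s ≤ t, Leg G x W (conf G x s) false := by
    intro s hs
    exact ⟨hB' s hs, head_le G x s, hW2, fun h => absurd h (by decide)⟩
  -- row 1
  have hc0 : conf G x 0 = (0, (fun _ => 0, 0)) := rfl
  have hr1 : RowIs m G x W θ 1 (conf G x 0) false := by
    rw [hc0]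
    intro i
    induction i with
    | zero =>
      intro hi
      have e := hH1 0
      rw [zero_add, zero_add] at e
      rw [one_mul, add_zero, e, hr0 0 hi, hr0 (W - 1) (by omega)]
      simp only [rul, cel, isL_inSym, d1, norm, d2, decide_true, if_true]
      rw [← (hQB m G x (0, (fun _ => 0, 0)) false hR).1]
    | succ i ih =>
      intro hi
      have ih' := ih (by omega)
      have e := hH1 (i + 1)
      have e2 : i + 1 + W - 1 = 1 * W + i := by omega
      rw [e2, ih', hr0 (i + 1) hi] at e
      have e3 : 1 * W + (i + 1) = i + 1 + W := by omega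
      rw [e3, e]
      have e4 := (hQB m G x (0, (fun _ => 0, 0)) false hR).2 i
      have e5 : (clip G 0).val = 0 := by
        show min 0 G.length = 0
        exact Nat.zero_min _
      simp only [rul, isL_inSym, cel, d1, d2, Nat.add_eq_zero_iff, one_ne_zero, and_false,
        decide_false, Bool.false_eq_true, if_false, e5]
      simp only [cel] at e4
      rw [e4]
  -- the rows
  have hstep : ∀ k s ph, s ≤ t → Leg G x W (conf G x s) ph →
      RowIs m G x W θ k (conf G x s) ph →
      RowIs m G x W θ (k + 1) (big G x (conf G x s) ph).1 (big G x (conf G x s) ph).2 := by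
    intro k s ph _ hL hRw
    exact hQE hQA hQB hQC hQD m G x W θ k (conf G x s) ph hR hL hH1 hRw
  have hA : ∀ k, ∃ s ph, s ≤ t ∧ Leg G x W (conf G x s) ph ∧
      RowIs m G x W θ (k + 1) (conf G x s) ph := by
    intro k
    induction k with
    | zero => exact ⟨0, false, Nat.zero_le _, hLeg 0 (Nat.zero_le _), hr1⟩
    | succ k ih =>
      obtain ⟨s, ph, hs, hL, hRw⟩ := ih
      have h1 := hstep (k + 1) s ph hs hL hRw
      rcases big_cases G x (conf G x s) ph with ⟨h2, _, h3⟩ | h2
      · rw [h2] at h1
        refine ⟨s, true, hs, ⟨hL.1, hL.2.1, hL.2.2.1, fun _ => h3⟩, h1⟩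
      · rw [h2] at h1
        by_cases hst : s = t
        · subst hst
          have h4 : gostep G x (conf G x s) = conf G x s := gostep_halt G x _ b ht'
          rw [h4] at h1
          exact ⟨s, false, le_refl _, hLeg s (le_refl _), h1⟩
        · rw [← conf_succ] at h1
          exact ⟨s + 1, false, by omega, hLeg (s + 1) (by omega), h1⟩
  have hC : ∀ s ≤ t, ∃ k, RowIs m G x W θ (k + 1) (conf G x s) false := by
    intro s
    induction s with
    | zero => intro _; exact ⟨0, hr1⟩
    | succ s ih =>
      intro hs
      obtain ⟨k, hk⟩ := ih (by omega)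
      have h1 := hstep (k + 1) s false (by omega) (hLeg s (by omega)) hk
      rcases big_cases G x (conf G x s) false with ⟨h2, _, h3⟩ | h2
      · rw [h2] at h1
        have hL : Leg G x W (conf G x s) true :=
          ⟨hB' s (by omega), head_le G x s, hW2, fun _ => h3⟩
        have h4 := hstep (k + 1 + 1) s true (by omega) hL h1
        rw [big_true, ← conf_succ] at h4
        exact ⟨k + 1 + 1, h4⟩
      · rw [h2, ← conf_succ] at h1
        exact ⟨k + 1, h1⟩
  constructor
  · rintro ⟨j, hj⟩
    by_cases hjW : j < W
    · rw [hr0 j hjW] at hj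
      simp [acc] at hj
    · have hWpos : 0 < W := by omega
      have hdiv : 1 ≤ j / W := (Nat.one_le_div_iff hWpos).2 (by omega)
      obtain ⟨k, hk⟩ : ∃ k, j / W = k + 1 := ⟨j / W - 1, by omega⟩
      obtain ⟨s, ph, hs, hL, hRw⟩ := hA k
      have hmod : j % W < W := Nat.mod_lt _ hWpos
      have h1 := hRw (j % W) hmod
      have h2 : (k + 1) * W + j % W = j := by
        rw [← hk, mul_comm]
        exact Nat.div_add_mod j W
      rw [h2] at h1
      rw [h1] at hj
      simp only [acc, clip_get] at hj
      have h3 : G[(conf G x s).1]? = some (.halt true) := by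
        revert hj
        split
        · rename_i b' h4
          intro h5
          rw [h4, h5]
        · intro h5
          exact absurd h5 (by decide)
      obtain ⟨n, rfl⟩ : ∃ n, t = s + n := ⟨t - s, by omega⟩
      rw [conf_halt G x s true h3 n, h3] at ht'
      injection ht' with h6
      injection h6 with h7
      exact h7.symm
  · intro hb
    obtain ⟨k, hk⟩ := hC t (le_refl _)
    refine ⟨(k + 1) * W + 0, ?_⟩
    rw [hk 0 (by omega)]
    simp only [acc, clip_get]
    rw [ht']
    exact hb

end Pool.Agent.Work.MP_71c844_lc.Reg
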