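/-
Block REG (problem MP_71c844_lc): item QG, the letters of a history as blocks of bits.
Author of the statement: helper14.  Proof: helper23.
-/
import Pool.Agent.Work.MP_71c844_lc.Reg.Stmts

set_option autoImplicit false

namespace Pool.Agent.Work.MP_71c844_lc.Reg

open Finset Pool.Agent.Work.MP_71c844_lc.Arr

namespace QGx

lemma uw_map {Θ Θ' : Type} (e : Θ → Θ') (c₀ c₁ c₂ c₃ : Θ) (K : ℕ) (x : List Bool) :
    uw (e c₀) (e c₁) (e c₂) (e c₃) K x = (uw c₀ c₁ c₂ c₃ K x).map e := by
  simp only [uw, List.map_cons, List.map_append, List.map_map, List.map_replicate]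
  congr 2
  apply List.map_congr_left
  intro b _
  cases b <;> rfl

instance finInSym : Finite InSym := by
  have h : Function.Surjective (fun o : Option (Option Bool) =>
      match o with
      | none => InSym.lend
      | some none => InSym.rend
      | some (some b) => InSym.bit b) := by
    intro s
    cases s with
    | lend => exact ⟨none, rfl⟩
    | rend => exact ⟨some none, rfl⟩
    | bit b => exact ⟨some (some b), rfl⟩
  exact Finite.of_surjective _ h

instance finTh (m : ℕ) (G : List Ins) : Finite (Th m G) := by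
  unfold Th QS Cel
  infer_instance

lemma exists_inj (A : Type) [Finite A] : ∃ ℓ : ℕ, 1 ≤ ℓ ∧ ∃ e : A → Blk ℓ, Function.Injective e := by
  classical
  have := Fintype.ofFinite A
  refine ⟨Fintype.card A + 1, by omega, ?_⟩
  have h : Fintype.card A ≤ Fintype.card (Blk (Fintype.card A + 1)) := by
    unfold Blk
    rw [Fintype.card_fun, Fintype.card_bool, Fintype.card_fin]
    exact (Nat.lt_two_pow_self.le).trans (Nat.pow_le_pow_right (by omega) (by omega))
  obtain ⟨f⟩ := Function.Embedding.nonempty_of_card_le h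
  exact ⟨f, f.injective⟩

end QGx

theorem prf_QG : S_QG := by
  intro hQA hQB hQC hQD hQE hQF m G C hR
  obtain ⟨ℓ, hℓ, e, he⟩ := QGx.exists_inj (Th m G)
  have : Nonempty (Th m G) := ⟨c0 m G⟩
  let d : Blk ℓ → Th m G := Function.invFun e
  have hd : ∀ a, d (e a) = a := Function.leftInverse_invFun he
  refine ⟨ℓ, fun a b c => e (rul (d a) (d b) (d c)), fun a => acc (d a), e (c0 m G),
    e (cb m G false), e (cb m G true), e (cr m G), max 3 (C + 1), hℓ, le_max_left _ _, ?_⟩
  intro x θ t b hH hB hG
  rw [QGx.uw_map] at hH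
  obtain ⟨h1, h2⟩ := hH
  simp only [List.length_map, List.getElem_map] at h1 h2
  have hH' : Hist rul (uw (c0 m G) (cb m G false) (cb m G true) (cr m G) (max 3 (C + 1)) x)
      (fun j => d (θ j)) := by
    refine ⟨fun j h => ?_, fun j => ?_⟩
    · show d (θ j) = _
      rw [h1 j h, hd]
    · show d (θ _) = _
      rw [h2 j, hd]
  refine hQF hQA hQB hQC hQD hQE m G (max 3 (C + 1)) x (fun j => d (θ j)) t b hR
    (le_max_left _ _) hH' ?_ hG
  intro s hs r
  refine (hB s hs r).trans_lt ?_
  apply Nat.pow_lt_pow_right (by omega)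
  exact Nat.mul_lt_mul_of_pos_right (lt_of_lt_of_le (Nat.lt_succ_self C) (le_max_right _ _))
    (Nat.succ_pos _)

end Pool.Agent.Work.MP_71c844_lc.Reg
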