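/-
Block REG (problem MP_71c844_lc), item RB: the words which are not matched.
Author: helper64.
-/
import Pool.Agent.Work.MP_71c844_lc.Reg.Stmts

set_option autoImplicit false

namespace Pool.Agent.Work.MP_71c844_lc.Reg

open Finset Pool.Agent.Work.MP_71c844_lc.Arr

namespace RBaux

/-- Change the description of the language. -/
theorem rp_congr {ℓ : ℕ} {R : RegularExpression Bool} {L L' : List (Blk ℓ) → Prop}
    (h : Rp R L) (hL : ∀ z, L z ↔ L' z) : Rp R L' := by
  intro w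
  rw [h w]
  constructor
  · rintro ⟨z, hz, hw⟩
    exact ⟨z, (hL z).1 hz, hw⟩
  · rintro ⟨z, hz, hw⟩
    exact ⟨z, (hL z).2 hz, hw⟩

theorem star_sg (hR : RA) (ℓ : ℕ) : Rp (.star (sg ℓ)) (fun _ : List (Blk ℓ) => True) := by
  have h := hR.star ℓ (allB ℓ)
  refine rp_congr h ?_
  intro z
  exact ⟨fun _ => trivial, fun _ a _ => hR.mem_allB ℓ a⟩

theorem any_ne (hR : RA) (ℓ : ℕ) (a : Blk ℓ) :
    Rp (anyOf ((allB ℓ).filter (fun b => decide (b ≠ a))))
      (fun z : List (Blk ℓ) => ∃ b, b ≠ a ∧ z = [b]) := by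
  refine rp_congr (hR.any ℓ _) ?_
  intro z
  constructor
  · rintro ⟨b, hb, hz⟩
    rw [List.mem_filter] at hb
    exact ⟨b, of_decide_eq_true hb.2, hz⟩
  · rintro ⟨b, hb, hz⟩
    exact ⟨b, List.mem_filter.2 ⟨hR.mem_allB ℓ b, decide_eq_true hb⟩, hz⟩

theorem hor_rp (hR : RA) (ℓ : ℕ) (u : List (Blk ℓ)) :
    Rp (hor u) (fun z : List (Blk ℓ) => ¬ u <+: z) := by
  induction u with
  | nil =>
    refine rp_congr (hR.zero ℓ) ?_
    intro z
    simp
  | cons a u ih =>
    have h1 := hR.comp ℓ _ _ _ _ (any_ne hR ℓ a) (star_sg hR ℓ)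
    have h2 := hR.comp ℓ _ _ _ _ (hR.one ℓ a) ih
    have h3 := hR.plus ℓ _ _ _ _ (hR.eps ℓ) (hR.plus ℓ _ _ _ _ h1 h2)
    refine rp_congr h3 ?_
    intro z
    cases z with
    | nil => simp
    | cons b z =>
      rw [List.cons_prefix_cons]
      constructor
      · rintro (h | ⟨z1, z2, hz, ⟨b', hb', hz1⟩, -⟩ | ⟨z1, z2, hz, hz1, hu⟩)
        · simp at h
        · subst hz1
          simp only [List.cons_append, List.nil_append, List.cons.injEq] at hz
          rintro ⟨hab, -⟩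
          exact hb' (by rw [← hz.1, hab])
        · subst hz1
          simp only [List.cons_append, List.nil_append, List.cons.injEq] at hz
          rintro ⟨-, h⟩
          exact hu (by rw [← hz.2]; exact h)
      · intro h
        by_cases hab : b = a
        · right; right
          refine ⟨[a], z, by rw [hab]; rfl, rfl, fun hu => h ⟨hab.symm, hu⟩⟩
        · right; left
          exact ⟨[b], z, rfl, ⟨b, hab, rfl⟩, trivial⟩

theorem ver_rp (hR : RA) (ℓ : ℕ) (Φ : Blk ℓ → Blk ℓ → Blk ℓ → Blk ℓ) (W : ℕ) (hW : 3 ≤ W)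
    (p : Blk ℓ × Blk ℓ × Blk ℓ) :
    Rp (ver Φ W p) (fun z : List (Blk ℓ) => ∃ (j : ℕ) (e : Blk ℓ), z[j]? = some p.1 ∧
      z[j + 1]? = some p.2.1 ∧ z[j + W - 1]? = some p.2.2 ∧ z[j + W]? = some e ∧
      e ≠ Φ p.1 p.2.1 p.2.2) := by
  have h1 := hR.comp ℓ _ _ _ _ (any_ne hR ℓ (Φ p.1 p.2.1 p.2.2)) (star_sg hR ℓ)
  have h2 := hR.comp ℓ _ _ _ _ (hR.one ℓ p.2.2) h1
  have h3 := hR.rep ℓ _ _ (W - 3) h2
  have h4 := hR.comp ℓ _ _ _ _ (hR.one ℓ p.2.1) h3
  have h5 := hR.comp ℓ _ _ _ _ (hR.one ℓ p.1) h4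
  have h6 := hR.comp ℓ _ _ _ _ (star_sg hR ℓ) h5
  refine rp_congr h6 ?_
  intro z
  constructor
  · rintro ⟨z1, z2, rfl, -, z3, z4, rfl, rfl, z5, z6, rfl, rfl, z7, z8, rfl, hz7, z9, z10, rfl,
      rfl, z11, z12, rfl, ⟨b, hb, rfl⟩, -⟩
    obtain ⟨k, rfl⟩ : ∃ k, W = k + 3 := ⟨W - 3, by omega⟩
    have hk : z7.length = k := by omega
    refine ⟨z1.length, b, ?_, ?_, ?_, ?_, hb⟩
    · rw [List.getElem?_append_right (le_refl _)]
      simp
    · rw [List.getElem?_append_right (by omega)]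
      simp
    · rw [List.getElem?_append_right (by omega)]
      have : z1.length + (k + 3) - 1 - z1.length = k + 1 + 1 := by omega
      rw [this]
      simp only [List.cons_append, List.nil_append, List.getElem?_cons_succ]
      rw [List.getElem?_append_right (by omega)]
      simp [hk]
    · rw [List.getElem?_append_right (by omega)]
      have : z1.length + (k + 3) - z1.length = k + 1 + 1 + 1 := by omega
      rw [this]
      simp only [List.cons_append, List.nil_append, List.getElem?_cons_succ]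
      rw [List.getElem?_append_right (by omega)]
      have : k + 1 - z7.length = 1 := by omega
      rw [this]
      simp
  · rintro ⟨j, e, ha, hb, hc, he, hne⟩
    obtain ⟨k, rfl⟩ : ∃ k, W = k + 3 := ⟨W - 3, by omega⟩
    have hlen : j + (k + 3) < z.length := by
      obtain ⟨h, -⟩ := List.getElem?_eq_some_iff.1 he
      exact h
    have d0 : z.drop j = p.1 :: z.drop (j + 1) := by
      obtain ⟨h, hh⟩ := List.getElem?_eq_some_iff.1 ha
      rw [List.drop_eq_getElem_cons h, hh]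
    have d1 : z.drop (j + 1) = p.2.1 :: z.drop (j + 1 + 1) := by
      obtain ⟨h, hh⟩ := List.getElem?_eq_some_iff.1 hb
      rw [List.drop_eq_getElem_cons h, hh]
    have d2 : z.drop (j + (k + 3) - 1) = p.2.2 :: z.drop (j + (k + 3)) := by
      obtain ⟨h, hh⟩ := List.getElem?_eq_some_iff.1 hc
      rw [List.drop_eq_getElem_cons h, hh]
      congr 2
    have d3 : z.drop (j + (k + 3)) = e :: z.drop (j + (k + 3) + 1) := by
      obtain ⟨h, hh⟩ := List.getElem?_eq_some_iff.1 he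
      rw [List.drop_eq_getElem_cons h, hh]
    refine ⟨z.take j, z.drop j, (List.take_append_drop j z).symm, trivial, [p.1], z.drop (j + 1),
      d0, rfl, [p.2.1], z.drop (j + 1 + 1), d1, rfl, (z.drop (j + 1 + 1)).take k,
      (z.drop (j + 1 + 1)).drop k, (List.take_append_drop k _).symm, ?_, [p.2.2],
      z.drop (j + (k + 3)), ?_, rfl, [e], z.drop (j + (k + 3) + 1), d3, ⟨e, hne, rfl⟩, trivial⟩
    · rw [List.length_take, List.length_drop]
      omega
    · rw [List.drop_drop]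
      have : j + 1 + 1 + k = j + (k + 3) - 1 := by omega
      rw [this]
      exact d2

end RBaux

theorem prf_RB : S_RB := by
  intro hR ℓ hℓ Φ ac u hu w
  have hh := RBaux.hor_rp hR ℓ u
  have hs := hR.star ℓ ((allB ℓ).filter (fun b => !ac b))
  have hf := hR.fold ℓ ((Finset.univ : Finset (Blk ℓ × Blk ℓ × Blk ℓ)).toList)
    (fun p => ver Φ u.length p) _ (fun p _ => RBaux.ver_rp hR ℓ Φ u.length hu p)
  have hp := hR.plus ℓ _ _ _ _ hh (hR.plus ℓ _ _ _ _ hs hf)
  have hm := hR.mis ℓ hℓ w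
  have key : w ∈ (Rx Φ ac u).matches' ↔ w ∈ (mis ℓ).matches' ∨
      w ∈ (RegularExpression.plus (hor u) (.plus (.star (anyOf ((allB ℓ).filter (fun b => !ac b))))
        (((Finset.univ : Finset (Blk ℓ × Blk ℓ × Blk ℓ)).toList).foldr
          (fun p R => .plus (ver Φ u.length p) R) .zero))).matches' := Iff.rfl
  rw [key, hm, hp w, not_or, not_not]
  constructor
  · rintro ⟨⟨z, hz⟩, h⟩
    refine ⟨z, hz, ?_, ?_, ?_⟩
    · by_contra hc
      exact h ⟨z, Or.inl hc, hz⟩
    · by_contra hc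
      refine h ⟨z, Or.inr (Or.inl ?_), hz⟩
      intro a ha
      refine List.mem_filter.2 ⟨hR.mem_allB ℓ a, ?_⟩
      cases hac : ac a with
      | false => rfl
      | true => exact absurd ⟨a, ha, hac⟩ hc
    · intro j a b c e ha hb hc he
      by_contra hne
      refine h ⟨z, Or.inr (Or.inr ⟨(a, b, c), ?_, j, e, ha, hb, hc, he, hne⟩), hz⟩
      exact Finset.mem_toList.2 (Finset.mem_univ _)
  · rintro ⟨z, hz, hpre, ⟨a, ha, hac⟩, hrul⟩
    refine ⟨⟨z, hz⟩, ?_⟩
    rintro ⟨z', hL, hz'⟩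
    have hzz : z' = z := hR.inj ℓ hℓ z' z (by rw [← hz, ← hz'])
    subst hzz
    rcases hL with hL | hL | ⟨p, -, j, e, h1, h2, h3, h4, h5⟩
    · exact hL hpre
    · have := (List.mem_filter.1 (hL a ha)).2
      rw [hac] at this
      exact absurd this (by decide)
    · exact h5 (hrul j _ _ _ e h1 h2 h3 h4)

end Pool.Agent.Work.MP_71c844_lc.Reg
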