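/-
Block REG (problem MP_71c844_lc): the expression and the history (RC), histories exist (RD).
Author: helper73.
-/
import Pool.Agent.Work.MP_71c844_lc.Reg.Stmts

set_option autoImplicit false

namespace Pool.Agent.Work.MP_71c844_lc.Reg

open Finset Pool.Agent.Work.MP_71c844_lc.Arr

namespace RCD

/-- The history, by well-founded recursion. -/
def th {Θ : Type} (Φ : Θ → Θ → Θ → Θ) (u : List Θ) (hu : 2 ≤ u.length) : ℕ → Θ
  | n =>
    if h : n < u.length then u[n]
    else Φ (th Φ u hu (n - u.length)) (th Φ u hu (n - u.length + 1)) (th Φ u hu (n - 1))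
termination_by n => n
decreasing_by
  all_goals omega

theorem th_lt {Θ : Type} (Φ : Θ → Θ → Θ → Θ) (u : List Θ) (hu : 2 ≤ u.length) (n : ℕ)
    (h : n < u.length) : th Φ u hu n = u[n] := by
  rw [th, dif_pos h]

theorem th_ge {Θ : Type} (Φ : Θ → Θ → Θ → Θ) (u : List Θ) (hu : 2 ≤ u.length) (n : ℕ)
    (h : ¬ n < u.length) : th Φ u hu n =
    Φ (th Φ u hu (n - u.length)) (th Φ u hu (n - u.length + 1)) (th Φ u hu (n - 1)) := by
  rw [th, dif_neg h]

/-- A word which begins with `u` and follows the rule is a beginning of the history. -/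
theorem begin_of {Θ : Type} (Φ : Θ → Θ → Θ → Θ) (u z : List Θ) (hu : 2 ≤ u.length)
    (θ : ℕ → Θ) (hθ : Hist Φ u θ) (hz : u <+: z)
    (hr : ∀ (j : ℕ) (a b c e : Θ), z[j]? = some a → z[j + 1]? = some b →
      z[j + u.length - 1]? = some c → z[j + u.length]? = some e → e = Φ a b c) :
    ∀ j : ℕ, j < z.length → z[j]? = some (θ j) := by
  intro j
  induction j using Nat.strong_induction_on with
  | _ j ih =>
    intro hj
    by_cases hju : j < u.length
    · have h1 : z[j]? = u[j]? := by
        obtain ⟨t, rfl⟩ := hz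
        exact List.getElem?_append_left hju
      rw [h1, List.getElem?_eq_getElem hju, hθ.1 j hju]
    · obtain ⟨i, rfl⟩ : ∃ i, j = i + u.length := ⟨j - u.length, by omega⟩
      have ha := ih i (by omega) (by omega)
      have hb := ih (i + 1) (by omega) (by omega)
      have hc := ih (i + u.length - 1) (by omega) (by omega)
      have he : z[i + u.length]? = some z[i + u.length] := List.getElem?_eq_getElem hj
      have h2 := hr i _ _ _ _ ha hb hc he
      rw [he, h2, hθ.2 i]

end RCD

theorem prf_RC : S_RC := by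
  intro hRB hRA ℓ hℓ Φ ac u hu θ hθ
  constructor
  · rintro ⟨w, hw⟩
    obtain ⟨z, -, hz, ⟨a, haz, haa⟩, hr⟩ := (hRB hRA ℓ hℓ Φ ac u hu w).1 hw
    obtain ⟨j, hj, hja⟩ := List.getElem_of_mem haz
    have h1 := RCD.begin_of Φ u z (by omega) θ hθ hz hr j hj
    rw [List.getElem?_eq_getElem hj, hja] at h1
    refine ⟨j, ?_⟩
    rw [← Option.some.inj h1]
    exact haa
  · rintro ⟨j, hj⟩
    set n : ℕ := max (j + 1) u.length with hn
    have hjn : j < n := by omega
    have hun : u.length ≤ n := by omega
    refine ⟨unb ((List.range n).map θ), (hRB hRA ℓ hℓ Φ ac u hu _).2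
      ⟨(List.range n).map θ, rfl, ?_, ⟨θ j, ?_, hj⟩, ?_⟩⟩
    · have h1 : u = ((List.range n).map θ).take u.length := by
        apply List.ext_getElem
        · simp [hun]
        · intro i h2 h3
          simp [hθ.1 i h2]
      rw [h1]
      exact List.take_prefix _ _
    · exact List.mem_map.2 ⟨j, List.mem_range.2 hjn, rfl⟩
    · have key : ∀ (i : ℕ) (a : Blk ℓ), ((List.range n).map θ)[i]? = some a → a = θ i := by
        intro i a h
        rw [List.getElem?_map] at h
        obtain ⟨k, hk, hka⟩ := Option.map_eq_some_iff.1 h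
        have h2 := List.getElem?_eq_some_iff.1 hk
        obtain ⟨h3, h4⟩ := h2
        rw [List.getElem_range] at h4
        rw [← hka, ← h4]
      intro i a b c e ha hb hc he
      rw [key _ _ ha, key _ _ hb, key _ _ hc, key _ _ he]
      exact hθ.2 i

theorem prf_RD : S_RD := by
  intro Θ Φ u hu
  refine ⟨RCD.th Φ u hu, fun j h => RCD.th_lt Φ u hu j h, fun j => ?_⟩
  rw [RCD.th_ge Φ u hu (j + u.length) (by omega)]
  have h1 : j + u.length - u.length = j := by omega
  rw [h1]

end Pool.Agent.Work.MP_71c844_lc.Reg
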