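/-
Block REG (problem MP_71c844_lc): the expressions have star height one.  Author: helper14.
-/
import Pool.Agent.Work.MP_71c844_lc.Reg.Stmts

set_option autoImplicit false

namespace Pool.Agent.Work.MP_71c844_lc.Reg

open Finset Pool.Agent.Work.MP_71c844_lc.Arr

namespace SH

theorem wre_sh (w : List Bool) : starHeight (wre w) = 0 := by
  induction w with
  | nil => rfl
  | cons b w ih =>
    show max 0 (starHeight (wre w)) = 0
    rw [ih]
    rfl

theorem anyOf_sh {ℓ : ℕ} (S : List (Blk ℓ)) : starHeight (anyOf S) = 0 := by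
  induction S with
  | nil => rfl
  | cons a S ih =>
    show max (starHeight (wre (List.ofFn a))) (starHeight (anyOf S)) = 0
    rw [ih, wre_sh]
    rfl

theorem sg_sh (ℓ : ℕ) : starHeight (sg ℓ) = 0 := anyOf_sh _

theorem star_sh (P : RegularExpression Bool) : starHeight (.star P) = starHeight P + 1 := rfl

theorem plus_sh (P Q : RegularExpression Bool) :
    starHeight (.plus P Q) = max (starHeight P) (starHeight Q) := rfl

theorem comp_sh (P Q : RegularExpression Bool) :
    starHeight (.comp P Q) = max (starHeight P) (starHeight Q) := rfl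

theorem rep_sh (P Q : RegularExpression Bool) (n k : ℕ) (hP : starHeight P ≤ k)
    (hQ : starHeight Q ≤ k) : starHeight (rep P Q n) ≤ k := by
  induction n with
  | zero => exact hQ
  | succ n ih =>
    show max (starHeight P) (starHeight (rep P Q n)) ≤ k
    exact max_le hP ih

theorem fold_sh {β : Type} (S : List β) (f : β → RegularExpression Bool) (k : ℕ)
    (h : ∀ p ∈ S, starHeight (f p) ≤ k) :
    starHeight (S.foldr (fun p R => .plus (f p) R) .zero) ≤ k := by
  induction S with
  | nil => exact Nat.zero_le _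
  | cons a S ih =>
    show max (starHeight (f a)) (starHeight (S.foldr (fun p R => .plus (f p) R) .zero)) ≤ k
    exact max_le (h a List.mem_cons_self) (ih fun p hp => h p (List.mem_cons_of_mem _ hp))

theorem mis_sh (ℓ : ℕ) : starHeight (mis ℓ) ≤ 1 := by
  unfold mis
  rw [comp_sh, star_sh, sg_sh]
  refine max_le le_rfl (fold_sh _ _ _ fun k _ => rep_sh _ _ _ _ ?_ ?_)
  · show max 0 0 ≤ 1
    norm_num
  · show max 0 0 ≤ 1
    norm_num

theorem hor_sh {ℓ : ℕ} (u : List (Blk ℓ)) : starHeight (hor u) ≤ 1 := by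
  induction u with
  | nil => exact Nat.zero_le _
  | cons a u ih =>
    unfold hor
    rw [plus_sh, plus_sh, comp_sh, comp_sh, star_sh, sg_sh, anyOf_sh, wre_sh]
    refine max_le (Nat.zero_le _) (max_le ?_ (max_le (Nat.zero_le _) ih))
    exact max_le (Nat.zero_le _) le_rfl

theorem ver_sh {ℓ : ℕ} (Φ : Blk ℓ → Blk ℓ → Blk ℓ → Blk ℓ) (W : ℕ)
    (p : Blk ℓ × Blk ℓ × Blk ℓ) : starHeight (ver Φ W p) ≤ 1 := by
  unfold ver
  rw [comp_sh, comp_sh, comp_sh, star_sh, sg_sh, wre_sh, wre_sh]
  refine max_le le_rfl (max_le (Nat.zero_le _) (max_le (Nat.zero_le _) ?_))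
  refine rep_sh _ _ _ _ ?_ ?_
  · rw [sg_sh]
    exact Nat.zero_le _
  · rw [comp_sh, comp_sh, wre_sh, anyOf_sh, star_sh, sg_sh]
    exact max_le (Nat.zero_le _) (max_le (Nat.zero_le _) le_rfl)

end SH

open SH in
/-- The star height of the expression. -/
theorem Rx_sh {ℓ : ℕ} (Φ : Blk ℓ → Blk ℓ → Blk ℓ → Blk ℓ) (ac : Blk ℓ → Bool)
    (u : List (Blk ℓ)) : starHeight (Rx Φ ac u) ≤ 1 := by
  unfold Rx
  rw [plus_sh, plus_sh, plus_sh, star_sh, anyOf_sh]
  exact max_le (mis_sh _) (max_le (hor_sh _) (max_le le_rfl (fold_sh _ _ _ fun p _ => ver_sh _ _ _)))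

end Pool.Agent.Work.MP_71c844_lc.Reg
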