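/-
Block REG (problem MP_71c844_lc), item TA: the code of the expression Rx is given by a template.
Author: helper85.
-/
import Pool.Agent.Work.MP_71c844_lc.Reg.Stmts

set_option autoImplicit false

namespace Pool.Agent.Work.MP_71c844_lc.Reg

open Finset Pool.Agent.Work.MP_71c844_lc.Arr

namespace TA

/-- Constants. -/
theorem IsT_const (u : List Bool) : IsT (fun _ => u) := by
  refine ⟨[(u, [], [])], ?_, ?_⟩
  · intro s hs
    rw [List.mem_singleton] at hs
    subst hs
    rfl
  · intro x
    have h : x.flatMap (fun b => if b then ([] : List Bool) else []) = [] := by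
      rw [List.flatMap_eq_nil_iff]
      intro b _
      cases b <;> rfl
    simp only [ev, List.flatMap_cons, List.flatMap_nil, List.append_nil, seg]
    rw [h, List.append_nil]

/-- Concatenation. -/
theorem IsT_append {f g : List Bool → List Bool} (hf : IsT f) (hg : IsT g) :
    IsT (fun x => f x ++ g x) := by
  obtain ⟨τ, h1, h2⟩ := hf
  obtain ⟨σ, h3, h4⟩ := hg
  refine ⟨τ ++ σ, ?_, ?_⟩
  · intro s hs
    rcases List.mem_append.1 hs with h | h
    · exact h1 s h
    · exact h3 s h
  · intro x
    simp only [ev, List.flatMap_append]
    rw [h2 x, h4 x]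
    rfl

/-- A word for every letter. -/
theorem IsT_flat (v w : List Bool) (h : v.length = w.length) :
    IsT (fun x => x.flatMap (fun b => if b then w else v)) := by
  refine ⟨[([], v, w)], ?_, ?_⟩
  · intro s hs
    rw [List.mem_singleton] at hs
    subst hs
    exact h
  · intro x
    simp only [ev, List.flatMap_cons, List.flatMap_nil, List.append_nil, seg, List.nil_append]

/-- Powers. -/
theorem flatten_rep_mul (v : List Bool) (a : ℕ) (x : List Bool) :
    x.flatMap (fun b => if b then (List.replicate a v).flatten
      else (List.replicate a v).flatten) = (List.replicate (a * x.length) v).flatten := by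
  induction x with
  | nil => simp
  | cons b x ih =>
    rw [List.flatMap_cons, ih]
    have h : (if b then (List.replicate a v).flatten else (List.replicate a v).flatten)
        = (List.replicate a v).flatten := by cases b <;> rfl
    rw [h, ← List.flatten_append, List.replicate_append_replicate]
    congr 2
    rw [List.length_cons]
    ring

/-- Powers. -/
theorem IsT_rep (v : List Bool) (a b : ℕ) :
    IsT (fun x => (List.replicate (a * x.length + b) v).flatten) := by
  have h1 := IsT_append (IsT_flat ((List.replicate a v).flatten) ((List.replicate a v).flatten) rfl)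
    (IsT_const ((List.replicate b v).flatten))
  have h2 : (fun x : List Bool => (List.replicate (a * x.length + b) v).flatten) =
      (fun x => x.flatMap (fun b => if b then (List.replicate a v).flatten
      else (List.replicate a v).flatten) ++ (List.replicate b v).flatten) := by
    funext x
    rw [flatten_rep_mul, ← List.flatten_append, List.replicate_append_replicate]
  rw [h2]
  exact h1

/-- The code of a repetition. -/
theorem code_rep (P Q : RegularExpression Bool) (n : ℕ) :
    code (rep P Q n) =
      (List.replicate n (true :: false :: true :: code P)).flatten ++ code Q := by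
  induction n with
  | zero => simp [rep]
  | succ n ih =>
    rw [List.replicate_succ, List.flatten_cons, rep, code, ih]
    simp

/-- The part of the code for one letter of the first word. -/
noncomputable def hw {ℓ : ℕ} (a : Blk ℓ) : List Bool :=
  true :: false :: false :: (code .epsilon ++ (true :: false :: false ::
    (code (.comp (anyOf ((allB ℓ).filter (fun b => decide (b ≠ a)))) (.star (sg ℓ))) ++
      (true :: false :: true :: code (wre (List.ofFn a))))))

theorem code_hor {ℓ : ℕ} (u : List (Blk ℓ)) :
    code (hor u) = u.flatMap hw ++ code .zero := by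
  induction u with
  | nil => rfl
  | cons a u ih =>
    rw [List.flatMap_cons, List.append_assoc, ← ih]
    simp only [hor, hw, code, List.cons_append, List.append_assoc]

theorem len_wre (w : List Bool) : (code (wre w)).length = 6 * w.length + 3 := by
  induction w with
  | nil => rfl
  | cons b w ih =>
    have h : wre (b :: w) = .comp (.char b) (wre w) := rfl
    rw [h]
    simp only [code, List.length_cons, List.length_append, List.length_nil, ih]
    ring

theorem len_anyOf {ℓ : ℕ} (S : List (Blk ℓ)) :
    (code (anyOf S)).length = (6 * ℓ + 6) * S.length + 3 := by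
  induction S with
  | nil => rfl
  | cons a S ih =>
    have h : anyOf (a :: S) = .plus (wre (List.ofFn a)) (anyOf S) := rfl
    rw [h]
    simp only [code, List.length_cons, List.length_append, ih, len_wre, List.length_ofFn]
    ring

theorem len_filter {ℓ : ℕ} (a : Blk ℓ) :
    ((allB ℓ).filter (fun b => decide (b ≠ a))).length = (allB ℓ).length - 1 := by
  have hn : (allB ℓ).Nodup := Finset.nodup_toList _
  have hm : a ∈ allB ℓ := by
    unfold allB
    simp
  have h1 := hn.erase_eq_filter a
  have h2 : (allB ℓ).filter (fun b => decide (b ≠ a)) = (allB ℓ).erase a := by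
    rw [h1]
    apply List.filter_congr
    intro b _
    by_cases h : b = a
    · simp [h]
    · simp [h]
  rw [h2, List.length_erase_of_mem hm]

theorem len_hw {ℓ : ℕ} (a b : Blk ℓ) : (hw a).length = (hw b).length := by
  unfold hw
  simp only [code, List.length_cons, List.length_append, len_anyOf, len_wre, len_filter,
    List.length_ofFn]

theorem flatMap_replicate' {α : Type} (f : α → List Bool) (n : ℕ) (a : α) :
    (List.replicate n a).flatMap f = (List.replicate n (f a)).flatten := by
  induction n with
  | zero => rfl
  | succ n ih =>
    rw [List.replicate_succ, List.replicate_succ, List.flatMap_cons, List.flatten_cons, ih]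

theorem uw_length {Θ : Type} (c₀ c₁ c₂ c₃ : Θ) (K : ℕ) (hK : 1 ≤ K) (x : List Bool) :
    (uw c₀ c₁ c₂ c₃ K x).length = K * (x.length + 1) := by
  unfold uw
  obtain ⟨k, rfl⟩ : ∃ k, K = k + 1 := ⟨K - 1, by omega⟩
  simp only [List.length_cons, List.length_append, List.length_map, List.length_replicate,
    Nat.add_sub_cancel]
  ring

theorem IsT_hor {ℓ : ℕ} (a₀ a₁ a₂ a₃ : Blk ℓ) (K : ℕ) :
    IsT (fun x => code (hor (uw a₀ a₁ a₂ a₃ K x))) := by
  have h : (fun x => code (hor (uw a₀ a₁ a₂ a₃ K x))) = (fun x : List Bool =>
      (hw a₀ ++ (x.flatMap (fun b => if b then hw a₂ else hw a₁) ++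
        (List.replicate ((K - 1) * x.length + (K - 1)) (hw a₃)).flatten)) ++ code .zero) := by
    funext x
    rw [code_hor]
    congr 1
    unfold uw
    rw [List.flatMap_cons, List.flatMap_append, flatMap_replicate', List.flatMap_map]
    have e : (fun b => hw (if b = true then a₂ else a₁)) =
        (fun b => if b = true then hw a₂ else hw a₁) := by
      funext b
      cases b <;> rfl
    have e2 : (K - 1) * (x.length + 1) = (K - 1) * x.length + (K - 1) := by ring
    rw [e2]
    simp only [e]
  rw [h]
  exact IsT_append (IsT_append (IsT_const _) (IsT_append (IsT_flat _ _ (len_hw _ _))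
    (IsT_rep _ _ _))) (IsT_const _)

theorem IsT_ver {ℓ : ℕ} (Φ : Blk ℓ → Blk ℓ → Blk ℓ → Blk ℓ) (a₀ a₁ a₂ a₃ : Blk ℓ) (K : ℕ)
    (hK : 3 ≤ K) (p : Blk ℓ × Blk ℓ × Blk ℓ) :
    IsT (fun x => code (ver Φ (uw a₀ a₁ a₂ a₃ K x).length p)) := by
  have h : (fun x => code (ver Φ (uw a₀ a₁ a₂ a₃ K x).length p)) = (fun x : List Bool =>
      (true :: false :: true :: (code (.star (sg ℓ)) ++ (true :: false :: true ::
        (code (wre (List.ofFn p.1)) ++ (true :: false :: true ::
        code (wre (List.ofFn p.2.1))))))) ++
      ((List.replicate (K * x.length + (K - 3)) (true :: false :: true :: code (sg ℓ))).flatten ++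
        code (.comp (wre (List.ofFn p.2.2))
      (.comp (anyOf ((allB ℓ).filter (fun b => decide (b ≠ Φ p.1 p.2.1 p.2.2))))
        (.star (sg ℓ)))))) := by
    funext x
    rw [uw_length a₀ a₁ a₂ a₃ K (by omega) x]
    have e2 : K * (x.length + 1) - 3 = K * x.length + (K - 3) := by
      rw [Nat.mul_add, Nat.mul_one]
      omega
    rw [← code_rep, ← e2]
    simp only [ver, code, List.cons_append, List.append_assoc]
  rw [h]
  exact IsT_append (IsT_const _) (IsT_append (IsT_rep _ _ _) (IsT_const _))

theorem IsT_fold {β : Type} (S : List β) (f : β → List Bool → RegularExpression Bool)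
    (hf : ∀ p, IsT (fun x => code (f p x))) :
    IsT (fun x => code (S.foldr (fun p R => .plus (f p x) R) .zero)) := by
  induction S with
  | nil => exact IsT_const _
  | cons p S ih =>
    have h : (fun x => code ((p :: S).foldr (fun p R => .plus (f p x) R) .zero)) =
        (fun x => [true, false, false] ++ (code (f p x) ++
          code (S.foldr (fun p R => .plus (f p x) R) .zero))) := by
      funext x
      rw [List.foldr_cons, code]
      rfl
    rw [h]
    exact IsT_append (IsT_const _) (IsT_append (hf p) ih)

end TA

/-- Item TA. -/
theorem prf_TA : S_TA := by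
  intro ℓ Φ ac a₀ a₁ a₂ a₃ K hK
  have h : (fun x => code (Rx Φ ac (uw a₀ a₁ a₂ a₃ K x))) = (fun x : List Bool =>
      (true :: false :: false :: (code (mis ℓ) ++ [true, false, false])) ++
      (code (hor (uw a₀ a₁ a₂ a₃ K x)) ++ ((true :: false :: false ::
        code (.star (anyOf ((allB ℓ).filter (fun b => !ac b))))) ++
        code (((Finset.univ : Finset (Blk ℓ × Blk ℓ × Blk ℓ)).toList).foldr
      (fun p R => .plus (ver Φ (uw a₀ a₁ a₂ a₃ K x).length p) R) .zero)))) := by
    funext x
    simp only [Rx, code, List.cons_append, List.append_assoc, List.nil_append]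
  rw [h]
  exact TA.IsT_append (TA.IsT_const _) (TA.IsT_append (TA.IsT_hor _ _ _ _ _)
    (TA.IsT_append (TA.IsT_const _) (TA.IsT_fold _ _ (fun p => TA.IsT_ver Φ _ _ _ _ K hK p))))

end Pool.Agent.Work.MP_71c844_lc.Reg
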