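/-
Block REG (problem MP_71c844_lc): item TB, every template has a code.  Author: helper82.
-/
import Pool.Agent.Work.MP_71c844_lc.Reg.Stmts

set_option autoImplicit false

namespace Pool.Agent.Work.MP_71c844_lc.Reg

open Finset Pool.Agent.Work.MP_71c844_lc.Arr

namespace TB

/-- The number of a word. -/
def nm (u : List Bool) : ℕ := ofd 2 u.length (fun i => if u[i]? = some true then 1 else 0)

theorem dg_nm (D : D1) (u : List Bool) (i : ℕ) (h : i < u.length) :
    dg 2 i (nm u) = if u[i]? = some true then 1 else 0 := by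
  rw [nm, D.dg_ofd 2 u.length i _ _ h]
  intro j _
  split <;> omega

theorem flat_get (L : List (List Bool)) (k : ℕ) (hk : k < L.length) (i : ℕ)
    (h1 : (L.take k).flatten.length ≤ i)
    (h2 : i < (L.take k).flatten.length + (L[k]).length) :
    L.flatten[i]? = (L[k])[i - (L.take k).flatten.length]? := by
  have e : L = L.take k ++ L[k] :: L.drop (k + 1) := by
    rw [List.cons_getElem_drop_succ, List.take_append_drop]
  have e2 : L.flatten = (L.take k).flatten ++ (L[k] ++ (L.drop (k + 1)).flatten) := by
    conv_lhs => rw [e]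
    rw [List.flatten_append, List.flatten_cons]
  rw [e2, List.getElem?_append_right h1, List.getElem?_append_left (by omega)]

theorem flat_len (L : List (List Bool)) (k : ℕ) (hk : k < L.length) :
    (L.take (k + 1)).flatten.length = (L.take k).flatten.length + (L[k]).length := by
  rw [List.take_succ_eq_append_getElem hk, List.flatten_append, List.length_append]
  simp

/-- Length of the first `k` words, when all words have the length `l`. -/
theorem flat_len_const (L : List (List Bool)) (l : ℕ) (h : ∀ z ∈ L, z.length = l) (k : ℕ)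
    (hk : k ≤ L.length) : (L.take k).flatten.length = k * l := by
  induction k with
  | zero => simp
  | succ k ih =>
    rw [flat_len L k (by omega), ih (by omega), h _ (List.getElem_mem _)]
    ring

/-- Letters of the second part of a segment. -/
theorem flatMap_get (x v w : List Bool) (h : v.length = w.length) (i : ℕ)
    (hi : i < x.length * v.length) :
    (x.flatMap (fun b => if b then w else v))[i]? =
      if x[i / v.length]? = some true then w[i % v.length]? else v[i % v.length]? := by
  have hl : 0 < v.length := by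
    rcases Nat.eq_zero_or_pos v.length with h0 | h0
    · rw [h0] at hi; omega
    · exact h0
  have hk : i / v.length < x.length := by
    rw [Nat.div_lt_iff_lt_mul hl]; exact hi
  set L : List (List Bool) := x.map (fun b => if b then w else v) with hL
  have hLl : L.length = x.length := by simp [hL]
  have hkL : i / v.length < L.length := by rw [hLl]; exact hk
  have hall : ∀ z ∈ L, z.length = v.length := by
    intro z hz
    rw [hL, List.mem_map] at hz
    obtain ⟨b, _, rfl⟩ := hz
    cases b <;> simp [h]
  have e1 : (L.take (i / v.length)).flatten.length = (i / v.length) * v.length :=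
    flat_len_const L v.length hall _ (le_of_lt hkL)
  have hdm : (i / v.length) * v.length + i % v.length = i := by
    rw [Nat.mul_comm]; exact Nat.div_add_mod i v.length
  have hml := Nat.mod_lt i hl
  have e2 := flat_get L (i / v.length) hkL i (by rw [e1]; omega)
    (by rw [e1, hall _ (List.getElem_mem _)]; omega)
  have e3 : i - (i / v.length) * v.length = i % v.length := by omega
  have e4 : L[i / v.length] = if x[i / v.length] then w else v := by
    simp [hL]
  rw [List.flatMap_def, ← hL, e2, e1, e3, e4]
  have e5 : x[i / v.length]? = some (x[i / v.length]) := List.getElem?_eq_getElem hk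
  rw [e5]
  cases hb : x[i / v.length] <;> simp

theorem seg_length (s : List Bool × List Bool × List Bool) (h : s.2.1.length = s.2.2.length)
    (x : List Bool) : (seg s x).length = s.1.length + x.length * s.2.1.length := by
  rw [seg, List.length_append, List.length_flatMap]
  congr 1
  induction x with
  | nil => simp
  | cons b x ih =>
    rw [List.map_cons, List.sum_cons, ih, List.length_cons]
    have : (if b = true then s.2.2 else s.2.1).length = s.2.1.length := by
      cases b <;> simp [h]
    rw [this]; ring

/-- The digits of the code. -/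
def fd (τ : Tmpl) (j : ℕ) : ℕ :=
  let s := (τ[j / 5]?).getD ([], [], [])
  if j % 5 = 0 then s.1.length
  else if j % 5 = 1 then nm s.1
  else if j % 5 = 2 then s.2.1.length
  else if j % 5 = 3 then nm s.2.1
  else nm s.2.2

/-- The base. -/
def bs (τ : Tmpl) : ℕ :=
  τ.length + 1 + (τ.map (fun s => s.1.length + nm s.1 + s.2.1.length + nm s.2.1 + nm s.2.2)).sum

theorem nm_nil : nm [] = 0 := by simp [nm, ofd]

theorem fd_lt (τ : Tmpl) (j : ℕ) : fd τ j < bs τ := by
  by_cases hj : j / 5 < τ.length
  · have hs : (τ[j / 5]?).getD ([], [], []) = τ[j / 5] := by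
      rw [List.getElem?_eq_getElem hj]; rfl
    have hm : (fun s : List Bool × List Bool × List Bool =>
        s.1.length + nm s.1 + s.2.1.length + nm s.2.1 + nm s.2.2) (τ[j / 5]) ≤
        (τ.map (fun s => s.1.length + nm s.1 + s.2.1.length + nm s.2.1 + nm s.2.2)).sum :=
      List.single_le_sum (fun _ _ => Nat.zero_le _) _
        (List.mem_map.2 ⟨_, List.getElem_mem _, rfl⟩)
    dsimp only at hm
    unfold fd bs
    rw [hs]
    dsimp only
    split_ifs <;> omega
  · have hs : (τ[j / 5]?).getD ([], [], []) = ([], [], []) := by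
      rw [List.getElem?_eq_none (by omega)]; rfl
    unfold fd bs
    rw [hs]
    dsimp only
    rw [nm_nil]
    simp

/-- The code. -/
def cd (τ : Tmpl) : ℕ := ofd (bs τ) (5 * bs τ) (fd τ)

theorem dg_cd (D : D1) (τ : Tmpl) (j : ℕ) (hj : j < 5 * bs τ) : dg (bs τ) j (cd τ) = fd τ j :=
  D.dg_ofd _ _ _ _ (fun i _ => fd_lt τ i) hj

theorem fd0 (τ : Tmpl) (k : ℕ) (h : k < τ.length) : fd τ (5 * k) = (τ[k]).1.length := by
  have e : 5 * k / 5 = k := by omega
  have e2 : 5 * k % 5 = 0 := by omega
  unfold fd
  simp only [e, e2]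
  rw [List.getElem?_eq_getElem h]
  simp

theorem fd1 (τ : Tmpl) (k : ℕ) (h : k < τ.length) : fd τ (5 * k + 1) = nm (τ[k]).1 := by
  have e : (5 * k + 1) / 5 = k := by omega
  have e2 : (5 * k + 1) % 5 = 1 := by omega
  unfold fd
  simp only [e, e2]
  rw [List.getElem?_eq_getElem h]
  simp

theorem fd2 (τ : Tmpl) (k : ℕ) (h : k < τ.length) : fd τ (5 * k + 2) = (τ[k]).2.1.length := by
  have e : (5 * k + 2) / 5 = k := by omega
  have e2 : (5 * k + 2) % 5 = 2 := by omega
  unfold fd
  simp only [e, e2]
  rw [List.getElem?_eq_getElem h]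
  simp

theorem fd3 (τ : Tmpl) (k : ℕ) (h : k < τ.length) : fd τ (5 * k + 3) = nm (τ[k]).2.1 := by
  have e : (5 * k + 3) / 5 = k := by omega
  have e2 : (5 * k + 3) % 5 = 3 := by omega
  unfold fd
  simp only [e, e2]
  rw [List.getElem?_eq_getElem h]
  simp

theorem fd4 (τ : Tmpl) (k : ℕ) (h : k < τ.length) : fd τ (5 * k + 4) = nm (τ[k]).2.2 := by
  have e : (5 * k + 4) / 5 = k := by omega
  have e2 : (5 * k + 4) % 5 = 4 := by omega
  unfold fd
  simp only [e, e2]
  rw [List.getElem?_eq_getElem h]
  simp

theorem fd0' (τ : Tmpl) (k : ℕ) (h : τ.length ≤ k) : fd τ (5 * k) = 0 := by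
  have e : 5 * k / 5 = k := by omega
  have e2 : 5 * k % 5 = 0 := by omega
  unfold fd
  simp only [e, e2]
  rw [List.getElem?_eq_none h]
  simp

theorem fd2' (τ : Tmpl) (k : ℕ) (h : τ.length ≤ k) : fd τ (5 * k + 2) = 0 := by
  have e : (5 * k + 2) / 5 = k := by omega
  have e2 : (5 * k + 2) % 5 = 2 := by omega
  unfold fd
  simp only [e, e2]
  rw [List.getElem?_eq_none h]
  simp

/-- The words of the segments. -/
def ws (τ : Tmpl) (x : List Bool) : List (List Bool) := τ.map (fun s => seg s x)

theorem ws_len (τ : Tmpl) (x : List Bool) : (ws τ x).length = τ.length := by simp [ws]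

theorem off_eq (D : D1) (τ : Tmpl) (hτ : TOk τ) (x : List Bool) (k : ℕ) (hk : k ≤ bs τ) :
    off x.length (bs τ) (cd τ) k = ((ws τ x).take k).flatten.length := by
  induction k with
  | zero => simp [off]
  | succ k ih =>
    have e : off x.length (bs τ) (cd τ) (k + 1) = off x.length (bs τ) (cd τ) k +
        (dg (bs τ) (5 * k) (cd τ) + x.length * dg (bs τ) (5 * k + 2) (cd τ)) := by
      rw [off, sum_range_succ, off]
    rw [e, ih (by omega), dg_cd D τ _ (by omega), dg_cd D τ _ (by omega)]
    by_cases h : k < τ.length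
    · rw [flat_len (ws τ x) k (by rw [ws_len]; exact h), fd0 τ k h, fd2 τ k h]
      have : (ws τ x)[k]'(by rw [ws_len]; exact h) = seg (τ[k]) x := by simp [ws]
      rw [this, seg_length _ (hτ _ (List.getElem_mem _))]
    · rw [fd0' τ k (by omega), fd2' τ k (by omega)]
      rw [List.take_of_length_le (by rw [ws_len]; omega),
        List.take_of_length_le (by rw [ws_len]; omega)]
      simp

theorem off_mono (n q T : ℕ) {a b : ℕ} (h : a ≤ b) : off n q T a ≤ off n q T b := by
  unfold off
  exact sum_le_sum_of_subset (range_subset_range.2 h)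

theorem slt_lt (x : List Bool) (q T k i' : ℕ) : slt x q T k i' < 2 := by
  unfold slt dg
  split_ifs <;> exact Nat.mod_lt _ (by omega)

theorem inpv_one (x : List Bool) (i : ℕ) : inpv x i = 1 ↔ x[i]? = some true := by
  unfold inpv
  cases h : x[i]? with
  | none => simp
  | some b => cases b <;> simp

/-- The letters of the segments. -/
theorem slt_eq (D : D1) (τ : Tmpl) (hτ : TOk τ) (x : List Bool) (k i' : ℕ)
    (hk : k < τ.length) (hi : i' < (seg (τ[k]) x).length) :
    slt x (bs τ) (cd τ) k i' = if (seg (τ[k]) x)[i']? = some true then 1 else 0 := by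
  have hb : τ.length + 1 ≤ bs τ := by unfold bs; omega
  have hs := hτ _ (List.getElem_mem hk)
  rw [seg_length _ hs] at hi
  unfold slt
  rw [dg_cd D τ _ (by omega), dg_cd D τ _ (by omega), dg_cd D τ _ (by omega),
    dg_cd D τ _ (by omega), dg_cd D τ _ (by omega), fd0 τ k hk, fd1 τ k hk, fd2 τ k hk,
    fd3 τ k hk, fd4 τ k hk]
  unfold seg
  by_cases h1 : i' < (τ[k]).1.length
  · rw [if_pos h1, dg_nm D _ _ h1, List.getElem?_append_left h1]
  · rw [if_neg h1, List.getElem?_append_right (by omega)]
    have hi2 : i' - (τ[k]).1.length < x.length * (τ[k]).2.1.length := by omega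
    have hl : 0 < (τ[k]).2.1.length := by
      rcases Nat.eq_zero_or_pos (τ[k]).2.1.length with h0 | h0
      · rw [h0] at hi2; omega
      · exact h0
    have hm := Nat.mod_lt (i' - (τ[k]).1.length) hl
    rw [flatMap_get x _ _ hs _ hi2]
    simp only [inpv_one]
    split_ifs with h2 h3 h3 h3
    · rw [dg_nm D _ _ (by omega), if_pos h3]
    · rw [dg_nm D _ _ (by omega), if_neg h3]
    · rw [dg_nm D _ _ hm, if_pos h3]
    · rw [dg_nm D _ _ hm, if_neg h3]

end TB

theorem prf_TB : S_TB := by
  intro D τ hτ
  refine ⟨TB.bs τ, TB.cd τ, fun x => ?_⟩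
  have hb : τ.length + 1 ≤ TB.bs τ := by unfold TB.bs; omega
  have hev : ev τ x = (TB.ws τ x).flatten := by
    rw [ev, TB.ws, List.flatMap_def]
  have htot : off x.length (TB.bs τ) (TB.cd τ) (TB.bs τ) = (ev τ x).length := by
    rw [TB.off_eq D τ hτ x _ le_rfl, List.take_of_length_le (by rw [TB.ws_len]; omega), hev]
  apply List.ext_getElem?
  intro i
  unfold vw
  rw [List.getElem?_map]
  by_cases hi : i < off x.length (TB.bs τ) (TB.cd τ) (TB.bs τ)
  · rw [List.getElem?_range hi]
    have hex : ∃ k, i < off x.length (TB.bs τ) (TB.cd τ) (k + 1) :=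
      ⟨TB.bs τ - 1, by rw [Nat.sub_add_cancel (by omega)]; exact hi⟩
    classical
    obtain ⟨k, hk1, hk2⟩ : ∃ k, off x.length (TB.bs τ) (TB.cd τ) k ≤ i ∧
        i < off x.length (TB.bs τ) (TB.cd τ) (k + 1) := by
      refine ⟨Nat.find hex, ?_, Nat.find_spec hex⟩
      rcases Nat.eq_zero_or_pos (Nat.find hex) with h0 | h0
      · rw [h0]; simp [off]
      · have := Nat.find_min hex (m := Nat.find hex - 1) (by omega)
        rw [Nat.sub_add_cancel h0] at this
        omega
    have hkq : k < TB.bs τ := by
      by_contra hc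
      have := TB.off_mono x.length (TB.bs τ) (TB.cd τ) (a := TB.bs τ) (b := k) (by omega)
      omega
    have hkl : k < τ.length := by
      by_contra hc
      rw [TB.off_eq D τ hτ x _ (by omega), List.take_of_length_le (by rw [TB.ws_len]; omega)]
        at hk1
      rw [TB.off_eq D τ hτ x _ (by omega), List.take_of_length_le (by rw [TB.ws_len]; omega)]
        at hk2
      omega
    have hv : vlt x x.length (TB.bs τ) (TB.cd τ) i =
        slt x (TB.bs τ) (TB.cd τ) k (i - off x.length (TB.bs τ) (TB.cd τ) k) := by
      unfold vlt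
      rw [if_pos hi, sum_eq_single k]
      · rw [if_pos ⟨hk1, hk2⟩, Nat.mod_eq_of_lt (TB.slt_lt _ _ _ _ _)]
      · intro j _ hj
        rw [if_neg]
        rintro ⟨h1, h2⟩
        rcases lt_or_gt_of_ne hj with h | h
        · have := TB.off_mono x.length (TB.bs τ) (TB.cd τ) (a := j + 1) (b := k) (by omega)
          omega
        · have := TB.off_mono x.length (TB.bs τ) (TB.cd τ) (a := k + 1) (b := j) (by omega)
          omega
      · intro h
        exact absurd (mem_range.2 hkq) h
    have hkw : k < (TB.ws τ x).length := by rw [TB.ws_len]; exact hkl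
    have hwk : (TB.ws τ x)[k] = seg (τ[k]) x := by simp [TB.ws]
    have ho := TB.off_eq D τ hτ x k (by omega)
    have ho1 := TB.off_eq D τ hτ x (k + 1) (by omega)
    rw [TB.flat_len _ _ hkw, hwk] at ho1
    have hin : i - off x.length (TB.bs τ) (TB.cd τ) k < (seg (τ[k]) x).length := by omega
    have hg := TB.flat_get (TB.ws τ x) k hkw i (by omega) (by rw [hwk]; omega)
    rw [hwk, ← ho] at hg
    rw [hev, hg, Option.map_some, hv, TB.slt_eq D τ hτ x k _ hkl hin,
      List.getElem?_eq_getElem hin]
    cases (seg (τ[k]) x)[i - off x.length (TB.bs τ) (TB.cd τ) k] <;> simp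
  · rw [List.getElem?_eq_none (by rw [List.length_range]; omega),
      List.getElem?_eq_none (by rw [← htot]; omega)]
    rfl

end Pool.Agent.Work.MP_71c844_lc.Reg
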