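/-
Block REG (problem MP_71c844_lc), item TC: letters and lengths of template words.
Author: helper62.
-/
import Pool.Agent.Work.MP_71c844_lc.Reg.Stmts

set_option autoImplicit false

namespace Pool.Agent.Work.MP_71c844_lc.Reg

open Finset Pool.Agent.Work.MP_71c844_lc.Arr

namespace TC

theorem len_flatMap (x : List Bool) (v w : List Bool) (h : v.length = w.length) :
    (x.flatMap (fun b => if b then w else v)).length = v.length * x.length := by
  induction x with
  | nil => simp
  | cons b x ih =>
    rw [List.flatMap_cons, List.length_append, ih, List.length_cons, Nat.mul_succ]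
    cases b
    · simp only [Bool.false_eq_true, if_false]; omega
    · simp only [if_true]; omega

theorem len_ev (τ : Tmpl) (h : TOk τ) : ∃ a b : ℕ, ∀ x : List Bool,
    (ev τ x).length = a * x.length + b := by
  induction τ with
  | nil => exact ⟨0, 0, fun x => by simp [ev]⟩
  | cons s τ ih =>
    obtain ⟨a, b, hab⟩ := ih (fun s' hs' => h s' (List.mem_cons_of_mem _ hs'))
    refine ⟨s.2.1.length + a, s.1.length + b, fun x => ?_⟩
    have hs := h s (List.mem_cons_self)
    have e : ev (s :: τ) x = seg s x ++ ev τ x := by simp [ev]
    rw [e, List.length_append, hab x, seg, List.length_append, len_flatMap x _ _ hs]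
    ring

theorem letters (x : List Bool) (n q T i : ℕ) : inpv (vw x n q T) i = vlt x n q T i := by
  unfold inpv vw
  by_cases h : i < off n q T q
  · have h1 : ((List.range (off n q T q)).map (fun i => decide (vlt x n q T i = 1)))[i]? =
        some (decide (vlt x n q T i = 1)) := by
      rw [List.getElem?_map, List.getElem?_range h]; rfl
    have h2 : vlt x n q T i < 2 := by
      unfold vlt
      rw [if_pos h]
      exact Nat.mod_lt _ (by norm_num)
    rw [h1]
    by_cases h3 : vlt x n q T i = 1
    · simp [h3]
    · have h4 : vlt x n q T i = 0 := by omega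
      simp [h4]
  · have h1 : ((List.range (off n q T q)).map (fun i => decide (vlt x n q T i = 1)))[i]? = none := by
      rw [List.getElem?_eq_none_iff]
      simp
      omega
    rw [h1]
    unfold vlt
    rw [if_neg h]

end TC

theorem prf_TC : S_TC := ⟨TC.letters, TC.len_ev⟩

end Pool.Agent.Work.MP_71c844_lc.Reg
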