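/-
Block REG (problem MP_71c844_lc): the lower bound for multitape Turing machines, from the lower
bound for linear arrays.  Author: helper44.
-/
import Pool.Agent.Work.MP_71c844_lc.Arr.TMLow

namespace Pool.Agent.Work.MP_71c844_lc.Reg

open Pool.Agent.Work.MP_71c844_lc.Arr

/-- Transfer of the lower bound for a problem `P` on the objects `R` coded by the words `code R`. -/
theorem tm_lower_code {ρ : Type} (code : ρ → List Bool) (P : ρ → Prop) (K : ℕ)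
    (h : ∀ s : ℕ, ∃ c : ℝ, 0 < c ∧ ∃ n0 : ℕ, ∀ A : CA 1, Nat.card A.Q ≤ s → ∀ N ≥ n0, ∃ R : ρ,
      (code R).length ≤ N ∧ ¬ A.AltDecides (code R) (N / K)
        (c * (N : ℝ) ^ (1 + 1 / ((1 : ℕ) : ℝ)) / Real.log N) (P R)) (s : ℕ) :
    ∃ c : ℝ, 0 < c ∧ ∃ n0 : ℕ, ∀ M : TM, M.k ≤ s → Nat.card M.Q ≤ s → Nat.card M.Γ ≤ s →
      ∀ gs : Bool → M.Γ, ∀ N ≥ n0, ∃ R : ρ,
      (code R).length ≤ N ∧ ¬ M.AltDecides gs (code R) (N / K)
        (c * (N : ℝ) ^ (2 : ℕ) / Real.log N) (P R) := by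
  obtain ⟨c, hc, n0, hn0⟩ := h (asz s s s)
  -- `log n ≤ n ≤ n ^ 2`
  obtain ⟨m, hm⟩ := exists_nat_ge (2 / c)
  refine ⟨c / 4, by positivity, max (max n0 m) 2, ?_⟩
  intro M hk hq hg gs N hN
  obtain ⟨A, hcard, hA⟩ := M.toCA gs
  have h1 : n0 ≤ N := le_trans (le_trans (le_max_left _ _) (le_max_left _ _)) hN
  have h2 : m ≤ N := le_trans (le_trans (le_max_right _ _) (le_max_left _ _)) hN
  have h3 : 2 ≤ N := le_trans (le_max_right _ _) hN
  obtain ⟨R, hR, hlow⟩ := hn0 A (by rw [hcard]; exact asz_mono hk hq hg) N h1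
  refine ⟨R, hR, fun hM => hlow ?_⟩
  refine M.alt_transfer gs A hA (code R) _ _ _ ?_ _ hM
  have h3' : (2 : ℝ) ≤ (N : ℝ) := by exact_mod_cast h3
  have h2' : (m : ℝ) ≤ (N : ℝ) := by exact_mod_cast h2
  have hl : 0 < Real.log (N : ℝ) := Real.log_pos (by linarith)
  have hlN : Real.log (N : ℝ) ≤ N := by
    have := Real.log_le_sub_one_of_pos (show (0 : ℝ) < N by linarith)
    linarith
  have he : (N : ℝ) ^ (1 + 1 / ((1 : ℕ) : ℝ)) = (N : ℝ) ^ (2 : ℕ) := by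
    rw [← Real.rpow_natCast]
    congr 1
    norm_num
  rw [he]
  have h4 : 2 * Real.log N ≤ c * (N : ℝ) ^ (2 : ℕ) := by
    have h5 : 2 ≤ c * N := by
      have := (div_le_iff₀ hc).1 (le_trans hm h2')
      linarith
    calc 2 * Real.log N ≤ 2 * N := by linarith
      _ ≤ (c * N) * N := by
          apply mul_le_mul_of_nonneg_right h5
          linarith
      _ = c * (N : ℝ) ^ (2 : ℕ) := by ring
  have h5 : 1 ≤ c * (N : ℝ) ^ (2 : ℕ) / Real.log N / 2 := by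
    rw [le_div_iff₀ (by norm_num), le_div_iff₀ hl]
    linarith
  have h6 : 2 * (c / 4 * (N : ℝ) ^ (2 : ℕ) / Real.log N) =
      c * (N : ℝ) ^ (2 : ℕ) / Real.log N / 2 := by ring
  rw [h6]
  linarith

end Pool.Agent.Work.MP_71c844_lc.Reg
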