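/-
Block REG (problem MP_71c844_lc): assembly.  Author: helper14.
-/
import Pool.Agent.Work.MP_71c844_lc.Arr.Main0
import Pool.Agent.Work.MP_71c844_lc.Reg.TA
import Pool.Agent.Work.MP_71c844_lc.Reg.TB
import Pool.Agent.Work.MP_71c844_lc.Reg.TC
import Pool.Agent.Work.MP_71c844_lc.Reg.LA
import Pool.Agent.Work.MP_71c844_lc.Reg.LB
import Pool.Agent.Work.MP_71c844_lc.Reg.LC2
import Pool.Agent.Work.MP_71c844_lc.Reg.LDE
import Pool.Agent.Work.MP_71c844_lc.Reg.RA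
import Pool.Agent.Work.MP_71c844_lc.Reg.RB
import Pool.Agent.Work.MP_71c844_lc.Reg.RCD
import Pool.Agent.Work.MP_71c844_lc.Reg.QA
import Pool.Agent.Work.MP_71c844_lc.Reg.QBC
import Pool.Agent.Work.MP_71c844_lc.Reg.QD
import Pool.Agent.Work.MP_71c844_lc.Reg.QE
import Pool.Agent.Work.MP_71c844_lc.Reg.QF
import Pool.Agent.Work.MP_71c844_lc.Reg.QG
import Pool.Agent.Work.MP_71c844_lc.Reg.FA1
import Pool.Agent.Work.MP_71c844_lc.Reg.FB1
import Pool.Agent.Work.MP_71c844_lc.Reg.FD1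
import Pool.Agent.Work.MP_71c844_lc.Reg.GO
import Pool.Agent.Work.MP_71c844_lc.Reg.DG2
import Pool.Agent.Work.MP_71c844_lc.Reg.TMR
import Pool.Agent.Work.MP_71c844_lc.Reg.SH

set_option autoImplicit false

namespace Pool.Agent.Work.MP_71c844_lc.Reg

open Finset Pool.Agent.Work.MP_71c844_lc.Arr

theorem memVW {ι Γ : Type} (co : ι → Γ → ℕ)
    (n q' T m Y M d q tb et vt A : List Bool → Γ → ℕ) (hn : LSC co n) (hq' : LSC co q')
    (hT : LSC co T) (hm : LSC co m) (hY : LSC co Y) (hM : LSC co M) (hd : LSC co d)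
    (hq : LSC co q) (htb : LSC co tb) (het : LSC co et) (hvt : LSC co vt) (hA : LSC co A) :
    LSC co (fun x γ => verN (vw x (n x γ) (q' x γ) (T x γ)) (m x γ) (Y x γ) (M x γ) (d x γ)
      (q x γ) (tb x γ) (et x γ) (vt x γ) (A x γ)) :=
  prf_LD rules prf_LA prf_LB prf_LC2 prf_TC
    (fun co m Y M d q tb et vt A hm hY hM hd hq htb het hvt hA =>
      memN5 co m Y M d q tb et vt A hm hY hM hd hq htb het hvt hA)
    co n q' T m Y M d q tb et vt A hn hq' hT hm hY hM hd hq htb het hvt hA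

theorem memFR : LSC (fun (_ : Unit) (M : ℕ) => M) (fun x M => FR x M) :=
  prf_LE rules (fun co n q' T m Y M d q tb et vt A hn hq' hT hm hY hM hd hq htb het hvt hA =>
    memVW co n q' T m Y M d q tb et vt A hn hq' hT hm hY hM hd hq htb het hvt hA) prf_N6

theorem fa1 : (∀ x : List Bool, FR x (2 ^ x.length) ≠ 0) ∧
    ∀ x : List Bool, 1 ≤ x.length → ∀ M < 2 ^ x.length, FR x M = 0 :=
  prf_FA1 prf_R1 prf_B4

/-- The reduction: the diagonal language reduces to the non-universality of regular expressions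
of star height one whose codes are given by one template. -/
theorem red : ∃ q T a b : ℕ, ∀ x : List Bool, ∃ R : RegularExpression Bool,
    code R = vw x x.length q T ∧ (code R).length = a * x.length + b ∧ starHeight R ≤ 1 ∧
      (NU R ↔ x ∈ LR) := by
  obtain ⟨G, m, C, hReg, hG⟩ := prf_GO FR (fun n => 2 ^ n) memFR
    (fun x => ⟨2 ^ x.length, le_refl _, fa1.1 x⟩)
  obtain ⟨ℓ, Φ, ac, a₀, a₁, a₂, a₃, K, hℓ, hK, hQ⟩ :=
    prf_QG prf_QA prf_QB prf_QC prf_QD prf_QE prf_QF m G (2 * C) hReg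
  obtain ⟨τ, hτ, hev⟩ := prf_TA ℓ Φ ac a₀ a₁ a₂ a₃ K hK
  obtain ⟨q, T, hqT⟩ := prf_TB prf_D1 τ hτ
  obtain ⟨a, b, hab⟩ := prf_TC.2 τ hτ
  refine ⟨q, T, a, b, fun x => ⟨Rx Φ ac (uw a₀ a₁ a₂ a₃ K x), ?_, ?_, Rx_sh _ _ _, ?_⟩⟩
  · rw [hqT x]
    exact hev x
  · rw [← hab x]
    exact congrArg List.length (hev x)
  · have hlen : 3 ≤ (uw a₀ a₁ a₂ a₃ K x).length := by
      rw [FB1.uw_length a₀ a₁ a₂ a₃ K (by omega) x]
      nlinarith [Nat.zero_le x.length]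
    obtain ⟨θ, hθ⟩ := prf_RD Φ (uw a₀ a₁ a₂ a₃ K x) (by omega)
    obtain ⟨t, c, hreg, hhalt, hc⟩ := hG x
    rw [prf_RC prf_RB prf_RA ℓ hℓ Φ ac _ hlen θ hθ,
      hQ x θ t c hθ (fun s hs r => (hreg s hs r).trans
        (FB1.two_pow_add_two_pow_le x.length C)) hhalt, hc]
    exact Iff.rfl

/-- The lower bound for arrays. -/
theorem reg_lower : ∃ K : ℕ, 1 ≤ K ∧ ∀ d : ℕ, 1 ≤ d → ∀ s : ℕ, ∃ c : ℝ, 0 < c ∧ ∃ n0 : ℕ,
    ∀ A : CA d, Nat.card A.Q ≤ s → ∀ N ≥ n0, ∃ R : RegularExpression Bool,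
      (code R).length ≤ N ∧ starHeight R ≤ 1 ∧ ¬ A.AltDecides (code R) (N / K)
        (c * (N : ℝ) ^ (1 + 1 / (d : ℝ)) / Real.log N) (NU R) := by
  obtain ⟨q, T, a, b, hred⟩ := red
  have hD : Diag q T := prf_DG2 facts prf_P5 prf_R1 prf_GM prf_MJ prf_WA prf_B2 prf_B4 fa1 q T
  refine ⟨a + b + 1, by omega, fun d hd s => ?_⟩
  obtain ⟨c0, hc0, n0, hn0⟩ := hD d hd s
  refine ⟨c0 * ((2 * ((a + b + 1 : ℕ) : ℝ)) ^ 2)⁻¹, by positivity,
    (a + b + 1) * (n0 + 2), fun A hA N hN => ?_⟩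
  have hKpos : 0 < a + b + 1 := by omega
  have hn : n0 + 2 ≤ N / (a + b + 1) := by
    rw [Nat.le_div_iff_mul_le hKpos, mul_comm]; exact hN
  set n : ℕ := N / (a + b + 1) with hndef
  obtain ⟨x, hx, hnot⟩ := hn0 A hA n (by omega)
  obtain ⟨R, hR1, hR2, hRs, hR3⟩ := hred x
  have hmul : n * (a + b + 1) ≤ N := Nat.div_mul_le_self N (a + b + 1)
  have hmul2 : N < (n + 1) * (a + b + 1) := by
    have := Nat.lt_div_mul_add hKpos (a := N)
    rw [← hndef] at this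
    calc N < n * (a + b + 1) + (a + b + 1) := this
      _ = (n + 1) * (a + b + 1) := by ring
  refine ⟨R, ?_, hRs, fun hdec => hnot ?_⟩
  · rw [hR2, hx]
    have : b ≤ b * n := Nat.le_mul_of_pos_right b (by omega)
    nlinarith
  · have hcode : vw x n q T = code R := by rw [hR1, hx]
    rw [hcode]
    refine FD1.mono A (code R) n _ _ (NU R) (x ∈ LR) ?_ hR3 hdec
    refine FD1.cmp c0 hc0 (a + b + 1) n N d hKpos hd (by omega) ?_ ?_
    · exact Nat.div_le_self N (a + b + 1)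
    · nlinarith

/-- The lower bounds for arrays and for Turing machines. -/
theorem reg_main : ∃ K : ℕ, 1 ≤ K ∧ (∀ d : ℕ, 1 ≤ d → ∀ s : ℕ, ∃ c : ℝ, 0 < c ∧ ∃ n0 : ℕ,
    ∀ A : CA d, Nat.card A.Q ≤ s → ∀ N ≥ n0, ∃ R : RegularExpression Bool,
      (code R).length ≤ N ∧ starHeight R ≤ 1 ∧ ¬ A.AltDecides (code R) (N / K)
        (c * (N : ℝ) ^ (1 + 1 / (d : ℝ)) / Real.log N) (NU R)) ∧
    (∀ s : ℕ, ∃ c : ℝ, 0 < c ∧ ∃ n0 : ℕ, ∀ M : TM, M.k ≤ s → Nat.card M.Q ≤ s →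
      Nat.card M.Γ ≤ s → ∀ gs : Bool → M.Γ, ∀ N ≥ n0, ∃ R : RegularExpression Bool,
      (code R).length ≤ N ∧ starHeight R ≤ 1 ∧ ¬ M.AltDecides gs (code R) (N / K)
        (c * (N : ℝ) ^ (2 : ℕ) / Real.log N) (NU R)) := by
  obtain ⟨K, hK, h⟩ := reg_lower
  refine ⟨K, hK, h, fun s => ?_⟩
  obtain ⟨c, hc, n0, hn0⟩ := tm_lower_code
    (fun R : {R : RegularExpression Bool // starHeight R ≤ 1} => code R.1) (fun R => NU R.1) K
    (fun s => by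
      obtain ⟨c, hc, n0, hn0⟩ := h 1 le_rfl s
      refine ⟨c, hc, n0, fun A hA N hN => ?_⟩
      obtain ⟨R, h1, h2, h3⟩ := hn0 A hA N hN
      exact ⟨⟨R, h2⟩, h1, h3⟩) s
  refine ⟨c, hc, n0, fun M h1 h2 h3 gs N hN => ?_⟩
  obtain ⟨R, h4, h5⟩ := hn0 M h1 h2 h3 gs N hN
  exact ⟨R.1, h4, R.2, h5⟩

end Pool.Agent.Work.MP_71c844_lc.Reg
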