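import Pool.Agent.Work.MP_71c844_lc.Reg.Stmts

/-
Block REG (problem MP_71c844_lc): unique readability of Polish notation.
-/

set_option autoImplicit false

namespace Pool.Agent.Work.MP_71c844_lc.Reg

open Finset Pool.Agent.Work.MP_71c844_lc.Arr

namespace CI

/-- Unique readability: the code of an expression is never a proper beginning of another one. -/
lemma code_append (P : RegularExpression Bool) : ∀ (Q : RegularExpression Bool) (u v : List Bool),
    code P ++ u = code Q ++ v → P = Q ∧ u = v := by
  induction P with
  | zero =>
    intro Q u v h
    cases Q <;> simp_all [code]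
  | epsilon =>
    intro Q u v h
    cases Q <;> simp_all [code]
  | char a =>
    intro Q u v h
    cases Q <;> simp_all [code]
  | plus P₁ P₂ ih₁ ih₂ =>
    intro Q u v h
    cases Q with
    | plus Q₁ Q₂ =>
      simp only [code, List.cons_append, List.cons.injEq, true_and, List.append_assoc] at h
      obtain ⟨h1, h2⟩ := ih₁ _ _ _ h
      obtain ⟨h3, h4⟩ := ih₂ _ _ _ h2
      exact ⟨by rw [h1, h3], h4⟩
    | zero => simp [code] at h
    | epsilon => simp [code] at h
    | char a => simp [code] at h
    | comp Q₁ Q₂ => simp [code] at h
    | star Q => simp [code] at h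
  | comp P₁ P₂ ih₁ ih₂ =>
    intro Q u v h
    cases Q with
    | comp Q₁ Q₂ =>
      simp only [code, List.cons_append, List.cons.injEq, true_and, List.append_assoc] at h
      obtain ⟨h1, h2⟩ := ih₁ _ _ _ h
      obtain ⟨h3, h4⟩ := ih₂ _ _ _ h2
      exact ⟨by rw [h1, h3], h4⟩
    | zero => simp [code] at h
    | epsilon => simp [code] at h
    | char a => simp [code] at h
    | plus Q₁ Q₂ => simp [code] at h
    | star Q => simp [code] at h
  | star P ih =>
    intro Q u v h
    cases Q with
    | star Q =>
      simp only [code, List.cons_append, List.cons.injEq, true_and] at h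
      obtain ⟨h1, h2⟩ := ih _ _ _ h
      exact ⟨by rw [h1], h2⟩
    | zero => simp [code] at h
    | epsilon => simp [code] at h
    | char a => simp [code] at h
    | plus Q₁ Q₂ => simp [code] at h
    | comp Q₁ Q₂ => simp [code] at h

end CI

/-- The word of a regular expression determines the expression. -/
theorem code_inj : Function.Injective code := by
  intro P Q h
  exact (CI.code_append P Q [] [] (by rw [h])).1

end Pool.Agent.Work.MP_71c844_lc.Reg
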