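/-
Block REG (problem MP_71c844_lc), item FD1: from the words to the lengths of the expressions.
Author: helper79.
-/
import Pool.Agent.Work.MP_71c844_lc.Reg.Stmts

set_option autoImplicit false

namespace Pool.Agent.Work.MP_71c844_lc.Reg

open Finset Pool.Agent.Work.MP_71c844_lc.Arr

namespace FD1

/-- Deciding is monotone in the time. -/
theorem mono {d : ℕ} (A : CA d) (x : List Bool) (m : ℕ) (τ τ' : ℝ) (P P' : Prop)
    (hτ : τ ≤ τ') (hP : P ↔ P') (h : A.AltDecides x m τ P) : A.AltDecides x m τ' P' := by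
  refine ⟨fun y hy => ?_, ?_⟩
  · obtain ⟨t, v, ht, hv⟩ := h.1 y hy
    exact ⟨t, v, le_trans ht hτ, hv⟩
  · rw [← hP]; exact h.2

/-- The comparison of the times. -/
theorem cmp (c0 : ℝ) (hc0 : 0 < c0) (K n N d : ℕ) (hK : 1 ≤ K) (hd : 1 ≤ d) (hn : 2 ≤ n)
    (hnN : n ≤ N) (hN : N ≤ 2 * K * n) :
    c0 * ((2 * (K : ℝ)) ^ 2)⁻¹ * (N : ℝ) ^ (1 + 1 / (d : ℝ)) / Real.log N ≤
      c0 * (n : ℝ) ^ (1 + 1 / (d : ℝ)) / Real.log n := by
  have hd' : (1 : ℝ) ≤ d := by exact_mod_cast hd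
  have hK' : (1 : ℝ) ≤ K := by exact_mod_cast hK
  have hn' : (2 : ℝ) ≤ n := by exact_mod_cast hn
  have hnN' : (n : ℝ) ≤ N := by exact_mod_cast hnN
  have hN' : (N : ℝ) ≤ 2 * K * n := by exact_mod_cast hN
  set E : ℝ := 1 + 1 / (d : ℝ) with hE
  have hE0 : 0 ≤ E := by positivity
  have h1d : 1 / (d : ℝ) ≤ 1 := by
    rw [div_le_one (by linarith)]; exact hd'
  have hE2 : E ≤ 2 := by rw [hE]; linarith
  have hlogn : 0 < Real.log n := Real.log_pos (by linarith)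
  have hlog : Real.log n ≤ Real.log N := Real.log_le_log (by linarith) hnN'
  have hnE : 0 < (n : ℝ) ^ E := Real.rpow_pos_of_pos (by linarith) _
  have h1 : (N : ℝ) ^ E ≤ (2 * (K : ℝ)) ^ 2 * (n : ℝ) ^ E := by
    calc (N : ℝ) ^ E ≤ (2 * K * n : ℝ) ^ E := Real.rpow_le_rpow (by linarith) hN' hE0
      _ = (2 * (K : ℝ)) ^ E * (n : ℝ) ^ E := Real.mul_rpow (by linarith) (by linarith)
      _ ≤ (2 * (K : ℝ)) ^ (2 : ℝ) * (n : ℝ) ^ E :=
        mul_le_mul_of_nonneg_right (Real.rpow_le_rpow_of_exponent_le (by linarith) hE2) hnE.le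
      _ = (2 * (K : ℝ)) ^ 2 * (n : ℝ) ^ E := by norm_num
  have h2 : c0 * ((2 * (K : ℝ)) ^ 2)⁻¹ * (N : ℝ) ^ E ≤ c0 * (n : ℝ) ^ E := by
    have h3 : ((2 * (K : ℝ)) ^ 2)⁻¹ * (N : ℝ) ^ E ≤ (n : ℝ) ^ E := by
      rw [inv_mul_le_iff₀ (by positivity)]; exact h1
    rw [mul_assoc]
    exact mul_le_mul_of_nonneg_left h3 hc0.le
  calc c0 * ((2 * (K : ℝ)) ^ 2)⁻¹ * (N : ℝ) ^ E / Real.log N
      ≤ c0 * (n : ℝ) ^ E / Real.log N :=
        div_le_div_of_nonneg_right h2 (by linarith)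
    _ ≤ c0 * (n : ℝ) ^ E / Real.log n :=
        div_le_div_of_nonneg_left (by positivity) hlogn hlog

end FD1

/-- FD1. -/
theorem prf_FD1 : S_FD1 := by
  intro q T a b hred hD
  refine ⟨a + b + 1, by omega, fun d hd s => ?_⟩
  obtain ⟨c0, hc0, n0, hn0⟩ := hD d hd s
  refine ⟨c0 * ((2 * ((a + b + 1 : ℕ) : ℝ)) ^ 2)⁻¹, by positivity,
    (a + b + 1) * (n0 + 2), fun A hA N hN => ?_⟩
  have hKpos : 0 < a + b + 1 := by omega
  have hn : n0 + 2 ≤ N / (a + b + 1) := by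
    rw [Nat.le_div_iff_mul_le hKpos, mul_comm]; exact hN
  set n : ℕ := N / (a + b + 1) with hndef
  obtain ⟨x, hx, hnot⟩ := hn0 A hA n (by omega)
  obtain ⟨R, hR1, hR2, hR3⟩ := hred x
  have hmul : n * (a + b + 1) ≤ N := Nat.div_mul_le_self N (a + b + 1)
  have hmul2 : N < (n + 1) * (a + b + 1) := by
    have := Nat.lt_div_mul_add hKpos (a := N)
    rw [← hndef] at this
    calc N < n * (a + b + 1) + (a + b + 1) := this
      _ = (n + 1) * (a + b + 1) := by ring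
  refine ⟨R, ?_, fun hdec => hnot ?_⟩
  · rw [hR2, hx]
    have : b ≤ b * n := Nat.le_mul_of_pos_right b (by omega)
    nlinarith
  · have hcode : vw x n q T = code R := by rw [hR1, hx]
    rw [hcode]
    refine FD1.mono A (code R) n _ _ (NU R) (x ∈ LR) ?_ hR3 hdec
    refine FD1.cmp c0 hc0 (a + b + 1) n N d hKpos hd (by omega) ?_ ?_
    · exact Nat.div_le_self N (a + b + 1)
    · nlinarith

end Pool.Agent.Work.MP_71c844_lc.Reg
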