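/-
Block REG (problem MP_71c844_lc), item RA: the languages of the building blocks.
Author: helper46.
-/
import Pool.Agent.Work.MP_71c844_lc.Reg.Stmts

set_option autoImplicit false

namespace Pool.Agent.Work.MP_71c844_lc.Reg

open Finset Pool.Agent.Work.MP_71c844_lc.Arr

namespace RAaux

theorem unb_nil (ℓ : ℕ) : unb ([] : List (Blk ℓ)) = [] := rfl

theorem unb_cons {ℓ : ℕ} (a : Blk ℓ) (z : List (Blk ℓ)) : unb (a :: z) = List.ofFn a ++ unb z := by
  simp [unb]

theorem unb_append {ℓ : ℕ} (z z' : List (Blk ℓ)) : unb (z ++ z') = unb z ++ unb z' := by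
  simp [unb]

theorem unb_single {ℓ : ℕ} (a : Blk ℓ) : unb [a] = List.ofFn a := by
  simp [unb]

theorem unb_length {ℓ : ℕ} (z : List (Blk ℓ)) : (unb z).length = ℓ * z.length := by
  induction z with
  | nil => rfl
  | cons a z ih =>
    rw [unb_cons, List.length_append, ih, List.length_ofFn, List.length_cons, Nat.mul_succ,
      add_comm]

theorem mem_plus (P Q : RegularExpression Bool) (w : List Bool) :
    w ∈ (RegularExpression.plus P Q).matches' ↔ w ∈ P.matches' ∨ w ∈ Q.matches' := Iff.rfl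

theorem mem_comp (P Q : RegularExpression Bool) (w : List Bool) :
    w ∈ (RegularExpression.comp P Q).matches' ↔
      ∃ u v, u ∈ P.matches' ∧ v ∈ Q.matches' ∧ w = u ++ v := by
  show w ∈ P.matches' * Q.matches' ↔ _
  rw [Language.mem_mul]
  constructor
  · rintro ⟨u, hu, v, hv, rfl⟩
    exact ⟨u, v, hu, hv, rfl⟩
  · rintro ⟨u, v, hu, hv, rfl⟩
    exact ⟨u, hu, v, hv, rfl⟩

theorem mem_zero (w : List Bool) : w ∈ (RegularExpression.zero : RegularExpression Bool).matches' ↔
    False := by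
  constructor
  · intro h
    exact absurd h (Language.notMem_zero _)
  · exact False.elim

theorem mem_eps (w : List Bool) :
    w ∈ (RegularExpression.epsilon : RegularExpression Bool).matches' ↔ w = [] := Iff.rfl

theorem mem_char (b : Bool) (w : List Bool) :
    w ∈ (RegularExpression.char b).matches' ↔ w = [b] := Iff.rfl

theorem mem_wre (l w : List Bool) : w ∈ (wre l).matches' ↔ w = l := by
  induction l generalizing w with
  | nil => exact Iff.rfl
  | cons b l ih =>
    show w ∈ (RegularExpression.comp (.char b) (wre l)).matches' ↔ _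
    rw [mem_comp]
    constructor
    · rintro ⟨u, v, hu, hv, rfl⟩
      rw [ih] at hv
      rw [mem_char] at hu
      rw [hu, hv]
      rfl
    · rintro rfl
      exact ⟨[b], l, rfl, (ih l).2 rfl, rfl⟩

theorem one (ℓ : ℕ) (a : Blk ℓ) : Rp (wre (List.ofFn a)) (fun z : List (Blk ℓ) => z = [a]) := by
  intro w
  rw [mem_wre]
  constructor
  · rintro rfl
    exact ⟨[a], rfl, (unb_single a).symm⟩
  · rintro ⟨z, rfl, rfl⟩
    exact unb_single a

theorem zero (ℓ : ℕ) : Rp .zero (fun _ : List (Blk ℓ) => False) := by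
  intro w
  rw [mem_zero]
  constructor
  · exact False.elim
  · rintro ⟨z, h, -⟩
    exact h

theorem eps (ℓ : ℕ) : Rp .epsilon (fun z : List (Blk ℓ) => z = []) := by
  intro w
  rw [mem_eps]
  constructor
  · rintro rfl
    exact ⟨[], rfl, rfl⟩
  · rintro ⟨z, rfl, rfl⟩
    rfl

theorem plus (ℓ : ℕ) (P Q : RegularExpression Bool) (L L' : List (Blk ℓ) → Prop) (hP : Rp P L)
    (hQ : Rp Q L') : Rp (.plus P Q) (fun z => L z ∨ L' z) := by
  intro w
  rw [mem_plus, hP w, hQ w]
  constructor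
  · rintro (⟨z, hz, hw⟩ | ⟨z, hz, hw⟩)
    · exact ⟨z, Or.inl hz, hw⟩
    · exact ⟨z, Or.inr hz, hw⟩
  · rintro ⟨z, hz | hz, hw⟩
    · exact Or.inl ⟨z, hz, hw⟩
    · exact Or.inr ⟨z, hz, hw⟩

theorem comp (ℓ : ℕ) (P Q : RegularExpression Bool) (L L' : List (Blk ℓ) → Prop) (hP : Rp P L)
    (hQ : Rp Q L') :
    Rp (.comp P Q) (fun z => ∃ z₁ z₂, z = z₁ ++ z₂ ∧ L z₁ ∧ L' z₂) := by
  intro w
  rw [mem_comp]
  constructor
  · rintro ⟨u, v, hu, hv, rfl⟩
    rw [hP u] at hu
    rw [hQ v] at hv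
    obtain ⟨z₁, h₁, rfl⟩ := hu
    obtain ⟨z₂, h₂, rfl⟩ := hv
    exact ⟨z₁ ++ z₂, ⟨z₁, z₂, rfl, h₁, h₂⟩, (unb_append z₁ z₂).symm⟩
  · rintro ⟨z, ⟨z₁, z₂, rfl, h₁, h₂⟩, rfl⟩
    exact ⟨unb z₁, unb z₂, (hP _).2 ⟨z₁, h₁, rfl⟩, (hQ _).2 ⟨z₂, h₂, rfl⟩, unb_append z₁ z₂⟩

theorem fold (ℓ : ℕ) {β : Type} (S : List β) (f : β → RegularExpression Bool)
    (L : β → List (Blk ℓ) → Prop) (h : ∀ p ∈ S, Rp (f p) (L p)) :
    Rp (S.foldr (fun p R => .plus (f p) R) .zero) (fun z => ∃ p ∈ S, L p z) := by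
  induction S with
  | nil =>
    intro w
    rw [List.foldr_nil, mem_zero]
    constructor
    · exact False.elim
    · rintro ⟨z, ⟨p, hp, -⟩, -⟩
      exact absurd hp List.not_mem_nil
  | cons a S ih =>
    intro w
    have h1 := plus ℓ _ _ _ _ (h a List.mem_cons_self)
      (ih (fun p hp => h p (List.mem_cons_of_mem _ hp)))
    rw [List.foldr_cons, h1 w]
    constructor
    · rintro ⟨z, hz | ⟨p, hp, hz⟩, hw⟩
      · exact ⟨z, ⟨a, List.mem_cons_self, hz⟩, hw⟩
      · exact ⟨z, ⟨p, List.mem_cons_of_mem _ hp, hz⟩, hw⟩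
    · rintro ⟨z, ⟨p, hp, hz⟩, hw⟩
      rcases List.mem_cons.1 hp with rfl | hp
      · exact ⟨z, Or.inl hz, hw⟩
      · exact ⟨z, Or.inr ⟨p, hp, hz⟩, hw⟩

theorem any (ℓ : ℕ) (S : List (Blk ℓ)) : Rp (anyOf S) (fun z => ∃ a ∈ S, z = [a]) :=
  fold ℓ S (fun a => wre (List.ofFn a)) (fun a z => z = [a]) (fun a _ => one ℓ a)

theorem star (ℓ : ℕ) (S : List (Blk ℓ)) : Rp (.star (anyOf S)) (fun z => ∀ a ∈ z, a ∈ S) := by
  intro w
  show w ∈ KStar.kstar (anyOf S).matches' ↔ _
  rw [Language.mem_kstar]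
  constructor
  · rintro ⟨L, rfl, hL⟩
    induction L with
    | nil => exact ⟨[], by simp, rfl⟩
    | cons y L ih =>
      obtain ⟨z, hz, hw⟩ := ih (fun y' hy' => hL y' (List.mem_cons_of_mem _ hy'))
      obtain ⟨z', ⟨a, ha, rfl⟩, hy⟩ := (any ℓ S y).1 (hL y List.mem_cons_self)
      refine ⟨a :: z, ?_, ?_⟩
      · intro b hb
        rcases List.mem_cons.1 hb with rfl | hb
        · exact ha
        · exact hz b hb
      · rw [List.flatten_cons, hw, hy, unb_single, unb_cons]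
  · rintro ⟨z, hz, rfl⟩
    refine ⟨z.map (fun a => List.ofFn a), ?_, ?_⟩
    · show z.flatMap _ = _
      rw [List.flatMap_def]
    · intro y hy
      obtain ⟨a, ha, rfl⟩ := List.mem_map.1 hy
      exact (any ℓ S _).2 ⟨[a], ⟨a, hz a ha, rfl⟩, (unb_single a).symm⟩

theorem mem_allB (ℓ : ℕ) (a : Blk ℓ) : a ∈ allB ℓ := Finset.mem_toList.2 (Finset.mem_univ a)

theorem rp (ℓ : ℕ) (Q : RegularExpression Bool) (L : List (Blk ℓ) → Prop) (n : ℕ) (hQ : Rp Q L) :
    Rp (rep (sg ℓ) Q n) (fun z => ∃ z₁ z₂, z = z₁ ++ z₂ ∧ z₁.length = n ∧ L z₂) := by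
  induction n with
  | zero =>
    intro w
    show w ∈ Q.matches' ↔ _
    rw [hQ w]
    constructor
    · rintro ⟨z, hz, hw⟩
      exact ⟨z, ⟨[], z, rfl, rfl, hz⟩, hw⟩
    · rintro ⟨z, ⟨z₁, z₂, h, h1, h2⟩, hw⟩
      have : z₁ = [] := List.length_eq_zero_iff.1 h1
      subst this
      rw [List.nil_append] at h
      subst h
      exact ⟨z, h2, hw⟩
  | succ n ih =>
    intro w
    have h1 := comp ℓ _ _ _ _ (any ℓ (allB ℓ)) ih
    show w ∈ (RegularExpression.comp (sg ℓ) (rep (sg ℓ) Q n)).matches' ↔ _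
    rw [show sg ℓ = anyOf (allB ℓ) from rfl] at *
    rw [h1 w]
    constructor
    · rintro ⟨z, ⟨z₁, z₂, rfl, ⟨a, -, rfl⟩, z₃, z₄, rfl, h3, h4⟩, hw⟩
      exact ⟨_, ⟨a :: z₃, z₄, rfl, by rw [List.length_cons, h3], h4⟩, hw⟩
    · rintro ⟨z, ⟨z₁, z₂, rfl, h3, h4⟩, hw⟩
      cases z₁ with
      | nil => simp at h3
      | cons a z₁ =>
        refine ⟨_, ⟨[a], z₁ ++ z₂, rfl, ⟨a, mem_allB ℓ a, rfl⟩, z₁, z₂, rfl, ?_, h4⟩, hw⟩
        simpa using h3

theorem inj (ℓ : ℕ) (hℓ : 1 ≤ ℓ) (z z' : List (Blk ℓ)) (h : unb z = unb z') : z = z' := by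
  induction z generalizing z' with
  | nil =>
    cases z' with
    | nil => rfl
    | cons a z' =>
      have h1 := congrArg List.length h
      rw [unb_length, unb_length, List.length_nil, List.length_cons, Nat.mul_zero] at h1
      have : 0 < ℓ * (z'.length + 1) := Nat.mul_pos (by omega) (by omega)
      omega
  | cons a z ih =>
    cases z' with
    | nil =>
      have h1 := congrArg List.length h
      rw [unb_length, unb_length, List.length_nil, List.length_cons, Nat.mul_zero] at h1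
      have : 0 < ℓ * (z.length + 1) := Nat.mul_pos (by omega) (by omega)
      omega
    | cons b z' =>
      rw [unb_cons, unb_cons] at h
      obtain ⟨h1, h2⟩ := List.append_inj h (by rw [List.length_ofFn, List.length_ofFn])
      rw [List.ofFn_injective h1, ih z' h2]

theorem exists_unb (ℓ n : ℕ) (w : List Bool) (hw : w.length = ℓ * n) :
    ∃ z : List (Blk ℓ), w = unb z := by
  induction n generalizing w with
  | zero =>
    exact ⟨[], List.length_eq_zero_iff.1 (by simpa using hw)⟩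
  | succ n ih =>
    have h1 : (w.take ℓ).length = ℓ := by
      rw [List.length_take, hw, Nat.mul_succ]
      omega
    obtain ⟨z, hz⟩ := ih (w.drop ℓ) (by rw [List.length_drop, hw, Nat.mul_succ]; omega)
    refine ⟨(fun i => (w.take ℓ)[i.val]'(by rw [h1]; exact i.isLt)) :: z, ?_⟩
    rw [unb_cons, ← hz]
    have h2 : List.ofFn (fun i : Fin ℓ => (w.take ℓ)[i.val]'(by rw [h1]; exact i.isLt)) =
        w.take ℓ := by
      apply List.ext_getElem
      · rw [List.length_ofFn, h1]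
      · intro i hi hi'
        rw [List.getElem_ofFn]
    rw [h2, List.take_append_drop]

theorem ex_unb_iff (ℓ : ℕ) (w : List Bool) :
    (∃ z : List (Blk ℓ), w = unb z) ↔ ℓ ∣ w.length := by
  constructor
  · rintro ⟨z, rfl⟩
    exact ⟨z.length, unb_length z⟩
  · rintro ⟨n, hn⟩
    exact exists_unb ℓ n w hn

theorem mem_bit (w : List Bool) : w ∈ bit.matches' ↔ w.length = 1 := by
  show w ∈ (RegularExpression.plus (.char false) (.char true)).matches' ↔ _
  rw [mem_plus, mem_char, mem_char]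
  constructor
  · rintro (rfl | rfl) <;> rfl
  · intro h
    obtain ⟨b, rfl⟩ := List.length_eq_one_iff.1 h
    cases b
    · exact Or.inl rfl
    · exact Or.inr rfl

theorem mem_rep_bit (k : ℕ) (w : List Bool) : w ∈ (rep bit bit k).matches' ↔ w.length = k + 1 := by
  induction k generalizing w with
  | zero => exact mem_bit w
  | succ k ih =>
    show w ∈ (RegularExpression.comp bit (rep bit bit k)).matches' ↔ _
    rw [mem_comp]
    constructor
    · rintro ⟨u, v, hu, hv, rfl⟩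
      rw [mem_bit] at hu
      rw [ih] at hv
      rw [List.length_append, hu, hv, add_comm]
    · intro h
      cases w with
      | nil => simp at h
      | cons b w =>
        refine ⟨[b], w, (mem_bit _).2 rfl, (ih w).2 ?_, rfl⟩
        simpa using h

theorem mem_fold (S : List ℕ) (f : ℕ → RegularExpression Bool) (w : List Bool) :
    w ∈ (S.foldr (fun p R => RegularExpression.plus (f p) R) .zero).matches' ↔
      ∃ p ∈ S, w ∈ (f p).matches' := by
  induction S with
  | nil =>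
    rw [List.foldr_nil, mem_zero]
    simp
  | cons a S ih =>
    rw [List.foldr_cons, mem_plus, ih]
    simp

theorem mis_iff (ℓ : ℕ) (hℓ : 1 ≤ ℓ) (w : List Bool) :
    w ∈ (mis ℓ).matches' ↔ ¬ ∃ z : List (Blk ℓ), w = unb z := by
  rw [ex_unb_iff]
  unfold mis
  rw [mem_comp]
  constructor
  · rintro ⟨u, v, hu, hv, rfl⟩
    obtain ⟨z, -, rfl⟩ := (star ℓ (allB ℓ) u).1 hu
    rw [mem_fold] at hv
    obtain ⟨k, hk, hv⟩ := hv
    rw [mem_rep_bit] at hv
    rw [List.mem_range] at hk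
    rw [List.length_append, unb_length, hv]
    intro hd
    have h1 : ℓ ∣ k + 1 := (Nat.dvd_add_right (Dvd.intro _ rfl)).1 hd
    have := Nat.le_of_dvd (by omega) h1
    omega
  · intro hnd
    have hr : 0 < w.length % ℓ := Nat.pos_of_ne_zero (fun h => hnd (Nat.dvd_of_mod_eq_zero h))
    have hlt : w.length % ℓ < ℓ := Nat.mod_lt _ hℓ
    have hdm := Nat.div_add_mod w.length ℓ
    obtain ⟨z, hz⟩ := exists_unb ℓ (w.length / ℓ) (w.take (ℓ * (w.length / ℓ))) (by
      rw [List.length_take]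
      omega)
    refine ⟨w.take (ℓ * (w.length / ℓ)), w.drop (ℓ * (w.length / ℓ)), ?_, ?_,
      (List.take_append_drop _ _).symm⟩
    · exact (star ℓ (allB ℓ) _).2 ⟨z, fun a _ => mem_allB ℓ a, hz⟩
    · rw [mem_fold]
      refine ⟨w.length % ℓ - 1, List.mem_range.2 (by omega), ?_⟩
      rw [mem_rep_bit, List.length_drop]
      omega

end RAaux

theorem prf_RA : S_RA where
  mem_allB := RAaux.mem_allB
  inj := RAaux.inj
  one := RAaux.one
  any := RAaux.any
  star := RAaux.star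
  zero := RAaux.zero
  eps := RAaux.eps
  plus := RAaux.plus
  comp := RAaux.comp
  rep := RAaux.rp
  fold := RAaux.fold
  mis := RAaux.mis_iff

end Pool.Agent.Work.MP_71c844_lc.Reg
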